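import Pool.Agent.H6.HBasic

/-!
# The limit theorem
-/

set_option autoImplicit false

namespace Pool.Agent.H6.Hunt

open Filter

/-- A chain of good lattices and nice embeddings. -/
structure Sys {J : Type} [LinearOrder J] (E : J → Type) [∀ j, CompleteLattice (E j)] where
  e : ∀ {i j : J}, i ≤ j → E i → E j
  e_id : ∀ {j : J} (h : j ≤ j) (a : E j), e h a = a
  e_comp : ∀ {i j k : J} (h : i ≤ j) (h' : j ≤ k) (a : E i), e h' (e h a) = e (h.trans h') a
  nice : ∀ {i j : J} (h : i ≤ j), Nice (e h)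
  good : ∀ j : J, Good (E j)

namespace Sys

variable {J : Type} [LinearOrder J] {E : J → Type} [∀ j, CompleteLattice (E j)] (Y : Sys E)

theorem up_up {i j k : J} (h : i ≤ j) (h' : j ≤ k) (a : E k) :
    up (Y.e h) (up (Y.e h') a) = up (Y.e (h.trans h')) a := by
  rw [← up_comp (Y.nice h')]
  congr 1
  funext b
  exact Y.e_comp h h' b

theorem up_id {j : J} (h : j ≤ j) (a : E j) : up (Y.e h) a = a := by
  have := (Y.nice h).up_map a
  rwa [Y.e_id] at this

/-- principal threads -/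
def eta (k : J) (a : E k) (j : J) : E j :=
  up (Y.e (le_max_left j k)) (Y.e (le_max_right j k) a)

theorem eta_eq {k : J} (a : E k) {j m : J} (hj : j ≤ m) (hk : k ≤ m) :
    Y.eta k a j = up (Y.e hj) (Y.e hk a) := by
  have h : max j k ≤ m := max_le hj hk
  rw [← Y.e_comp (le_max_right j k) h, ← Y.up_up (le_max_left j k) h, (Y.nice h).up_map]
  rfl

theorem eta_of_le {k : J} (a : E k) {j : J} (h : k ≤ j) : Y.eta k a j = Y.e h a := by
  rw [Y.eta_eq a le_rfl h, Y.up_id]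

theorem eta_of_ge {k : J} (a : E k) {j : J} (h : j ≤ k) : Y.eta k a j = up (Y.e h) a := by
  rw [Y.eta_eq a h le_rfl, Y.e_id]

theorem eta_self {k : J} (a : E k) : Y.eta k a k = a := by
  rw [Y.eta_of_le a le_rfl, Y.e_id]

theorem eta_mono {k : J} (j : J) : Monotone (fun a => Y.eta k a j) := fun _ _ h =>
  (Y.nice _).up_mono ((Y.nice _).mono h)

theorem eta_up {k : J} (a : E k) {i j : J} (h : i ≤ j) :
    Y.eta k a i = up (Y.e h) (Y.eta k a j) := by
  have h1 : j ≤ max j k := le_max_left _ _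
  have h2 : k ≤ max j k := le_max_right _ _
  rw [Y.eta_eq a h1 h2, Y.up_up, Y.eta_eq a (h.trans h1) h2]

theorem eta_comp {i j : J} (h : i ≤ j) (a : E i) (k : J) :
    Y.eta j (Y.e h a) k = Y.eta i a k := by
  have h1 : j ≤ max j k := le_max_left _ _
  have h2 : k ≤ max j k := le_max_right _ _
  rw [Y.eta_eq _ h2 h1, Y.e_comp, Y.eta_eq a h2 (h.trans h1)]

/-- The limit lattice: threads which are suprema of principal threads. -/
structure Lim : Type where
  /-- the thread -/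
  val : ∀ j, E j
  /-- it is a supremum of principal threads -/
  property : ∀ j, val j ≤
    sSup {y | ∃ (k : J) (a : E k), (∀ i, Y.eta k a i ≤ val i) ∧ y = Y.eta k a j}

namespace Lim

variable {Y}

theorem ext' {x y : Y.Lim} (h : x.1 = y.1) : x = y := by
  cases x; cases y; cases h; rfl

instance : PartialOrder Y.Lim := PartialOrder.lift Lim.val (fun _ _ h => ext' h)

theorem le_def {x y : Y.Lim} : x ≤ y ↔ ∀ j, x.1 j ≤ y.1 j := Iff.rfl

instance : SupSet Y.Lim := ⟨fun A : Set Y.Lim =>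
  Lim.mk (fun j => sSup ((fun x : Y.Lim => x.1 j) '' A)) (by
    intro j
    apply sSup_le
    rintro _ ⟨x, hx, rfl⟩
    refine (x.2 j).trans (sSup_le_sSup ?_)
    rintro _ ⟨k, a, h, rfl⟩
    exact ⟨k, a, fun i => (h i).trans (le_sSup ⟨x, hx, rfl⟩), rfl⟩)⟩

theorem sSup_apply' (A : Set Y.Lim) (j : J) :
    (sSup A).1 j = sSup ((fun x : Y.Lim => x.1 j) '' A) := rfl

theorem isLUB_sSup' (A : Set Y.Lim) : IsLUB A (sSup A) := by
  constructor
  · intro x hx j
    rw [sSup_apply']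
    exact le_sSup ⟨x, hx, rfl⟩
  · intro y hy j
    rw [sSup_apply']
    apply sSup_le
    rintro _ ⟨x, hx, rfl⟩
    exact hy hx j

instance : CompleteLattice Y.Lim := completeLatticeOfSup _ isLUB_sSup'

theorem sSup_apply (A : Set Y.Lim) (j : J) : (sSup A).1 j = sSup ((fun x : Y.Lim => x.1 j) '' A) :=
  rfl

theorem sup_apply (x y : Y.Lim) (j : J) : (x ⊔ y).1 j = x.1 j ⊔ y.1 j := by
  rw [← sSup_pair, sSup_apply, Set.image_pair, sSup_pair]

theorem bot_apply (j : J) : (⊥ : Y.Lim).1 j = ⊥ := by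
  rw [← sSup_empty, sSup_apply, Set.image_empty, sSup_empty]

theorem thread (x : Y.Lim) {i j : J} (h : i ≤ j) : x.1 i = up (Y.e h) (x.1 j) := by
  apply le_antisymm
  · refine (x.2 i).trans (sSup_le ?_)
    rintro _ ⟨k, a, hka, rfl⟩
    rw [Y.eta_up a h]
    exact (Y.nice h).up_mono (hka j)
  · refine ((Y.nice h).up_mono (x.2 j)).trans ?_
    rw [(Y.nice h).up_sSup]
    apply sSup_le
    rintro _ ⟨_, ⟨k, a, hka, rfl⟩, rfl⟩
    rw [← Y.eta_up a h]
    exact hka i

theorem le_of_ge {x y : Y.Lim} (j₀ : J) (h : ∀ j, j₀ ≤ j → x.1 j ≤ y.1 j) : x ≤ y := by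
  intro i
  have h1 : i ≤ max i j₀ := le_max_left _ _
  rw [x.thread h1, y.thread h1]
  exact (Y.nice h1).up_mono (h _ (le_max_right _ _))

variable (Y) in
/-- the embedding of a stage in the limit -/
def emb (k : J) (a : E k) : Y.Lim := ⟨Y.eta k a, fun j => le_sSup ⟨k, a, fun _ => le_rfl, rfl⟩⟩

theorem emb_apply_self (k : J) (a : E k) : (emb Y k a).1 k = a := Y.eta_self a

theorem le_emb_iff {x : Y.Lim} {k : J} {a : E k} : x ≤ emb Y k a ↔ x.1 k ≤ a := by
  constructor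
  · intro h
    have := h k
    rwa [emb_apply_self] at this
  · intro h j
    rcases le_total k j with hkj | hkj
    · refine le_trans ?_ (Y.eta_of_le a hkj).ge
      refine ((Y.nice hkj).le_up _).trans ((Y.nice hkj).mono ?_)
      rw [← x.thread hkj]
      exact h
    · refine le_trans ?_ (Y.eta_of_ge a hkj).ge
      rw [x.thread hkj]
      exact (Y.nice hkj).up_mono h

theorem emb_mono (k : J) : Monotone (emb Y k) := fun _ _ h j => Y.eta_mono j h

theorem emb_comp {i j : J} (h : i ≤ j) (a : E i) : emb Y j (Y.e h a) = emb Y i a :=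
  ext' (funext fun k => Y.eta_comp h a k)

theorem emb_inj (k : J) : Function.Injective (emb Y k) := by
  intro a b h
  rw [← emb_apply_self (Y := Y) k a, h, emb_apply_self]

theorem emb_sInf (k : J) (S : Set (E k)) : emb Y k (sInf S) = sInf (emb Y k '' S) := by
  apply le_antisymm
  · apply le_sInf
    rintro _ ⟨a, ha, rfl⟩
    exact emb_mono k (sInf_le ha)
  · rw [le_emb_iff]
    apply le_sInf
    intro a ha
    rw [← le_emb_iff]
    exact sInf_le ⟨a, ha, rfl⟩

theorem emb_sSup (k : J) (S : Set (E k)) : emb Y k (sSup S) = sSup (emb Y k '' S) := by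
  apply ext'
  funext j
  rw [sSup_apply, Set.image_image]
  change Y.eta k (sSup S) j = _
  unfold eta
  rw [(Y.nice _).map_sSup, (Y.nice _).up_sSup, Set.image_image]
  rfl

theorem up_emb (k : J) (x : Y.Lim) : up (emb Y k) x = x.1 k := by
  unfold up
  apply le_antisymm
  · exact sInf_le (le_emb_iff.2 le_rfl)
  · exact le_sInf fun a ha => le_emb_iff.1 ha

/-- the lower approximation -/
def low (k : J) (x : Y.Lim) : E k := lo (emb Y k) x

theorem emb_low_le (k : J) (x : Y.Lim) : emb Y k (low k x) ≤ x := by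
  unfold low lo
  rw [emb_sSup]
  apply sSup_le
  rintro _ ⟨a, ha, rfl⟩
  exact ha

theorem le_low_iff {k : J} {a : E k} {x : Y.Lim} : a ≤ low k x ↔ emb Y k a ≤ x :=
  ⟨fun h => (emb_mono k h).trans (emb_low_le k x), fun h => le_sSup h⟩

theorem low_mono (k : J) : Monotone (low k : Y.Lim → E k) := fun x _ h =>
  le_low_iff.2 ((emb_low_le k x).trans h)

theorem e_low_le {i j : J} (h : i ≤ j) (x : Y.Lim) : Y.e h (low i x) ≤ low j x := by
  rw [le_low_iff, emb_comp]
  exact emb_low_le i x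

theorem emb_bot (k : J) : emb Y k ⊥ = ⊥ := by
  have := emb_sSup (Y := Y) k ∅
  simpa using this

theorem emb_top (k : J) : emb Y k ⊤ = ⊤ := by
  have := emb_sInf (Y := Y) k ∅
  simpa using this

theorem top_apply (j : J) : (⊤ : Y.Lim).1 j = ⊤ := by
  rw [← emb_top j, emb_apply_self]

theorem low_ne_bot_mono {i j : J} (h : i ≤ j) {x : Y.Lim} (hx : low i x ≠ ⊥) :
    low j x ≠ ⊥ := by
  intro h'
  apply hx
  apply (Y.nice h).inj
  rw [(Y.nice h).map_bot, ← le_bot_iff, ← h']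
  exact e_low_le h x

theorem le_iSup_low (x : Y.Lim) : x ≤ ⨆ k, emb Y k (low k x) := by
  intro j
  refine (x.2 j).trans (sSup_le ?_)
  rintro _ ⟨k, a, hka, rfl⟩
  have h1 : emb Y k a ≤ ⨆ k, emb Y k (low k x) :=
    le_trans (emb_mono k (le_low_iff.2 hka)) (le_iSup (fun k => emb Y k (low k x)) k)
  exact h1 j

theorem exists_low_ne_bot {x : Y.Lim} (hx : x ≠ ⊥) : ∃ j, low j x ≠ ⊥ := by
  by_contra h
  push Not at h
  apply hx
  rw [← le_bot_iff]
  refine (le_iSup_low x).trans (iSup_le fun k => ?_)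
  rw [h k, emb_bot]

/-- Directed family of lower approximations, evaluated at a coordinate. -/
theorem apply_le_of {x : Y.Lim} {j : J} {w : E j}
    (h : ∀ m (hm : j ≤ m), up (Y.e hm) (low m x) ≤ w) : x.1 j ≤ w := by
  refine (x.2 j).trans (sSup_le ?_)
  rintro _ ⟨k, a, hka, rfl⟩
  have h1 : j ≤ max j k := le_max_left _ _
  have h2 : k ≤ max j k := le_max_right _ _
  rw [Y.eta_eq a h1 h2]
  refine le_trans ((Y.nice h1).up_mono ?_) (h _ h1)
  rw [le_low_iff, emb_comp]
  exact hka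

theorem up_low_le (x : Y.Lim) {j m : J} (hm : j ≤ m) : up (Y.e hm) (low m x) ≤ x.1 j := by
  rw [x.thread hm]
  apply (Y.nice hm).up_mono
  have := emb_low_le m x m
  rwa [emb_apply_self] at this

theorem up_low_mono (x : Y.Lim) {j m m' : J} (hm : j ≤ m) (h : m ≤ m') :
    up (Y.e hm) (low m x) ≤ up (Y.e (hm.trans h)) (low m' x) := by
  rw [← Y.up_up hm h]
  apply (Y.nice hm).up_mono
  have := (Y.nice h).up_mono (e_low_le h x)
  rwa [(Y.nice h).up_map] at this

/-- (F) for the embeddings in the limit. -/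
theorem inf_apply {x y : Y.Lim} {j : J} (hx : low j x ≠ ⊥) (hy : low j y ≠ ⊥) :
    (x ⊓ y).1 j = x.1 j ⊓ y.1 j := by
  apply le_antisymm
  · exact le_inf ((inf_le_left : x ⊓ y ≤ x) j) ((inf_le_right : x ⊓ y ≤ y) j)
  · let D : Y.Lim → Set (E j) := fun x => {w | ∃ m, ∃ hm : j ≤ m, w = up (Y.e hm) (low m x)}
    have hD : ∀ x, (D x).Nonempty := fun x => ⟨_, j, le_rfl, rfl⟩
    have hD' : ∀ x, DirectedOn (· ≤ ·) (D x) := by
      rintro x _ ⟨m, hm, rfl⟩ _ ⟨m', hm', rfl⟩
      refine ⟨_, ⟨max m m', hm.trans (le_max_left _ _), rfl⟩, ?_, ?_⟩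
      · exact up_low_mono x hm (le_max_left _ _)
      · exact up_low_mono x hm' (le_max_right _ _)
    have hle : ∀ x : Y.Lim, x.1 j ≤ sSup (D x) := by
      intro x
      apply apply_le_of
      intro m hm
      exact le_sSup ⟨m, hm, rfl⟩
    refine (inf_le_inf (hle x) (hle y)).trans ?_
    refine (Y.good j).uc.two _ _ (hD x) (hD' x) (hD y) (hD' y) _ ?_
    rintro _ ⟨m, hm, rfl⟩ _ ⟨m', hm', rfl⟩
    have h1 : j ≤ max m m' := hm.trans (le_max_left _ _)
    refine (inf_le_inf (up_low_mono x hm (le_max_left m m'))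
      (up_low_mono y hm' (le_max_right m m'))).trans ?_
    have aux : ∀ z : Y.Lim, low j z ≠ ⊥ → lo (Y.e h1) (low (max m m') z) ≠ ⊥ := by
      intro z hz h
      apply hz
      rw [← le_bot_iff, ← h, (Y.nice h1).le_lo]
      exact e_low_le h1 z
    rw [← (Y.nice h1).F _ _ (aux x hx) (aux y hy)]
    refine le_trans ((Y.nice h1).up_mono ?_) (up_low_le (x ⊓ y) h1)
    rw [le_low_iff]
    exact le_inf ((emb_mono _ inf_le_left).trans (emb_low_le _ x))
      ((emb_mono _ inf_le_right).trans (emb_low_le _ y))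

theorem emb_nice (k : J) : Nice (emb Y k) where
  inj := emb_inj k
  map_sSup := emb_sSup k
  map_sInf := emb_sInf k
  F x y hx hy := by
    rw [up_emb, up_emb, up_emb]
    exact inf_apply hx hy

variable (Y) in
theorem uc : UC Y.Lim := by
  intro x D hD hD'
  by_cases hw : x ⊓ sSup D = ⊥
  · rw [hw]; exact bot_le
  obtain ⟨j, hj⟩ := exists_low_ne_bot hw
  have hjx : low j x ≠ ⊥ := fun h => hj (le_bot_iff.1 ((low_mono j inf_le_left).trans h.le))
  have hd : ∃ d ∈ D, d ≠ ⊥ := by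
    by_contra h
    push Not at h
    apply hw
    have : sSup D = ⊥ := by
      rw [← le_bot_iff]
      exact sSup_le fun d hd => (h d hd).le
    rw [this, inf_bot_eq]
  obtain ⟨d₀, hd₀, hd₀'⟩ := hd
  obtain ⟨j', hj'⟩ := exists_low_ne_bot hd₀'
  apply le_of_ge (max j j')
  intro k hk
  have hkx : low k x ≠ ⊥ := low_ne_bot_mono ((le_max_left _ _).trans hk) hjx
  have hkd : low k d₀ ≠ ⊥ := low_ne_bot_mono ((le_max_right _ _).trans hk) hj'
  have h1 : (x ⊓ sSup D).1 k ≤ x.1 k ⊓ sSup ((fun x : Y.Lim => x.1 k) '' D) :=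
    le_inf ((inf_le_left : x ⊓ sSup D ≤ x) k) ((inf_le_right : x ⊓ sSup D ≤ sSup D) k)
  refine h1.trans (((Y.good k).uc _ _ (hD.image _) ?_).trans ?_)
  · rintro _ ⟨d, hd, rfl⟩ _ ⟨d', hd', rfl⟩
    obtain ⟨d'', hd'', h2, h3⟩ := hD' d hd d' hd'
    exact ⟨_, ⟨d'', hd'', rfl⟩, h2 k, h3 k⟩
  · apply iSup₂_le
    rintro _ ⟨d, hd, rfl⟩
    obtain ⟨d', hd', h2, h3⟩ := hD' d hd d₀ hd₀
    have h4 : low k d' ≠ ⊥ := fun h => hkd (le_bot_iff.1 ((low_mono k h3).trans h.le))
    have h5 : x ⊓ d' ≤ ⨆ d ∈ D, x ⊓ d := le_iSup₂ (f := fun d (_ : d ∈ D) => x ⊓ d) d' hd'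
    refine le_trans ?_ (h5 k)
    rw [inf_apply hkx h4]
    exact inf_le_inf le_rfl (h2 k)

theorem isCompl_apply {x y : Y.Lim} (h : IsCompl x y) (j₁ : J) :
    ∃ j₀, ∀ j, j₀ ≤ j → IsCompl (x.1 j) (y.1 j) := by
  rw [isCompl_iff, disjoint_iff, codisjoint_iff] at h
  obtain ⟨h1, h2⟩ := h
  have hs : ∀ j, x.1 j ⊔ y.1 j = ⊤ := by
    intro j
    rw [← sup_apply, h2, top_apply]
  have key : ∃ j₀, ∀ j, j₀ ≤ j → x.1 j ⊓ y.1 j = ⊥ := by
    by_cases hx : x = ⊥
    · exact ⟨j₁, fun j _ => by rw [hx, bot_apply, bot_inf_eq]⟩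
    by_cases hy : y = ⊥
    · exact ⟨j₁, fun j _ => by rw [hy, bot_apply, inf_bot_eq]⟩
    obtain ⟨j, hj⟩ := exists_low_ne_bot hx
    obtain ⟨j', hj'⟩ := exists_low_ne_bot hy
    refine ⟨max j j', fun k hk => ?_⟩
    rw [← inf_apply (low_ne_bot_mono ((le_max_left _ _).trans hk) hj)
      (low_ne_bot_mono ((le_max_right _ _).trans hk) hj'), h1, bot_apply]
  obtain ⟨j₀, hj₀⟩ := key
  refine ⟨j₀, fun j hj => ?_⟩
  rw [isCompl_iff, disjoint_iff, codisjoint_iff]
  exact ⟨hj₀ j hj, hs j⟩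

theorem au [Nonempty J] (x y y' : Y.Lim) (h : IsCompl x y) (h' : IsCompl x y') : y = y' := by
  obtain ⟨j₀, h₀⟩ := isCompl_apply h (Classical.arbitrary J)
  obtain ⟨j₁, h₁⟩ := isCompl_apply h' (Classical.arbitrary J)
  have key : ∀ j, max j₀ j₁ ≤ j → y.1 j = y'.1 j := fun j hj =>
    (Y.good j).au _ _ _ (h₀ j ((le_max_left _ _).trans hj)) (h₁ j ((le_max_right _ _).trans hj))
  exact le_antisymm (le_of_ge _ fun j hj => (key j hj).le) (le_of_ge _ fun j hj => (key j hj).ge)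

section Code

variable [Encodable J] (cc : ∀ j, E j → ℕ → Bool)

/-- the code of an element of the limit -/
def cd (x : Y.Lim) (n : ℕ) : Bool :=
  match (Encodable.decode n.unpair.1 : Option (J × Bool)) with
  | some (j, true) => cc j (x.1 j) n.unpair.2
  | some (j, false) => cc j (low j x) n.unpair.2
  | none => false

variable {cc}

theorem cd_true (x : Y.Lim) (j : J) (k : ℕ) :
    cd cc x (Nat.pair (Encodable.encode (j, true)) k) = cc j (x.1 j) k := by
  simp [cd]

theorem cd_false (x : Y.Lim) (j : J) (k : ℕ) :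
    cd cc x (Nat.pair (Encodable.encode (j, false)) k) = cc j (low j x) k := by
  simp [cd]

theorem cd_inj (hcc : ∀ j, Function.Injective (cc j)) :
    Function.Injective (cd cc : Y.Lim → ℕ → Bool) := by
  intro x y h
  apply ext'
  funext j
  apply hcc j
  funext k
  rw [← cd_true (cc := cc) x j k, h, cd_true]

variable {X : Type} {U : Ultrafilter X}

theorem CC_apply {z : X → Y.Lim} {w : Y.Lim} (h : CC (cd cc) U z w) (j : J) :
    CC (cc j) U (fun x => (z x).1 j) (w.1 j) := by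
  intro k
  filter_upwards [h (Nat.pair (Encodable.encode (j, true)) k)] with x hx
  rwa [cd_true, cd_true] at hx

theorem CC_low {z : X → Y.Lim} {w : Y.Lim} (h : CC (cd cc) U z w) (j : J) :
    CC (cc j) U (fun x => low j (z x)) (low j w) := by
  intro k
  filter_upwards [h (Nat.pair (Encodable.encode (j, false)) k)] with x hx
  rwa [cd_false, cd_false] at hx

theorem low_sup_le (j : J) (x y : Y.Lim) : low j x ⊔ low j y ≤ low j (x ⊔ y) :=
  sup_le (low_mono j le_sup_left) (low_mono j le_sup_right)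

theorem low_inf_le (j : J) (x y : Y.Lim) : low j x ⊓ low j y ≤ low j (x ⊓ y) := by
  rw [le_low_iff]
  exact le_inf ((emb_mono _ inf_le_left).trans (emb_low_le _ x))
      ((emb_mono _ inf_le_right).trans (emb_low_le _ y))

theorem K3 [Nonempty J] {q : X → Y.Lim} {a : Y.Lim} (h : Pc (cd cc) U q a) :
    ∃ m : ∀ j, E j, (∀ j, LL (cc j) U (fun x => low j (q x)) (m j)) ∧
      (∀ i j (h : i ≤ j), Y.e h (m i) ≤ m j) ∧ a ≤ ⨆ j, emb Y j (m j) := by
  induction h with
  | @leaf z w h =>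
    exact ⟨fun j => low j w, fun j => LL.of_CC (CC_low h j), fun i j h => e_low_le h w,
      le_iSup_low w⟩
  | sup _ _ ih ih' =>
    obtain ⟨m, h1, h2, h3⟩ := ih
    obtain ⟨m', h1', h2', h3'⟩ := ih'
    refine ⟨fun j => m j ⊔ m' j, fun j => ?_, fun i j h => ?_, ?_⟩
    · exact ((h1 j).sup (h1' j)).mono le_rfl (Eventually.of_forall fun x => low_sup_le j _ _)
    · rw [(Y.nice h).map_sup]
      exact sup_le_sup (h2 i j h) (h2' i j h)
    · refine sup_le (h3.trans ?_) (h3'.trans ?_)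
      · exact iSup_mono fun j => emb_mono j le_sup_left
      · exact iSup_mono fun j => emb_mono j le_sup_right
  | inf _ _ ih ih' =>
    obtain ⟨m, h1, h2, h3⟩ := ih
    obtain ⟨m', h1', h2', h3'⟩ := ih'
    refine ⟨fun j => m j ⊓ m' j, fun j => ?_, fun i j h => ?_, ?_⟩
    · exact ((h1 j).inf (Y.good j).uc (h1' j)).mono le_rfl
        (Eventually.of_forall fun x => low_inf_le j _ _)
    · rw [(Y.nice h).map_inf]
      exact inf_le_inf (h2 i j h) (h2' i j h)
    · refine (inf_le_inf h3 h3').trans ?_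
      have dir : ∀ m : (∀ j, E j), (∀ i j (h : i ≤ j), Y.e h (m i) ≤ m j) →
          Monotone (fun j => emb Y j (m j)) := by
        intro m hm i j h
        change emb Y i (m i) ≤ emb Y j (m j)
        rw [← emb_comp h]
        exact emb_mono j (hm i j h)
      have dir' : ∀ m : (∀ j, E j), (∀ i j (h : i ≤ j), Y.e h (m i) ≤ m j) →
          DirectedOn (· ≤ ·) (Set.range (fun j => emb Y j (m j))) := by
        rintro m hm _ ⟨i, rfl⟩ _ ⟨j, rfl⟩
        exact ⟨_, ⟨max i j, rfl⟩, dir m hm (le_max_left _ _), dir m hm (le_max_right _ _)⟩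
      refine (uc Y).two _ _ (Set.range_nonempty _) (dir' m h2) (Set.range_nonempty _)
        (dir' m' h2') _ ?_
      rintro _ ⟨i, rfl⟩ _ ⟨j, rfl⟩
      refine (inf_le_inf (dir m h2 (le_max_left i j)) (dir m' h2' (le_max_right i j))).trans ?_
      change emb Y (max i j) (m (max i j)) ⊓ emb Y (max i j) (m' (max i j)) ≤ _
      rw [← (emb_nice (max i j)).map_inf]
      exact le_iSup (fun j => emb Y j (m j ⊓ m' j)) (max i j)

theorem K2 [Nonempty J] (htt : ∀ j, TT (cc j)) {q : X → Y.Lim} {a : Y.Lim}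
    (h : Pc (cd cc) U q a) (ha : a ≠ ⊥) :
    ∃ j, ∀ᶠ x in (U : Filter X), low j (q x) ≠ ⊥ := by
  obtain ⟨m, h1, h2, h3⟩ := K3 h
  by_contra hcon
  push Not at hcon
  apply ha
  rw [← le_bot_iff]
  refine h3.trans (iSup_le fun j => ?_)
  have h4 : ∀ᶠ x in (U : Filter X), low j (q x) ≤ ⊥ := (hcon j).mono fun x hx => hx.le
  have h5 : m j = ⊥ := le_bot_iff.1 ((h1 j).le_const (htt j) h4)
  rw [h5, emb_bot]

theorem K1 [Nonempty J] (htt : ∀ j, TT (cc j)) {q : X → Y.Lim} {a : Y.Lim}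
    (h : Pc (cd cc) U q a) :
    ∃ j₀, ∀ j, j₀ ≤ j → LL (cc j) U (fun x => (q x).1 j) (a.1 j) := by
  induction h with
  | leaf h => exact ⟨Classical.arbitrary J, fun j _ => LL.of_CC (CC_apply h j)⟩
  | sup _ _ ih ih' =>
    obtain ⟨j₀, h₀⟩ := ih
    obtain ⟨j₁, h₁⟩ := ih'
    refine ⟨max j₀ j₁, fun j hj => ?_⟩
    simp only [sup_apply]
    exact (h₀ j ((le_max_left _ _).trans hj)).sup (h₁ j ((le_max_right _ _).trans hj))
  | @inf q r a b h h' ih ih' =>
    by_cases ha : a = ⊥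
    · refine ⟨Classical.arbitrary J, fun j _ => ?_⟩
      rw [ha, bot_inf_eq, bot_apply]
      exact LL.bot _
    by_cases hb : b = ⊥
    · refine ⟨Classical.arbitrary J, fun j _ => ?_⟩
      rw [hb, inf_bot_eq, bot_apply]
      exact LL.bot _
    obtain ⟨j₀, h₀⟩ := ih
    obtain ⟨j₁, h₁⟩ := ih'
    obtain ⟨j₂, h₂⟩ := K2 htt h ha
    obtain ⟨j₃, h₃⟩ := K2 htt h' hb
    refine ⟨max (max j₀ j₁) (max j₂ j₃), fun j hj => ?_⟩
    have i₀ : j₀ ≤ j := ((le_max_left _ _).trans (le_max_left _ _)).trans hj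
    have i₁ : j₁ ≤ j := ((le_max_right _ _).trans (le_max_left _ _)).trans hj
    have i₂ : j₂ ≤ j := ((le_max_left _ _).trans (le_max_right _ _)).trans hj
    have i₃ : j₃ ≤ j := ((le_max_right _ _).trans (le_max_right _ _)).trans hj
    refine ((h₀ j i₀).inf (Y.good j).uc (h₁ j i₁)).mono ?_ ?_
    · exact le_inf ((inf_le_left : a ⊓ b ≤ a) j) ((inf_le_right : a ⊓ b ≤ b) j)
    · filter_upwards [h₂, h₃] with x hx hx'
      rw [inf_apply (low_ne_bot_mono i₂ hx) (low_ne_bot_mono i₃ hx')]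

theorem cd_TT [Nonempty J] (htt : ∀ j, TT (cc j)) : TT (cd cc : Y.Lim → ℕ → Bool) := by
  intro X U q b a w hq hb hqb
  obtain ⟨j₀, h₀⟩ := K1 htt hq
  apply le_of_ge j₀
  intro j hj
  refine (h₀ j hj).le (htt j) (CC_apply hb j) ?_
  filter_upwards [hqb] with x hx using hx j

end Code

end Lim

end Sys

/-- The limit theorem. -/
theorem limit {J : Type} [LinearOrder J] [Nonempty J] [Countable J] (E : J → Type)
    [∀ j, CompleteLattice (E j)] (Y : Sys E) :
    ∃ (N : Type) (_ : CompleteLattice N) (η : ∀ j, E j → N), Good N ∧ (∀ j, Nice (η j)) ∧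
      (∀ i j (h : i ≤ j) (a : E i), η j (Y.e h a) = η i a) ∧
      (∀ x y : N, (∀ j a, y ≤ η j a → x ≤ η j a) → x ≤ y) := by
  have hcode : ∀ j, ∃ c : E j → ℕ → Bool, Function.Injective c ∧ TT c := fun j => (Y.good j).code
  choose cc hcc htt using hcode
  have := Encodable.ofCountable J
  refine ⟨Y.Lim, inferInstance, Sys.Lim.emb Y, ⟨Sys.Lim.uc Y, Sys.Lim.au,
    ⟨Sys.Lim.cd cc, Sys.Lim.cd_inj hcc, Sys.Lim.cd_TT htt⟩⟩, Sys.Lim.emb_nice,
    fun i j h a => Sys.Lim.emb_comp h a, ?_⟩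
  intro x y h j
  rw [← Sys.Lim.le_emb_iff]
  exact h j (y.1 j) (Sys.Lim.le_emb_iff.2 le_rfl)

end Pool.Agent.H6.Hunt
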