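import Pool.Agent.H6.HCode
import Pool.Agent.H6.HLimit

/-!
# Transfinite assembly
-/

set_option autoImplicit false

namespace Pool.Agent.H6.Hunt

open Filter

/-- Names for the elements of the lattices in the chain. -/
structure Nm (I : Type) : Type where
  /-- the stage at which the element was introduced -/
  idx : I
  /-- its code -/
  code : ℕ → Bool

/-- A lattice whose elements have names in `A`. -/
structure Stage (A : Type) : Type 1 where
  /-- the lattice -/
  T : Type
  /-- its lattice structure -/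
  inst : CompleteLattice T
  /-- the name of an element -/
  nm : T → A
  inj : Function.Injective nm

instance {A : Type} (P : Stage A) : CompleteLattice P.T := P.inst

/-- `Q` is a nice extension of `P`, respecting names. -/
def Ext {A : Type} (P Q : Stage A) : Prop := ∃ e : P.T → Q.T, Nice e ∧ ∀ x, Q.nm (e x) = P.nm x

theorem Ext.refl {A : Type} (P : Stage A) : Ext P P := ⟨id, Nice.id, fun _ => rfl⟩

section mk

variable {A J : Type} [LinearOrder J] (F : J → Stage A)
  (hg : ∀ j, Good (F j).T) (he : ∀ j k, j ≤ k → Ext (F j) (F k))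

/-- the system given by a chain of stages -/
noncomputable def mkSys : Sys (fun j => (F j).T) where
  e {i j} h := (he i j h).choose
  e_id {j} h a := (F j).inj ((he j j h).choose_spec.2 a)
  e_comp {i j k} h h' a := (F k).inj (by
    rw [(he j k h').choose_spec.2, (he i j h).choose_spec.2, (he i k (h.trans h')).choose_spec.2])
  nice {i j} h := (he i j h).choose_spec.1
  good := hg

theorem mkSys_nm {j k : J} (h : j ≤ k) (a : (F j).T) :
    (F k).nm ((mkSys F hg he).e h a) = (F j).nm a := (he j k h).choose_spec.2 a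

end mk

section

variable {I : Type} [LinearOrder I]

/-- The requirements for stage `i`. -/
structure OK (i : I) (prev : ∀ j, j < i → Stage (Nm I)) (B Q : Stage (Nm I)) : Prop where
  idx : ∀ x : Q.T, (Q.nm x).idx ≤ i
  good : Good Q.T
  base : Ext B Q
  ext : ∀ j hj, Ext (prev j hj) Q
  compl : ∀ j hj (b : (prev j hj).T), ∃ b₁ b' : Q.T, Q.nm b₁ = (prev j hj).nm b ∧ IsCompl b₁ b'
  det : (∃ j, j < i) → ∀ T : Set Q.T,
    (∀ t ∈ T, ∃ j hj, ∃ a : (prev j hj).T, (prev j hj).nm a = Q.nm t) →
    ∀ s : Q.T, (∀ y : Q.T, (∃ j hj, ∃ a : (prev j hj).T, (prev j hj).nm a = Q.nm y) →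
      sSup T ≤ y → s ≤ y) → s ≤ sSup T

theorem exists_next (i : I) (F : I → Stage (Nm I)) (B : Stage (Nm I))
    (hcount : (Set.Iio i).Countable) (hB : Good B.T) (hB' : ∀ x : B.T, (B.nm x).idx ≤ i)
    (hgood : ∀ j < i, Good (F j).T) (hext : ∀ j k, j < k → k < i → Ext (F j) (F k))
    (hidx : ∀ j < i, ∀ x, ((F j).nm x).idx ≤ j) (hbase : ∀ j < i, Ext B (F j)) :
    ∃ Q, OK i (fun j _ => F j) B Q := by
  classical
  by_cases hi : ∃ j, j < i
  · obtain ⟨j₀, hj₀⟩ := hi
    let F' : Set.Iio i → Stage (Nm I) := fun j => F j.1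
    have hg : ∀ j, Good (F' j).T := fun j => hgood j.1 j.2
    have he : ∀ j k : Set.Iio i, j ≤ k → Ext (F' j) (F' k) := by
      intro j k h
      rcases h.eq_or_lt with h | h
      · subst h; exact Ext.refl _
      · exact hext j.1 k.1 h k.2
    have : Nonempty (Set.Iio i) := ⟨⟨j₀, hj₀⟩⟩
    have : Countable (Set.Iio i) := hcount.to_subtype
    let Y := mkSys F' hg he
    obtain ⟨N, instN, η, hN, hη, hηc, hdet⟩ := limit (fun j => (F' j).T) Y
    obtain ⟨M, instM, ε, hM, hε, hcompl⟩ := step N hN
    obtain ⟨c, hc, -⟩ := hM.code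
    let f : ∀ j : Set.Iio i, (F' j).T → M := fun j a => ε (η j a)
    have hf : ∀ j, Nice (f j) := fun j => (hη j).comp hε
    have hfc : ∀ (j k : Set.Iio i) (h : j ≤ k) (a : (F' j).T), f k (Y.e h a) = f j a := by
      intro j k h a
      change ε (η k (Y.e h a)) = ε (η j a)
      rw [hηc]
    have hfn : ∀ (j k : Set.Iio i) (a : (F' j).T) (b : (F' k).T), f j a = f k b ↔
        (F' j).nm a = (F' k).nm b := by
      have aux : ∀ (j k : Set.Iio i) (a : (F' j).T) (b : (F' k).T), j ≤ k → (f j a = f k b ↔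
        (F' j).nm a = (F' k).nm b) := by
        intro j k a b h
        rw [← hfc j k h a, (hf k).inj.eq_iff, ← (F' k).inj.eq_iff, mkSys_nm F' hg he h a]
      intro j k a b
      rcases le_total j k with h | h
      · exact aux j k a b h
      · rw [eq_comm, aux k j b a h, eq_comm]
    let ν : M → Nm I := fun m =>
      if h : ∃ j : Set.Iio i, ∃ a : (F' j).T, f j a = m then
        (F' h.choose).nm h.choose_spec.choose
      else ⟨i, c m⟩
    have hν : ∀ (j : Set.Iio i) (a : (F' j).T), ν (f j a) = (F' j).nm a := by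
      intro j a
      have h : ∃ j' : Set.Iio i, ∃ a' : (F' j').T, f j' a' = f j a := ⟨j, a, rfl⟩
      simp only [ν, dif_pos h]
      exact (hfn _ _ _ _).1 h.choose_spec.choose_spec
    have hν' : ∀ m : M, (¬ ∃ j : Set.Iio i, ∃ a : (F' j).T, f j a = m) → ν m = ⟨i, c m⟩ :=
      fun m hm => dif_neg hm
    have hidx' : ∀ (j : Set.Iio i) (a : (F' j).T), ((F' j).nm a).idx < i := fun j a =>
      (hidx j.1 j.2 a).trans_lt j.2
    have hνinj : Function.Injective ν := by
      intro m m' h
      by_cases hm : ∃ j : Set.Iio i, ∃ a : (F' j).T, f j a = m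
      · by_cases hm' : ∃ j : Set.Iio i, ∃ a : (F' j).T, f j a = m'
        · obtain ⟨j, a, rfl⟩ := hm
          obtain ⟨k, b, rfl⟩ := hm'
          rw [hν, hν] at h
          exact (hfn _ _ _ _).2 h
        · obtain ⟨j, a, rfl⟩ := hm
          rw [hν, hν' m' hm'] at h
          have := hidx' j a
          rw [h] at this
          exact absurd this (lt_irrefl _)
      · by_cases hm' : ∃ j : Set.Iio i, ∃ a : (F' j).T, f j a = m'
        · obtain ⟨j, a, rfl⟩ := hm'
          rw [hν, hν' m hm] at h
          have := hidx' j a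
          rw [← h] at this
          exact absurd this (lt_irrefl _)
        · rw [hν' m hm, hν' m' hm'] at h
          exact hc (by simpa using h)
    let Q : Stage (Nm I) := ⟨M, instM, ν, hνinj⟩
    refine ⟨Q, ?_, hM, ?_, ?_, ?_, ?_⟩
    · intro m
      by_cases hm : ∃ j : Set.Iio i, ∃ a : (F' j).T, f j a = m
      · obtain ⟨j, a, rfl⟩ := hm
        change (ν (f j a)).idx ≤ i
        rw [hν]
        exact (hidx' j a).le
      · change (ν m).idx ≤ i
        rw [hν' m hm]
    · obtain ⟨β, hβ, hβ'⟩ := hbase j₀ hj₀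
      refine ⟨fun x => f ⟨j₀, hj₀⟩ (β x), hβ.comp (hf ⟨j₀, hj₀⟩), fun x => ?_⟩
      change ν (f ⟨j₀, hj₀⟩ (β x)) = _
      rw [hν]
      exact hβ' x
    · intro j hj
      exact ⟨f ⟨j, hj⟩, hf ⟨j, hj⟩, hν ⟨j, hj⟩⟩
    · intro j hj b
      obtain ⟨b', hb'⟩ := hcompl (η ⟨j, hj⟩ b)
      exact ⟨f ⟨j, hj⟩ b, b', hν ⟨j, hj⟩ b, hb'⟩
    · intro _ T hT s hs
      have hT' : ∀ t ∈ T, ∃ t' : N, ε t' = t := by
        intro t ht
        obtain ⟨j, hj, a, ha⟩ := hT t ht
        refine ⟨η ⟨j, hj⟩ a, hνinj ?_⟩
        exact (hν ⟨j, hj⟩ a).trans ha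
      have hTeq : T = ε '' (ε ⁻¹' T) := by
        ext t
        constructor
        · intro ht
          obtain ⟨t', rfl⟩ := hT' t ht
          exact ⟨t', ht, rfl⟩
        · rintro ⟨t', ht', rfl⟩
          exact ht'
      have hsup : sSup T = ε (sSup (ε ⁻¹' T)) := by
        rw [hε.map_sSup, ← hTeq]
      rw [hsup] at hs ⊢
      rw [← hε.up_le]
      apply hdet
      intro j a hja
      rw [hε.up_le]
      apply hs (ε (η j a)) ⟨j.1, j.2, a, (hν j a).symm⟩
      exact hε.mono hja
  · refine ⟨B, hB', hB, Ext.refl B, fun j hj => absurd ⟨j, hj⟩ hi,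
      fun j hj => absurd ⟨j, hj⟩ hi, fun h => absurd h hi⟩

variable [WellFoundedLT I]

open Classical in
/-- the transfinite recursion -/
noncomputable def st (B : Stage (Nm I)) : I → Stage (Nm I) :=
  (wellFounded_lt (α := I)).fix (fun i prev => if h : ∃ Q, OK i prev B Q then h.choose else B)

open Classical in
theorem st_eq (B : Stage (Nm I)) (i : I) :
    st B i = if h : ∃ Q, OK i (fun j _ => st B j) B Q then h.choose else B :=
  (wellFounded_lt (α := I)).fix_eq _ i

theorem st_OK (B : Stage (Nm I)) (hB : Good B.T) (hB' : ∀ (x : B.T) (i : I), (B.nm x).idx ≤ i)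
    (hcount : ∀ i : I, (Set.Iio i).Countable) (i : I) :
    OK i (fun j _ => st B j) B (st B i) := by
  classical
  induction i using (wellFounded_lt (α := I)).induction with
  | _ i ih =>
    have h : ∃ Q, OK i (fun j _ => st B j) B Q := by
      apply exists_next i (st B) B (hcount i) hB (fun x => hB' x i)
      · exact fun j hj => (ih j hj).good
      · exact fun j k hjk hk => (ih k hk).ext j hjk
      · exact fun j hj => (ih j hj).idx
      · exact fun j hj => (ih j hj).base
    have heq : st B i = h.choose := by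
      rw [st_eq B i]
      exact dif_pos h
    rw [heq]
    exact h.choose_spec


end

end Pool.Agent.H6.Hunt
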