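import Mathlib.Order.CompleteLattice.Basic
import Mathlib.Order.Filter.Ultrafilter.Basic
import Mathlib.Order.GaloisConnection.Basic
import Mathlib.Data.Set.Countable
import Mathlib.Tactic

/-!
# Good lattices and nice embeddings

Basic definitions for a construction of a complete uniquely complemented lattice
which is not distributive.
-/

set_option autoImplicit false

namespace Pool.Agent.H6.Hunt

open Filter

section Codes

variable {M : Type}

/-- Bitwise convergence (with respect to a code `c`) of a family along an ultrafilter. -/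
def CC (c : M → ℕ → Bool) {X : Type} (U : Ultrafilter X) (z : X → M) (w : M) : Prop :=
  ∀ k, ∀ᶠ x in (U : Filter X), c (z x) k = c w k

/-- Lattice polynomials in bitwise convergent families. -/
inductive Pc [Lattice M] (c : M → ℕ → Bool) {X : Type} (U : Ultrafilter X) :
    (X → M) → M → Prop
  | leaf {z : X → M} {w : M} : CC c U z w → Pc c U z w
  | sup {q r : X → M} {a b : M} : Pc c U q a → Pc c U r b →
      Pc c U (fun x => q x ⊔ r x) (a ⊔ b)
  | inf {q r : X → M} {a b : M} : Pc c U q a → Pc c U r b →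
      Pc c U (fun x => q x ⊓ r x) (a ⊓ b)

/-- The closedness property of a code. -/
def TT [Lattice M] (c : M → ℕ → Bool) : Prop :=
  ∀ (X : Type) (U : Ultrafilter X) (q b : X → M) (a w : M), Pc c U q a → CC c U b w →
    (∀ᶠ x in (U : Filter X), q x ≤ b x) → a ≤ w

/-- `a` is below the lower limit of the family `q`. -/
def LL [CompleteLattice M] (c : M → ℕ → Bool) {X : Type} (U : Ultrafilter X)
    (q : X → M) (a : M) : Prop :=
  a ≤ sSup {m | ∃ r : X → M, Pc c U r m ∧ ∀ᶠ x in (U : Filter X), r x ≤ q x}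

/-- Upper continuity. -/
def UC (M : Type) [CompleteLattice M] : Prop :=
  ∀ (a : M) (D : Set M), D.Nonempty → DirectedOn (· ≤ ·) D →
    a ⊓ sSup D ≤ ⨆ d ∈ D, a ⊓ d

/-- Good lattices. -/
structure Good (M : Type) [CompleteLattice M] : Prop where
  uc : UC M
  au : ∀ a b b' : M, IsCompl a b → IsCompl a b' → b = b'
  code : ∃ c : M → ℕ → Bool, Function.Injective c ∧ TT c

theorem CC.const (c : M → ℕ → Bool) {X : Type} (U : Ultrafilter X) (w : M) :
    CC c U (fun _ => w) w := fun _ => Eventually.of_forall fun _ => rfl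

theorem CC.congr {c : M → ℕ → Bool} {X : Type} {U : Ultrafilter X} {z z' : X → M} {w : M}
    (h : CC c U z w) (h' : ∀ᶠ x in (U : Filter X), z' x = z x) : CC c U z' w := by
  intro k
  filter_upwards [h k, h'] with x h1 h2
  rw [h2, h1]

theorem CC.unique {c : M → ℕ → Bool} (hc : Function.Injective c) {X : Type} {U : Ultrafilter X}
    {z : X → M} {w w' : M} (h : CC c U z w) (h' : CC c U z w') : w = w' := by
  apply hc
  funext k
  obtain ⟨x, h1, h2⟩ := ((h k).and (h' k)).exists
  rw [← h1, h2]

theorem UC.two [CompleteLattice M] (h : UC M) (D E : Set M) (hD : D.Nonempty)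
    (hD' : DirectedOn (· ≤ ·) D) (hE : E.Nonempty) (hE' : DirectedOn (· ≤ ·) E) (w : M)
    (hw : ∀ d ∈ D, ∀ e ∈ E, d ⊓ e ≤ w) : sSup D ⊓ sSup E ≤ w := by
  refine (h (sSup D) E hE hE').trans (iSup₂_le fun e he => ?_)
  rw [inf_comm]
  refine (h e D hD hD').trans (iSup₂_le fun d hd => ?_)
  rw [inf_comm]
  exact hw d hd e he

section LLlemmas

variable [CompleteLattice M] {c : M → ℕ → Bool} {X : Type} {U : Ultrafilter X}

/-- the set whose supremum is the lower limit -/
def RR (c : M → ℕ → Bool) (U : Ultrafilter X) (q : X → M) : Set M :=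
  {m | ∃ r : X → M, Pc c U r m ∧ ∀ᶠ x in (U : Filter X), r x ≤ q x}

theorem RR.sup {q : X → M} {m m' : M} (h : m ∈ RR c U q) (h' : m' ∈ RR c U q) :
    m ⊔ m' ∈ RR c U q := by
  obtain ⟨r, hr, hr'⟩ := h
  obtain ⟨s, hs, hs'⟩ := h'
  refine ⟨_, Pc.sup hr hs, ?_⟩
  filter_upwards [hr', hs'] with x h1 h2 using sup_le h1 h2

theorem RR.bot (q : X → M) : ⊥ ∈ RR c U q :=
  ⟨fun _ => ⊥, Pc.leaf (CC.const c U ⊥), Eventually.of_forall fun _ => bot_le⟩

theorem RR.directed (q : X → M) : DirectedOn (· ≤ ·) (RR c U q) := fun m hm m' hm' =>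
  ⟨m ⊔ m', RR.sup hm hm', le_sup_left, le_sup_right⟩

theorem LL.of_Pc {q : X → M} {a : M} (h : Pc c U q a) : LL c U q a :=
  le_sSup ⟨q, h, Eventually.of_forall fun _ => le_rfl⟩

theorem LL.of_CC {q : X → M} {a : M} (h : CC c U q a) : LL c U q a :=
  LL.of_Pc (Pc.leaf h)

theorem LL.mono {q r : X → M} {a b : M} (h : LL c U q a) (hab : b ≤ a)
    (hqr : ∀ᶠ x in (U : Filter X), q x ≤ r x) : LL c U r b := by
  refine hab.trans (h.trans (sSup_le_sSup ?_))
  rintro m ⟨s, hs, hs'⟩
  refine ⟨s, hs, ?_⟩
  filter_upwards [hs', hqr] with x h1 h2 using h1.trans h2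

theorem LL.sSup {q : X → M} {D : Set M} (h : ∀ d ∈ D, LL c U q d) : LL c U q (sSup D) :=
  sSup_le h

theorem LL.bot (q : X → M) : LL c U q ⊥ := bot_le

theorem LL.sup {q r : X → M} {a b : M} (h : LL c U q a) (h' : LL c U r b) :
    LL c U (fun x => q x ⊔ r x) (a ⊔ b) := by
  refine sup_le ?_ ?_
  · exact h.mono le_rfl (Eventually.of_forall fun _ => le_sup_left)
  · exact h'.mono le_rfl (Eventually.of_forall fun _ => le_sup_right)

theorem LL.inf (uc : UC M) {q r : X → M} {a b : M} (h : LL c U q a) (h' : LL c U r b) :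
    LL c U (fun x => q x ⊓ r x) (a ⊓ b) := by
  refine (inf_le_inf h h').trans ?_
  refine uc.two (RR c U q) (RR c U r) ⟨_, RR.bot q⟩ (RR.directed q) ⟨_, RR.bot r⟩
    (RR.directed r) _ ?_
  rintro m ⟨s, hs, hs'⟩ m' ⟨s', ht, ht'⟩
  refine le_sSup ⟨_, Pc.inf hs ht, ?_⟩
  filter_upwards [hs', ht'] with x h1 h2 using inf_le_inf h1 h2

theorem LL.le (htt : TT c) {q b : X → M} {a w : M} (h : LL c U q a) (hb : CC c U b w)
    (hqb : ∀ᶠ x in (U : Filter X), q x ≤ b x) : a ≤ w := by
  refine h.trans (sSup_le ?_)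
  rintro m ⟨r, hr, hr'⟩
  refine htt X U r b m w hr hb ?_
  filter_upwards [hr', hqb] with x h1 h2 using h1.trans h2

theorem LL.le_const (htt : TT c) {q : X → M} {a w : M} (h : LL c U q a)
    (hqb : ∀ᶠ x in (U : Filter X), q x ≤ w) : a ≤ w :=
  h.le htt (CC.const c U w) hqb

end LLlemmas

/-- Every supremum is attained by a countable subset. -/
theorem Good.countable_sup [CompleteLattice M] (hM : Good M) (D : Set M) :
    ∃ D₀ ⊆ D, D₀.Countable ∧ sSup D₀ = sSup D := by
  obtain ⟨c, -, htt⟩ := hM.code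
  classical
  -- for each finite bit list choose an element of `D` whose code extends it
  let P : List Bool → M → Prop := fun w d => d ∈ D ∧ (List.range w.length).map (c d) = w
  let D₀ : Set M := {d | ∃ w, ∃ h : ∃ d, P w d, d = h.choose}
  refine ⟨D₀, ?_, ?_, ?_⟩
  · rintro d ⟨w, h, rfl⟩
    exact h.choose_spec.1
  · have : D₀ ⊆ Set.range (fun w : List Bool => if h : ∃ d, P w d then h.choose else ⊥) := by
      rintro d ⟨w, h, rfl⟩
      exact ⟨w, by simp only [dif_pos h]⟩
    exact (Set.countable_range _).mono this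
  · apply le_antisymm
    · apply sSup_le_sSup
      rintro d ⟨w, h, rfl⟩
      exact h.choose_spec.1
    · apply sSup_le
      intro d hd
      have hw : ∀ k : ℕ, ∃ d', P ((List.range k).map (c d)) d' := fun k =>
        ⟨d, hd, by simp⟩
      let z : ℕ → M := fun k => (hw k).choose
      have hz : ∀ k, P ((List.range k).map (c d)) (z k) := fun k => (hw k).choose_spec
      have hz' : ∀ k, z k ∈ D₀ := fun k => ⟨_, hw k, rfl⟩
      have hcc : CC c (hyperfilter ℕ) z d := by
        intro k
        apply Nat.hyperfilter_le_atTop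
        filter_upwards [eventually_gt_atTop k] with n hn
        have h2 := (hz n).2
        simp only [List.length_map, List.length_range] at h2
        have h3 := List.map_inj_left.1 h2
        exact h3 k (List.mem_range.2 hn)
      exact (LL.of_CC hcc).le_const htt (Eventually.of_forall fun k => le_sSup (hz' k))

end Codes

section Nice

variable {M N P : Type} [CompleteLattice M] [CompleteLattice N] [CompleteLattice P]

/-- greatest element of `M` whose image is below `t` -/
def lo (e : M → N) (t : N) : M := sSup {a | e a ≤ t}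

/-- least element of `M` whose image is above `t` -/
def up (e : M → N) (t : N) : M := sInf {a | t ≤ e a}

/-- Nice embeddings. -/
structure Nice (e : M → N) : Prop where
  inj : Function.Injective e
  map_sSup : ∀ S : Set M, e (sSup S) = sSup (e '' S)
  map_sInf : ∀ S : Set M, e (sInf S) = sInf (e '' S)
  F : ∀ t s : N, lo e t ≠ ⊥ → lo e s ≠ ⊥ → up e (t ⊓ s) = up e t ⊓ up e s

namespace Nice

variable {e : M → N} (h : Nice e)

include h

theorem map_bot : e ⊥ = ⊥ := by
  have := h.map_sSup ∅
  simpa using this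

theorem map_top : e ⊤ = ⊤ := by
  have := h.map_sInf ∅
  simpa using this

theorem map_sup (a b : M) : e (a ⊔ b) = e a ⊔ e b := by
  have := h.map_sSup {a, b}
  simpa [Set.image_pair, sSup_pair] using this

theorem map_inf (a b : M) : e (a ⊓ b) = e a ⊓ e b := by
  have := h.map_sInf {a, b}
  simpa [Set.image_pair, sInf_pair] using this

theorem le_iff {a b : M} : e a ≤ e b ↔ a ≤ b := by
  constructor
  · intro hab
    rw [← sup_eq_right]
    apply h.inj
    rw [h.map_sup, sup_eq_right.2 hab]
  · intro hab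
    rw [← sup_eq_right] at hab ⊢
    rw [← h.map_sup, hab]

theorem mono : Monotone e := fun _ _ hab => h.le_iff.2 hab

theorem lo_le (t : N) : e (lo e t) ≤ t := by
  rw [lo, h.map_sSup]
  apply sSup_le
  rintro _ ⟨a, ha, rfl⟩
  exact ha

theorem le_lo {a : M} {t : N} : a ≤ lo e t ↔ e a ≤ t := by
  constructor
  · intro ha
    exact (h.mono ha).trans (h.lo_le t)
  · intro ha
    exact le_sSup ha

theorem le_up (t : N) : t ≤ e (up e t) := by
  rw [up, h.map_sInf]
  apply le_sInf
  rintro _ ⟨a, ha, rfl⟩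
  exact ha

theorem up_le {a : M} {t : N} : up e t ≤ a ↔ t ≤ e a := by
  constructor
  · intro ha
    exact (h.le_up t).trans (h.mono ha)
  · intro ha
    exact sInf_le ha

theorem lo_mono : Monotone (lo e) := fun s t hst =>
  h.le_lo.2 ((h.lo_le s).trans hst)

theorem up_mono : Monotone (up e) := fun _ _ hst =>
  h.up_le.2 (hst.trans (h.le_up _))

theorem lo_map (a : M) : lo e (e a) = a :=
  le_antisymm (h.le_iff.1 (h.lo_le _)) (h.le_lo.2 le_rfl)

theorem up_map (a : M) : up e (e a) = a :=
  le_antisymm (h.up_le.2 le_rfl) (h.le_iff.1 (h.le_up _))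

theorem lo_le_up (t : N) : lo e t ≤ up e t :=
  h.le_iff.1 ((h.lo_le t).trans (h.le_up t))

theorem up_sSup (S : Set N) : up e (sSup S) = sSup (up e '' S) := by
  apply le_antisymm
  · rw [h.up_le]
    apply sSup_le
    intro s hs
    exact (h.le_up s).trans (h.mono (le_sSup ⟨s, hs, rfl⟩))
  · apply sSup_le
    rintro _ ⟨s, hs, rfl⟩
    exact h.up_mono (le_sSup hs)

theorem up_sup (s t : N) : up e (s ⊔ t) = up e s ⊔ up e t := by
  have := h.up_sSup {s, t}
  simpa [Set.image_pair, sSup_pair] using this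

theorem lo_inf (s t : N) : lo e (s ⊓ t) = lo e s ⊓ lo e t := by
  apply le_antisymm
  · exact le_inf (h.lo_mono inf_le_left) (h.lo_mono inf_le_right)
  · rw [h.le_lo, h.map_inf]
    exact inf_le_inf (h.lo_le s) (h.lo_le t)

theorem up_bot : up e ⊥ = ⊥ := by
  have := h.up_map ⊥
  rwa [h.map_bot] at this

theorem up_top : up e ⊤ = ⊤ := by
  have := h.up_map ⊤
  rwa [h.map_top] at this

theorem lo_bot : lo e ⊥ = ⊥ := by
  have := h.lo_map ⊥
  rwa [h.map_bot] at this

theorem isCompl {a b : M} (hab : IsCompl a b) : IsCompl (e a) (e b) := by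
  rw [isCompl_iff, disjoint_iff, codisjoint_iff] at hab ⊢
  rw [← h.map_inf, ← h.map_sup, hab.1, hab.2, h.map_bot, h.map_top]
  exact ⟨rfl, rfl⟩

end Nice

theorem up_comp {e : M → N} {f : N → P} (hf : Nice f) (t : P) :
    up (f ∘ e) t = up e (up f t) := by
  unfold up
  congr 1
  ext a
  simp only [Function.comp, Set.mem_ofPred_eq]
  exact hf.up_le.symm

theorem lo_comp {e : M → N} {f : N → P} (hf : Nice f) (t : P) :
    lo (f ∘ e) t = lo e (lo f t) := by
  unfold lo
  congr 1
  ext a
  simp only [Function.comp, Set.mem_ofPred_eq]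
  exact hf.le_lo.symm

theorem Nice.comp {e : M → N} {f : N → P} (he : Nice e) (hf : Nice f) : Nice (f ∘ e) where
  inj := hf.inj.comp he.inj
  map_sSup S := by
    simp only [Function.comp]
    rw [he.map_sSup, hf.map_sSup, Set.image_image]
  map_sInf S := by
    simp only [Function.comp]
    rw [he.map_sInf, hf.map_sInf, Set.image_image]
  F t s ht hs := by
    rw [lo_comp hf] at ht hs
    rw [up_comp hf, up_comp hf, up_comp hf]
    have ht' : lo f t ≠ ⊥ := fun h => ht (by rw [h, he.lo_bot])
    have hs' : lo f s ≠ ⊥ := fun h => hs (by rw [h, he.lo_bot])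
    rw [hf.F t s ht' hs']
    apply he.F
    · exact fun h => ht (le_bot_iff.1 ((he.lo_mono (hf.lo_le_up t)).trans h.le))
    · exact fun h => hs (le_bot_iff.1 ((he.lo_mono (hf.lo_le_up s)).trans h.le))

theorem Nice.id : Nice (id : M → M) where
  inj := Function.injective_id
  map_sSup S := by simp
  map_sInf S := by simp
  F t s _ _ := by
    have key : ∀ r : M, up (_root_.id : M → M) r = r := fun r =>
      le_antisymm (sInf_le le_rfl) (le_sInf fun _ h => h)
    rw [key, key, key]

end Nice

end Pool.Agent.H6.Hunt
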