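import Pool.Agent.H6.HStep

/-!
# The code of the lattice of closed ideals, and the step theorem
-/

set_option autoImplicit false

namespace Pool.Agent.H6.Hunt

open Filter

section

variable {M : Type} [CompleteLattice M] (c : M → ℕ → Bool)

/-- the first `k` bits of the code -/
def bits (k : ℕ) (z : M) : List Bool := (List.range k).map (c z)

/-- truncation of a term -/
def tr (k : ℕ) : Tm M (NC M) → Tm (List Bool) (List Bool)
  | .c z => .c (bits c k z)
  | .g b => .g (bits c k b.1)
  | .s t t' => .s (tr k t) (tr k t')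
  | .i t t' => .i (tr k t) (tr k t')

/-- encoding of truncated terms by numbers -/
def enc : Tm (List Bool) (List Bool) → ℕ
  | .c a => Nat.pair 0 (Encodable.encode a)
  | .g a => Nat.pair 1 (Encodable.encode a)
  | .s t t' => Nat.pair 2 (Nat.pair (enc t) (enc t'))
  | .i t t' => Nat.pair 3 (Nat.pair (enc t) (enc t'))

theorem enc_inj : Function.Injective enc := by
  intro t
  induction t with
  | c a =>
    intro t' h
    cases t' with
    | c a' =>
      simp only [enc, Nat.pair_eq_pair] at h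
      rw [Encodable.encode_injective h.2]
    | g a' => simp [enc, Nat.pair_eq_pair] at h
    | s a' b' => simp [enc, Nat.pair_eq_pair] at h
    | i a' b' => simp [enc, Nat.pair_eq_pair] at h
  | g a =>
    intro t' h
    cases t' with
    | c a' => simp [enc, Nat.pair_eq_pair] at h
    | g a' =>
      simp only [enc, Nat.pair_eq_pair] at h
      rw [Encodable.encode_injective h.2]
    | s a' b' => simp [enc, Nat.pair_eq_pair] at h
    | i a' b' => simp [enc, Nat.pair_eq_pair] at h
  | s a b iha ihb =>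
    intro t' h
    cases t' with
    | c a' => simp [enc, Nat.pair_eq_pair] at h
    | g a' => simp [enc, Nat.pair_eq_pair] at h
    | s a' b' =>
      simp only [enc, Nat.pair_eq_pair] at h
      rw [iha h.2.1, ihb h.2.2]
    | i a' b' => simp [enc, Nat.pair_eq_pair] at h
  | i a b iha ihb =>
    intro t' h
    cases t' with
    | c a' => simp [enc, Nat.pair_eq_pair] at h
    | g a' => simp [enc, Nat.pair_eq_pair] at h
    | s a' b' => simp [enc, Nat.pair_eq_pair] at h
    | i a' b' =>
      simp only [enc, Nat.pair_eq_pair] at h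
      rw [iha h.2.1, ihb h.2.2]

theorem bits_mono {z w : M} {k k' : ℕ} (hk : k' ≤ k) (h : bits c k z = bits c k w) :
    bits c k' z = bits c k' w := by
  unfold bits at *
  rw [List.map_inj_left] at h ⊢
  intro a ha
  exact h a (List.mem_range.2 ((List.mem_range.1 ha).trans_le hk))

theorem tr_mono {t r : Tm M (NC M)} {k k' : ℕ} (hk : k' ≤ k) (h : tr c k t = tr c k r) :
    tr c k' t = tr c k' r := by
  induction t generalizing r with
  | c z =>
    cases r <;> simp only [tr, Tm.c.injEq, reduceCtorEq] at h ⊢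
    exact bits_mono c hk h
  | g b =>
    cases r <;> simp only [tr, Tm.g.injEq, reduceCtorEq] at h ⊢
    exact bits_mono c hk h
  | s t t' ih ih' =>
    cases r <;> simp only [tr, Tm.s.injEq, reduceCtorEq] at h ⊢
    exact ⟨ih h.1, ih' h.2⟩
  | i t t' ih ih' =>
    cases r <;> simp only [tr, Tm.i.injEq, reduceCtorEq] at h ⊢
    exact ⟨ih h.1, ih' h.2⟩

/-- bitwise convergence of terms -/
def BC {X : Type} (U : Ultrafilter X) (t : X → Tm M (NC M)) (p : Tm M (NC M)) : Prop :=
  ∀ k, ∀ᶠ x in (U : Filter X), tr c k (t x) = tr c k p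

variable {c} {X : Type} {U : Ultrafilter X}

theorem CC_of_bits {z : X → M} {w : M}
    (h : ∀ k, ∀ᶠ x in (U : Filter X), bits c k (z x) = bits c k w) : CC c U z w := by
  intro k
  filter_upwards [h (k + 1)] with x hx
  unfold bits at hx
  rw [List.map_inj_left] at hx
  exact hx k (by simp)

/-- left component -/
def Tm.left : Tm M (NC M) → Tm M (NC M)
  | .s a _ => a
  | .i a _ => a
  | t => t

/-- right component -/
def Tm.right : Tm M (NC M) → Tm M (NC M)
  | .s _ a => a
  | .i _ a => a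
  | t => t

theorem BC.exists_TC {p : Tm M (NC M)} : ∀ {t : X → Tm M (NC M)}, BC c U t p →
    ∃ t' : X → Tm M (NC M), TC c U t' p ∧ ∀ᶠ x in (U : Filter X), t x = t' x := by
  classical
  induction p with
  | c w =>
    intro t h
    let z : X → M := fun x => match t x with
      | .c a => a
      | _ => w
    have hz : ∀ᶠ x in (U : Filter X), t x = .c (z x) := by
      filter_upwards [h 0] with x hx
      simp only [z]
      cases hh : t x <;> rw [hh] at hx <;> simp [tr] at hx ⊢
    refine ⟨fun x => .c (z x), TC.c (LL.of_CC (CC_of_bits fun k => ?_)), hz⟩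
    filter_upwards [h k, hz] with x hx hx'
    rw [hx'] at hx
    simpa [tr] using hx
  | g w =>
    intro t h
    let z : X → NC M := fun x => match t x with
      | .g a => a
      | _ => w
    have hz : ∀ᶠ x in (U : Filter X), t x = .g (z x) := by
      filter_upwards [h 0] with x hx
      simp only [z]
      cases hh : t x <;> rw [hh] at hx <;> simp [tr] at hx ⊢
    refine ⟨fun x => .g (z x), TC.g (CC_of_bits fun k => ?_), hz⟩
    filter_upwards [h k, hz] with x hx hx'
    rw [hx'] at hx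
    simpa [tr] using hx
  | s p p' ih ih' =>
    intro t h
    have hz : ∀ᶠ x in (U : Filter X), t x = .s (t x).left (t x).right := by
      filter_upwards [h 0] with x hx
      cases hh : t x <;> rw [hh] at hx <;> simp [tr, Tm.left, Tm.right] at hx ⊢
    obtain ⟨t₁, h₁, h₁'⟩ := ih (t := fun x => (t x).left) (by
      intro k
      filter_upwards [h k, hz] with x hx hx'
      rw [hx'] at hx
      simp only [tr, Tm.s.injEq] at hx
      exact hx.1)
    obtain ⟨t₂, h₂, h₂'⟩ := ih' (t := fun x => (t x).right) (by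
      intro k
      filter_upwards [h k, hz] with x hx hx'
      rw [hx'] at hx
      simp only [tr, Tm.s.injEq] at hx
      exact hx.2)
    refine ⟨_, TC.s h₁ h₂, ?_⟩
    filter_upwards [hz, h₁', h₂'] with x h3 h4 h5
    rw [← h4, ← h5]
    exact h3
  | i p p' ih ih' =>
    intro t h
    have hz : ∀ᶠ x in (U : Filter X), t x = .i (t x).left (t x).right := by
      filter_upwards [h 0] with x hx
      cases hh : t x <;> rw [hh] at hx <;> simp [tr, Tm.left, Tm.right] at hx ⊢
    obtain ⟨t₁, h₁, h₁'⟩ := ih (t := fun x => (t x).left) (by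
      intro k
      filter_upwards [h k, hz] with x hx hx'
      rw [hx'] at hx
      simp only [tr, Tm.i.injEq] at hx
      exact hx.1)
    obtain ⟨t₂, h₂, h₂'⟩ := ih' (t := fun x => (t x).right) (by
      intro k
      filter_upwards [h k, hz] with x hx hx'
      rw [hx'] at hx
      simp only [tr, Tm.i.injEq] at hx
      exact hx.2)
    refine ⟨_, TC.i h₁ h₂, ?_⟩
    filter_upwards [hz, h₁', h₂'] with x h3 h4 h5
    rw [← h4, ← h5]
    exact h3

theorem CI.mem_of_BC (I : CI c) {t : X → Tm M (NC M)} {p : Tm M (NC M)} (h : BC c U t p)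
    (ht : ∀ᶠ x in (U : Filter X), t x ∈ I.S) : p ∈ I.S := by
  obtain ⟨t', h1, h2⟩ := h.exists_TC
  refine I.dl.lim X U t' p h1 ?_
  filter_upwards [ht, h2] with x h3 h4
  rw [← h4]; exact h3

/-- agreement on all levels implies membership -/
theorem CI.mem_of_forall (I : CI c) {p : Tm M (NC M)}
    (h : ∀ k, ∃ t ∈ I.S, tr c k t = tr c k p) : p ∈ I.S := by
  choose t ht ht' using h
  refine I.mem_of_BC (X := ℕ) (U := hyperfilter ℕ) (t := t) ?_ (Eventually.of_forall ht)
  intro k
  apply Nat.hyperfilter_le_atTop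
  filter_upwards [eventually_ge_atTop k] with n hn
  exact tr_mono c hn (ht' n)

open Classical in
/-- the code of a closed ideal -/
noncomputable def cd (I : CI c) (n : ℕ) : Bool :=
  decide (∃ t ∈ I.S, enc (tr c n.unpair.1 t) = n.unpair.2)

theorem cd_eq_true_iff (I : CI c) (k : ℕ) (p : Tm M (NC M)) :
    cd I (Nat.pair k (enc (tr c k p))) = true ↔ ∃ t ∈ I.S, tr c k t = tr c k p := by
  classical
  unfold cd
  rw [decide_eq_true_iff]
  simp only [Nat.unpair_pair]
  constructor
  · rintro ⟨t, ht, h⟩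
    exact ⟨t, ht, enc_inj h⟩
  · rintro ⟨t, ht, h⟩
    exact ⟨t, ht, by rw [h]⟩

theorem cd_inj : Function.Injective (cd : CI c → ℕ → Bool) := by
  have key : ∀ I J : CI c, cd I = cd J → I ≤ J := by
    intro I J h t ht
    apply J.mem_of_forall
    intro k
    rw [← cd_eq_true_iff, ← h, cd_eq_true_iff]
    exact ⟨t, ht, rfl⟩
  intro I J h
  exact le_antisymm (key I J h) (key J I h.symm)

theorem lowerK {Q : X → CI c} {Q' : CI c} (h : CC cd U Q Q') {t : Tm M (NC M)}
    (ht : t ∈ Q'.S) : ∃ p : X → Tm M (NC M), (∀ x, p x ∈ (Q x).S) ∧ BC c U p t := by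
  classical
  have hex : ∀ x, ∃ p ∈ (Q x).S, ∀ k, (∃ r ∈ (Q x).S, tr c k r = tr c k t) →
      tr c k p = tr c k t := by
    intro x
    by_cases hall : ∀ k, ∃ r ∈ (Q x).S, tr c k r = tr c k t
    · exact ⟨t, (Q x).mem_of_forall hall, fun _ _ => rfl⟩
    · push Not at hall
      obtain ⟨n, hn, hmin⟩ : ∃ n, (∀ r ∈ (Q x).S, tr c n r ≠ tr c n t) ∧
          ∀ m < n, ¬ ∀ r ∈ (Q x).S, tr c m r ≠ tr c m t :=
        ⟨Nat.find hall, Nat.find_spec hall, fun m hm => Nat.find_min hall hm⟩
      cases n with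
      | zero =>
        refine ⟨_, (Q x).bot, ?_⟩
        rintro k ⟨r, hr, hr'⟩
        exact absurd (tr_mono c (Nat.zero_le k) hr') (hn r hr)
      | succ n =>
        have := hmin n (Nat.lt_succ_self n)
        push Not at this
        obtain ⟨r, hr, hr'⟩ := this
        refine ⟨r, hr, ?_⟩
        rintro k ⟨r', hr1, hr2⟩
        have hk : k ≤ n := by
          by_contra hk
          exact hn r' hr1 (tr_mono c (by omega) hr2)
        exact tr_mono c hk hr'
  choose p hp hp' using hex
  refine ⟨p, hp, fun k => ?_⟩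
  filter_upwards [h (Nat.pair k (enc (tr c k t)))] with x hx
  apply hp'
  rw [← cd_eq_true_iff, hx, cd_eq_true_iff]
  exact ⟨t, ht, rfl⟩

theorem upperK {Q : X → CI c} {Q' : CI c} (h : CC cd U Q Q') {p : X → Tm M (NC M)}
    {t : Tm M (NC M)} (hp : ∀ᶠ x in (U : Filter X), p x ∈ (Q x).S) (hpt : BC c U p t) :
    t ∈ Q'.S := by
  apply Q'.mem_of_forall
  intro k
  obtain ⟨x, h1, h2, h3⟩ := (hp.and ((hpt k).and (h (Nat.pair k (enc (tr c k t)))))).exists
  rw [← cd_eq_true_iff, ← h3, cd_eq_true_iff]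
  exact ⟨_, h1, h2⟩

theorem BC.s {t t' : X → Tm M (NC M)} {p p' : Tm M (NC M)} (h : BC c U t p)
    (h' : BC c U t' p') : BC c U (fun x => .s (t x) (t' x)) (.s p p') := by
  intro k
  filter_upwards [h k, h' k] with x h1 h2
  simp only [tr, h1, h2]

theorem BC.i {t t' : X → Tm M (NC M)} {p p' : Tm M (NC M)} (h : BC c U t p)
    (h' : BC c U t' p') : BC c U (fun x => .i (t x) (t' x)) (.i p p') := by
  intro k
  filter_upwards [h k, h' k] with x h1 h2
  simp only [tr, h1, h2]

theorem lemW (H : Hyp c) {Q : X → CI c} {Q' : CI c} (h : Pc cd U Q Q') :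
    ∀ t ∈ Q'.S, ∃ (p : X → Tm M (NC M)) (t' : Tm M (NC M)), (∀ x, p x ∈ (Q x).S) ∧
      BC c U p t' ∧ Le t t' := by
  induction h with
  | leaf h =>
    intro t ht
    obtain ⟨p, h1, h2⟩ := lowerK h ht
    exact ⟨p, t, h1, h2, Le.refl t⟩
  | sup _ _ ih ih' =>
    intro t ht
    rw [CI.mem_sup H] at ht
    obtain ⟨i, hi, j, hj, hij⟩ := ht
    obtain ⟨p, i', h1, h2, h3⟩ := ih i hi
    obtain ⟨q, j', h1', h2', h3'⟩ := ih' j hj
    refine ⟨fun x => .s (p x) (q x), .s i' j', fun x => ?_, h2.s h2', hij.trans (Le.sMono h3 h3')⟩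
    rw [CI.mem_sup H]
    exact ⟨_, h1 x, _, h1' x, Le.refl _⟩
  | inf _ _ ih ih' =>
    intro t ht
    rw [CI.mem_inf] at ht
    obtain ⟨p, i', h1, h2, h3⟩ := ih t ht.1
    obtain ⟨q, j', h1', h2', h3'⟩ := ih' t ht.2
    refine ⟨fun x => .i (p x) (q x), .i i' j', fun x => ?_, h2.i h2', Le.iR h3 h3'⟩
    rw [CI.mem_inf]
    exact ⟨CI.dl _ |>.down _ _ (Le.iL1 (Le.refl _)) (h1 x),
      CI.dl _ |>.down _ _ (Le.iL2 (Le.refl _)) (h1' x)⟩

theorem cd_TT (H : Hyp c) : TT (cd : CI c → ℕ → Bool) := by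
  intro X U Q B Q' B' hQ hB hQB t ht
  obtain ⟨p, t', h1, h2, h3⟩ := lemW H hQ t ht
  refine B'.dl.down _ _ h3 (upperK hB (p := p) ?_ h2)
  filter_upwards [hQB] with x hx using hx (h1 x)

theorem CI.good (H : Hyp c) : Good (CI c) where
  uc := CI.uc
  au := CI.au H
  code := ⟨cd, cd_inj, cd_TT H⟩

end

/-- The step theorem. -/
theorem step (M : Type) [CompleteLattice M] (hM : Good M) :
    ∃ (N : Type) (_ : CompleteLattice N) (e : M → N), Good N ∧ Nice e ∧
      ∀ b : M, ∃ b' : N, IsCompl (e b) b' := by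
  obtain ⟨c, hc, htt⟩ := hM.code
  have H : Hyp c := ⟨hM.uc, hM.au, hc, htt⟩
  refine ⟨CI c, inferInstance, CI.emb H, CI.good H, CI.emb_nice H, ?_⟩
  intro b
  by_cases hb : ∀ b', ¬ IsCompl b b'
  · exact ⟨CI.gn H ⟨b, hb⟩, CI.isCompl_gn H ⟨b, hb⟩⟩
  · push Not at hb
    obtain ⟨b', hb'⟩ := hb
    exact ⟨CI.emb H b', (CI.emb_nice H).isCompl hb'⟩

end Pool.Agent.H6.Hunt
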