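import Pool.Agent.H6.HTerm

/-!
# Convergence of terms
-/

set_option autoImplicit false

namespace Pool.Agent.H6.Hunt

open Filter

section

variable {M : Type} [CompleteLattice M]

/-- Convergence of a family of terms to a term (of the same shape). -/
inductive TC (c : M → ℕ → Bool) {X : Type} (U : Ultrafilter X) :
    (X → Tm M (NC M)) → Tm M (NC M) → Prop
  | c {z : X → M} {w : M} : LL c U z w → TC c U (fun x => .c (z x)) (.c w)
  | g {b : X → NC M} {w : NC M} : CC c U (fun x => (b x).1) w.1 →
      TC c U (fun x => .g (b x)) (.g w)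
  | s {t t' : X → Tm M (NC M)} {p p' : Tm M (NC M)} : TC c U t p → TC c U t' p' →
      TC c U (fun x => .s (t x) (t' x)) (.s p p')
  | i {t t' : X → Tm M (NC M)} {p p' : Tm M (NC M)} : TC c U t p → TC c U t' p' →
      TC c U (fun x => .i (t x) (t' x)) (.i p p')

variable {c : M → ℕ → Bool} {X : Type} {U : Ultrafilter X}

theorem TC.const (p : Tm M (NC M)) : TC c U (fun _ => p) p := by
  induction p with
  | c z => exact TC.c (LL.of_CC (CC.const c U z))
  | g b => exact TC.g (CC.const c U b.1)
  | s t t' ih ih' => exact TC.s ih ih'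
  | i t t' ih ih' => exact TC.i ih ih'

/-- If generators are above the terms of a convergent family (nontrivially), then they converge. -/
theorem TC.occ {t : X → Tm M (NC M)} {p : Tm M (NC M)} (h : TC c U t p) {b : X → NC M}
    (hb : ∀ᶠ x in (U : Filter X), G (b x) (t x) ∧ u (t x) ≠ ⊥) :
    ∃ w : NC M, CC c U (fun x => (b x).1) w.1 := by
  induction h with
  | @c z w hz =>
    exfalso
    obtain ⟨x, h1, h2⟩ := hb.exists
    exact h2 h1
  | @g b' w hb' =>
    refine ⟨w, hb'.congr ?_⟩
    filter_upwards [hb] with x hx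
    rw [(G_g _ _).1 hx.1]
  | @s t t' p p' _ _ ih ih' =>
    have : ∀ᶠ x in (U : Filter X), (G (b x) (t x) ∧ u (t x) ≠ ⊥) ∨
        (G (b x) (t' x) ∧ u (t' x) ≠ ⊥) := by
      filter_upwards [hb] with x ⟨h1, h2⟩
      by_cases h3 : u (t x) = ⊥
      · right
        refine ⟨h1.2, fun h4 => h2 ?_⟩
        rw [u_s, h3, h4, sup_bot_eq]
      · exact Or.inl ⟨h1.1, h3⟩
    rcases Ultrafilter.eventually_or.1 this with h | h
    · exact ih h
    · exact ih' h
  | @i t t' p p' _ _ ih ih' =>
    have : ∀ᶠ x in (U : Filter X), (G (b x) (t x) ∧ u (t x) ≠ ⊥) ∨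
        (G (b x) (t' x) ∧ u (t' x) ≠ ⊥) := by
      filter_upwards [hb] with x ⟨h1, h2⟩
      have h3 : u (t x) ≠ ⊥ := fun h3 => h2 (le_bot_iff.1 ((u_i_le _ _).trans
        (inf_le_left.trans h3.le)))
      have h3' : u (t' x) ≠ ⊥ := fun h3 => h2 (le_bot_iff.1 ((u_i_le _ _).trans
        (inf_le_right.trans h3.le)))
      rcases (G_i _ _ _).1 h1 with h | h | h
      · exact Or.inl ⟨h, h3⟩
      · exact Or.inr ⟨h, h3'⟩
      · exact absurd h h2
    rcases Ultrafilter.eventually_or.1 this with h | h
    · exact ih h
    · exact ih' h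

theorem TC.lemUG (uc : UC M) (hc : Function.Injective c) (htt : TT c)
    {t : X → Tm M (NC M)} {p : Tm M (NC M)} (h : TC c U t p) :
    LL c U (fun x => u (t x)) (u p) ∧
    ∀ (b : X → NC M) (w : NC M), CC c U (fun x => (b x).1) w.1 →
      (∀ᶠ x in (U : Filter X), G (b x) (t x)) → G w p := by
  induction h with
  | @c z w hz =>
    refine ⟨hz, fun b w' _ hG => ?_⟩
    exact le_bot_iff.1 (hz.le_const htt (by filter_upwards [hG] with x hx using (show z x = ⊥ from hx).le))
  | @g b' w hb' =>
    refine ⟨LL.of_CC (CC.const c U ⊤), fun b w' hb hG => ?_⟩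
    have h1 : CC c U (fun x => (b x).1) w.1 := hb'.congr (by
      filter_upwards [hG] with x hx
      rw [(G_g _ _).1 hx])
    exact Subtype.ext (hb.unique hc h1)
  | @s t t' p p' _ _ ih ih' =>
    refine ⟨ih.1.sup ih'.1, fun b w' hb hG => ⟨?_, ?_⟩⟩
    · exact ih.2 b w' hb (by filter_upwards [hG] with x hx using hx.1)
    · exact ih'.2 b w' hb (by filter_upwards [hG] with x hx using hx.2)
  | @i t t' p p' h h' ih ih' =>
    have key : LL c U (fun x => u (.i (t x) (t' x))) (u (.i p p')) := by
      rcases Ultrafilter.em U (fun x => Col (t x) (t' x)) with hcol | hcol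
      · -- collapse along `U`: the limit collapses
        have hup : u (.i p p') = ⊥ := by
          by_cases hbot : u p = ⊥
          · rw [← le_bot_iff, ← hbot]; exact (u_i_le _ _).trans inf_le_left
          by_cases hbot' : u p' = ⊥
          · rw [← le_bot_iff, ← hbot']; exact (u_i_le _ _).trans inf_le_right
          -- choose the collapsing elements
          have hne : ∀ᶠ x in (U : Filter X), u (t x) ≠ ⊥ := by
            rcases Ultrafilter.em U (fun x => u (t x) = ⊥) with h1 | h1
            · exact absurd (le_bot_iff.1 (ih.1.le_const htt (by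
                filter_upwards [h1] with x hx using hx.le))) hbot
            · exact h1
          have hne' : ∀ᶠ x in (U : Filter X), u (t' x) ≠ ⊥ := by
            rcases Ultrafilter.em U (fun x => u (t' x) = ⊥) with h1 | h1
            · exact absurd (le_bot_iff.1 (ih'.1.le_const htt (by
                filter_upwards [h1] with x hx using hx.le))) hbot'
            · exact h1
          obtain ⟨x₀, b₀, -⟩ := hcol.exists
          classical
          let b : X → NC M := fun x => if h : Col (t x) (t' x) then h.choose else b₀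
          have hb : ∀ᶠ x in (U : Filter X), u (t x) ⊓ u (t' x) ≤ (b x).1 ∧
              (G (b x) (t x) ∨ G (b x) (t' x)) := by
            filter_upwards [hcol] with x hx
            simp only [b, dif_pos hx]
            exact hx.choose_spec
          have hb' : ∀ᶠ x in (U : Filter X), G (b x) (t x) ∨ G (b x) (t' x) := by
            filter_upwards [hb] with x hx using hx.2
          have hle : ∀ᶠ x in (U : Filter X), u (t x) ⊓ u (t' x) ≤ (b x).1 := by
            filter_upwards [hb] with x hx using hx.1
          rcases Ultrafilter.eventually_or.1 hb' with h1 | h1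
          · obtain ⟨w, hw⟩ := h.occ (by filter_upwards [h1, hne] with x h2 h3 using ⟨h2, h3⟩)
            apply u_i_of_col
            exact ⟨w, (ih.1.inf uc ih'.1).le htt hw hle, Or.inl (ih.2 b w hw h1)⟩
          · obtain ⟨w, hw⟩ := h'.occ (by filter_upwards [h1, hne'] with x h2 h3 using ⟨h2, h3⟩)
            apply u_i_of_col
            exact ⟨w, (ih.1.inf uc ih'.1).le htt hw hle, Or.inr (ih'.2 b w hw h1)⟩
        rw [hup]
        exact LL.bot _
      · refine (ih.1.inf uc ih'.1).mono (u_i_le _ _) ?_
        filter_upwards [hcol] with x hx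
        rw [u_i_of_not_col hx]
    refine ⟨key, fun b w hb hG => ?_⟩
    have hG' : ∀ᶠ x in (U : Filter X), G (b x) (t x) ∨ G (b x) (t' x) ∨
        u (.i (t x) (t' x)) = ⊥ := hG
    rcases Ultrafilter.eventually_or.1 hG' with h1 | h1
    · exact Or.inl (ih.2 b w hb h1)
    rcases Ultrafilter.eventually_or.1 h1 with h1 | h1
    · exact Or.inr (Or.inl (ih'.2 b w hb h1))
    · refine Or.inr (Or.inr (le_bot_iff.1 (key.le_const htt ?_)))
      filter_upwards [h1] with x hx using hx.le

end

end Pool.Agent.H6.Hunt
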