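import Pool.Agent.H6.HAssembly
import Mathlib.Data.Fintype.Order
import Mathlib.SetTheory.Cardinal.Aleph

/-!
# The final lattice
-/

set_option autoImplicit false

namespace Pool.Agent.H6.Hunt

open Filter

/-! ### Finite lattices are good -/

theorem good_of_finite (M : Type) [CompleteLattice M] [Finite M]
    (au : ∀ a b b' : M, IsCompl a b → IsCompl a b' → b = b') : Good M where
  uc := by
    intro a D hD hD'
    have : Nonempty D := hD.to_subtype
    have : IsDirectedOrder D := hD'.isDirectedOrder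
    obtain ⟨d, hd⟩ := Finite.exists_le (fun x : D => x)
    have h1 : sSup D ≤ d.1 := sSup_le fun x hx => hd ⟨x, hx⟩
    exact (inf_le_inf le_rfl h1).trans (le_iSup₂ (f := fun d (_ : d ∈ D) => a ⊓ d) d.1 d.2)
  au := au
  code := by
    classical
    obtain ⟨n, ⟨φ⟩⟩ := Finite.exists_equiv_fin M
    let c : M → ℕ → Bool := fun m k => decide (k = (φ m).1)
    have hcc : ∀ (X : Type) (U : Ultrafilter X) (z : X → M) (w : M), CC c U z w →
        ∀ᶠ x in (U : Filter X), z x = w := by
      intro X U z w h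
      filter_upwards [h (φ w).1] with x hx
      simp only [c, decide_true, decide_eq_true_eq] at hx
      exact (φ.injective (Fin.ext hx)).symm
    have hpc : ∀ (X : Type) (U : Ultrafilter X) (z : X → M) (w : M), Pc c U z w →
        ∀ᶠ x in (U : Filter X), z x = w := by
      intro X U z w h
      induction h with
      | leaf h => exact hcc X U _ _ h
      | sup _ _ ih ih' => filter_upwards [ih, ih'] with x h h'; rw [h, h']
      | inf _ _ ih ih' => filter_upwards [ih, ih'] with x h h'; rw [h, h']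
    refine ⟨c, ?_, ?_⟩
    · intro m m' h
      have := congrFun h (φ m).1
      simp only [c, decide_true, eq_comm (a := true), decide_eq_true_eq] at this
      exact φ.injective (Fin.ext this)
    · intro X U q b a w hq hb hqb
      obtain ⟨x, h1, h2, h3⟩ := ((hpc X U q a hq).and ((hcc X U b w hb).and hqb)).exists
      rwa [h1, h2] at h3

/-! ### The base lattice -/

/-- The six element lattice: `o < a, b, c < m < t`. -/
inductive B6 : Type
  | o | a | b | c | m | t
  deriving DecidableEq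

namespace B6

instance : Fintype B6 where
  elems := {o, a, b, c, m, t}
  complete := by
    intro x
    cases x <;> decide

/-- the order of `B6` -/
def leb : B6 → B6 → Bool
  | o, _ => true
  | _, t => true
  | a, a => true
  | b, b => true
  | c, c => true
  | m, m => true
  | a, m => true
  | b, m => true
  | c, m => true
  | _, _ => false

instance : Lattice B6 where
  le x y := leb x y = true
  le_refl := by decide
  le_trans := by decide
  le_antisymm := by decide
  sup x y := if leb x y then y else if leb y x then x else m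
  inf x y := if leb x y then x else if leb y x then y else o
  le_sup_left := by decide
  le_sup_right := by decide
  sup_le := by decide
  inf_le_left := by decide
  inf_le_right := by decide
  le_inf := by decide

instance : DecidableRel ((· ≤ ·) : B6 → B6 → Prop) := fun x y =>
  inferInstanceAs (Decidable (leb x y = true))

instance : BoundedOrder B6 where
  top := t
  bot := o
  le_top := by decide
  bot_le := by decide

noncomputable instance : CompleteLattice B6 := Fintype.toCompleteLattice B6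

theorem au (x y z : B6) (h : IsCompl x y) (h' : IsCompl x z) : y = z := by
  rw [isCompl_iff, disjoint_iff, codisjoint_iff] at h h'
  have key : ∀ x y z : B6, (x ⊓ y = o ∧ x ⊔ y = t) → (x ⊓ z = o ∧ x ⊔ z = t) → y = z := by
    decide
  exact key x y z h h'

theorem not_distrib : ¬ ((a : B6) ⊓ (b ⊔ c) ≤ (a ⊓ b) ⊔ (a ⊓ c)) := by
  have key : ((a : B6) ⊓ (b ⊔ c)) = a ∧ ((a : B6) ⊓ b) ⊔ (a ⊓ c) = o := by decide
  rw [key.1, key.2]
  decide

theorem good : Good B6 := good_of_finite B6 au

end B6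

/-! ### Every thread of the long chain is principal -/

section

variable {I : Type} [LinearOrder I] [WellFoundedLT I]

theorem bounded_of_countable (hcount : ∀ i : I, (Set.Iio i).Countable) (hunc : ¬ Countable I)
    (S : Set I) (hS : S.Countable) : ∃ m : I, ∀ s ∈ S, s < m := by
  by_contra hcon
  push Not at hcon
  apply hunc
  rw [← Set.countable_univ_iff]
  have : (Set.univ : Set I) ⊆ ⋃ s ∈ S, Set.Iic s := by
    intro m _
    obtain ⟨s, hs, hms⟩ := hcon m
    exact Set.mem_iUnion₂.2 ⟨s, hs, hms⟩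
  refine Set.Countable.mono this (hS.biUnion fun s _ => ?_)
  rw [← Set.Iio_insert]
  exact (hcount s).insert s

theorem le_ext (B : Stage (Nm I)) (hOK : ∀ i : I, OK i (fun j _ => st B j) B (st B i)) (j k : I)
    (h : j ≤ k) : Ext (st B j) (st B k) := by
  rcases h.eq_or_lt with rfl | h
  · exact Ext.refl _
  · exact (hOK k).ext j h

/-- the long system -/
noncomputable def long (B : Stage (Nm I)) (hOK : ∀ i : I, OK i (fun j _ => st B j) B (st B i)) :
    Sys (fun i : I => (st B i).T) :=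
  mkSys (st B) (fun i => (hOK i).good) (le_ext B hOK)

theorem principal (B : Stage (Nm I)) (hOK : ∀ i : I, OK i (fun j _ => st B j) B (st B i))
    (hcount : ∀ i : I, (Set.Iio i).Countable) (hunc : ¬ Countable I)
    (x : (long B hOK).Lim) : ∃ (k : I) (a : (st B k).T), x = Sys.Lim.emb (long B hOK) k a := by
  let Y := long B hOK
  -- (2)
  have h2 : ∀ ξ : I, ∃ m₁ : I, ξ < m₁ ∧ ∀ (m : I) (hm : ξ ≤ m), m₁ ≤ m →
      x.1 ξ ≤ up (Y.e hm) (Sys.Lim.low m x) := by
    intro ξ
    let D : Set (st B ξ).T := {w | ∃ m, ∃ hm : ξ ≤ m, w = up (Y.e hm) (Sys.Lim.low m x)}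
    have hD : x.1 ξ ≤ sSup D := by
      apply Sys.Lim.apply_le_of
      intro m hm
      exact le_sSup ⟨m, hm, rfl⟩
    obtain ⟨D₀, hD₀, hD₁, hD₂⟩ := (hOK ξ).good.countable_sup D
    have hch : ∀ w : D₀, ∃ m, ∃ hm : ξ ≤ m, w.1 = up (Y.e hm) (Sys.Lim.low m x) :=
      fun w => hD₀ w.2
    choose μ hμ hμ' using hch
    have : Countable D₀ := hD₁.to_subtype
    obtain ⟨m₁, hm₁⟩ := bounded_of_countable hcount hunc (insert ξ (Set.range μ))
      ((Set.countable_range μ).insert ξ)
    refine ⟨m₁, hm₁ ξ (Set.mem_insert _ _), fun m hm hmm => ?_⟩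
    refine hD.trans (hD₂.symm.le.trans (sSup_le fun w hw => ?_))
    have h3 := hμ' ⟨w, hw⟩
    simp only at h3
    rw [h3]
    have h4 : μ ⟨w, hw⟩ ≤ m := (hm₁ _ (Set.mem_insert_of_mem _ ⟨_, rfl⟩)).le.trans hmm
    exact Sys.Lim.up_low_mono x (hμ ⟨w, hw⟩) h4
  choose f hf hf' using h2
  -- (3)
  have hne : Nonempty I := by
    by_contra h
    rw [not_nonempty_iff] at h
    exact hunc inferInstance
  obtain ⟨i₀⟩ := hne
  let ξ : ℕ → I := fun n => f^[n] i₀
  have hξ : ∀ n, ξ (n + 1) = f (ξ n) := fun n => Function.iterate_succ_apply' f n i₀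
  have hξ' : ∀ n, ξ n < ξ (n + 1) := fun n => by rw [hξ]; exact hf _
  obtain ⟨m, hm⟩ := bounded_of_countable hcount hunc (Set.range ξ) (Set.countable_range ξ)
  let δ : I := (wellFounded_lt (α := I)).min {m | ∀ n, ξ n ≤ m}
    ⟨m, fun n => (hm _ ⟨n, rfl⟩).le⟩
  have hδ : ∀ n, ξ n ≤ δ := (wellFounded_lt (α := I)).min_mem {m | ∀ n, ξ n ≤ m}
    ⟨m, fun n => (hm _ ⟨n, rfl⟩).le⟩
  have hδ' : ∀ n, ξ n < δ := fun n => (hξ' n).trans_le (hδ (n + 1))
  have hδ2 : ∀ j, j < δ → ∃ n, j < ξ n := by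
    intro j hj
    by_contra hcon
    push Not at hcon
    exact (wellFounded_lt (α := I)).not_lt_min {m | ∀ n, ξ n ≤ m} hcon hj
  -- (4)
  let T : Set (st B δ).T := {t | ∃ (j : I) (hj : j < δ), t = Y.e hj.le (Sys.Lim.low j x)}
  have hle : Sys.Lim.emb Y δ (sSup T) ≤ x := by
    rw [Sys.Lim.emb_sSup]
    apply sSup_le
    rintro _ ⟨_, ⟨j, hj, rfl⟩, rfl⟩
    rw [Sys.Lim.emb_comp]
    exact Sys.Lim.emb_low_le j x
  -- (5)
  have h5 : ∀ n, x.1 (ξ n) ≤ (Sys.Lim.emb Y δ (sSup T)).1 (ξ n) := by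
    intro n
    have h6 := hf' (ξ n) (ξ (n + 1)) (hξ' n).le (hξ n).symm.le
    have h7 : Sys.Lim.emb Y (ξ (n + 1)) (Sys.Lim.low (ξ (n + 1)) x) ≤
        Sys.Lim.emb Y δ (sSup T) := by
      rw [← Sys.Lim.emb_comp (hδ' (n + 1)).le]
      apply Sys.Lim.emb_mono
      exact le_sSup ⟨_, hδ' (n + 1), rfl⟩
    refine h6.trans (le_trans ?_ (h7 (ξ n)))
    exact (Y.eta_of_ge _ (hξ' n).le).ge
  -- (6)
  have h6 : ∀ j, j < δ → x.1 j ≤ (Sys.Lim.emb Y δ (sSup T)).1 j := by
    intro j hj
    obtain ⟨n, hn⟩ := hδ2 j hj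
    rw [x.thread hn.le, (Sys.Lim.emb Y δ (sSup T)).thread hn.le]
    exact (Y.nice hn.le).up_mono (h5 n)
  -- (7)
  have h7 : x.1 δ ≤ sSup T := by
    apply (hOK δ).det ⟨ξ 0, hδ' 0⟩ T
    · rintro _ ⟨j, hj, rfl⟩
      exact ⟨j, hj, _, (mkSys_nm (st B) _ _ hj.le _).symm⟩
    · rintro y ⟨j, hj, a, ha⟩ hy
      have hya : y = Y.e hj.le a := by
        apply (st B δ).inj
        rw [← ha]
        exact (mkSys_nm (st B) _ _ hj.le _).symm
      subst hya
      have h8 : x ≤ Sys.Lim.emb Y j a := by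
        rw [Sys.Lim.le_emb_iff]
        refine (h6 j hj).trans ?_
        have h9 := Sys.Lim.emb_mono (Y := Y) δ hy j
        have h10 : Sys.Lim.emb Y δ (Y.e hj.le a) = Sys.Lim.emb Y j a :=
          Sys.Lim.emb_comp (Y := Y) hj.le a
        have h11 : (Sys.Lim.emb Y j a).1 j = a := Sys.Lim.emb_apply_self (Y := Y) j a
        rw [h10, h11] at h9
        exact h9
      rw [← Sys.Lim.le_emb_iff, Sys.Lim.emb_comp]
      exact h8
  exact ⟨δ, sSup T, le_antisymm (Sys.Lim.le_emb_iff.2 h7) hle⟩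

theorem long_main (B : Stage (Nm I)) (hB : Good B.T)
    (hB' : ∀ (x : B.T) (i : I), (B.nm x).idx ≤ i)
    (hcount : ∀ i : I, (Set.Iio i).Countable) (hunc : ¬ Countable I) :
    ∃ (L : Type) (_ : CompleteLattice L), (∀ a : L, ∃! b : L, IsCompl a b) ∧
      ∃ β : B.T → L, Nice β := by
  have hOK := st_OK B hB hB' hcount
  let Y := long B hOK
  have hne : Nonempty I := by
    by_contra h
    rw [not_nonempty_iff] at h
    exact hunc inferInstance
  refine ⟨Y.Lim, inferInstance, ?_, ?_⟩
  · intro x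
    obtain ⟨k, a, hx⟩ := principal B hOK hcount hunc x
    obtain ⟨k', hk'⟩ := bounded_of_countable hcount hunc {k} (Set.countable_singleton k)
    have hkk : k < k' := hk' k rfl
    obtain ⟨b₁, b', h1, h2⟩ := (hOK k').compl k hkk a
    have h3 : b₁ = Y.e hkk.le a := by
      apply (st B k').inj
      rw [h1]
      exact (mkSys_nm (st B) _ _ hkk.le _).symm
    have h4 : IsCompl x (Sys.Lim.emb Y k' b') := by
      have h5 := (Sys.Lim.emb_nice (Y := Y) k').isCompl h2
      rw [h3, Sys.Lim.emb_comp] at h5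
      rw [hx]
      exact h5
    exact ⟨_, h4, fun y hy => Sys.Lim.au x y _ hy h4⟩
  · obtain ⟨i⟩ := hne
    obtain ⟨β, hβ, -⟩ := (hOK i).base
    exact ⟨Sys.Lim.emb Y i ∘ β, hβ.comp (Sys.Lim.emb_nice (Y := Y) i)⟩

end

theorem exists_index : ∃ (I : Type) (_ : LinearOrder I) (_ : WellFoundedLT I),
    (∀ i : I, (Set.Iio i).Countable) ∧ ¬ Countable I := by
  refine ⟨(Cardinal.aleph 1 : Cardinal.{0}).ord.ToType, inferInstance, inferInstance, ?_, ?_⟩
  · intro i
    have h := Cardinal.mk_Iio_lt i (by simp)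
    rw [Cardinal.mk_ord_toType, Cardinal.lt_aleph_one_iff] at h
    exact Cardinal.le_aleph0_iff_set_countable.1 h
  · intro h
    rw [← Cardinal.mk_le_aleph0_iff] at h
    simp at h

/-- There is a complete uniquely complemented lattice which is not distributive. -/
theorem huntington : ∃ (L : Type) (_ : CompleteLattice L), (∀ a : L, ∃! b : L, IsCompl a b) ∧
    ¬ ∀ x y z : L, x ⊓ (y ⊔ z) = (x ⊓ y) ⊔ (x ⊓ z) := by
  obtain ⟨I, _, _, hcount, hunc⟩ := exists_index
  have hne : Nonempty I := by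
    by_contra h
    rw [not_nonempty_iff] at h
    exact hunc inferInstance
  let i₀ : I := (wellFounded_lt (α := I)).min Set.univ Set.univ_nonempty
  have hi₀ : ∀ i : I, i₀ ≤ i := fun i => not_lt.1
    ((wellFounded_lt (α := I)).not_lt_min Set.univ (Set.mem_univ i))
  obtain ⟨c, hc, -⟩ := B6.good.code
  let B : Stage (Nm I) := ⟨B6, inferInstance, fun x => ⟨i₀, c x⟩, fun x y h => hc (by simpa using h)⟩
  obtain ⟨L, instL, h1, β, hβ⟩ := long_main B B6.good (fun _ i => hi₀ i) hcount hunc
  refine ⟨L, instL, h1, fun hd => ?_⟩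
  have h2 := hd (β B6.a) (β B6.b) (β B6.c)
  rw [← hβ.map_sup, ← hβ.map_inf, ← hβ.map_inf, ← hβ.map_inf, ← hβ.map_sup] at h2
  exact B6.not_distrib (hβ.inj h2).le

end Pool.Agent.H6.Hunt
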