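import Pool.Agent.H6.HConv

/-!
# The lattice of closed ideals
-/

set_option autoImplicit false

namespace Pool.Agent.H6.Hunt

open Filter

section

variable {M : Type} [CompleteLattice M]

/-- Down-closed sets of terms closed under limits. -/
structure DL (c : M → ℕ → Bool) (B : Set (Tm M (NC M))) : Prop where
  down : ∀ t r, Le t r → r ∈ B → t ∈ B
  lim : ∀ (X : Type) (U : Ultrafilter X) (t : X → Tm M (NC M)) (p : Tm M (NC M)),
    TC c U t p → (∀ᶠ x in (U : Filter X), t x ∈ B) → p ∈ B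

/-- Closed ideals of terms. -/
structure CI (c : M → ℕ → Bool) : Type where
  S : Set (Tm M (NC M))
  dl : DL c S
  sup : ∀ t r, t ∈ S → r ∈ S → Tm.s t r ∈ S
  bot : Tm.c ⊥ ∈ S

/-- closure of a set of terms under down-closure and limits -/
def Gam (c : M → ℕ → Bool) (A : Set (Tm M (NC M))) : Set (Tm M (NC M)) :=
  {t | ∀ B, A ⊆ B → DL c B → t ∈ B}

variable {c : M → ℕ → Bool}

theorem subset_Gam (A : Set (Tm M (NC M))) : A ⊆ Gam c A := fun _ ht _ hB _ => hB ht

theorem Gam_DL (A : Set (Tm M (NC M))) : DL c (Gam c A) where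
  down t r h hr B hA hB := hB.down t r h (hr B hA hB)
  lim X U t p h ht B hA hB := hB.lim X U t p h (by
    filter_upwards [ht] with x hx using hx B hA hB)

theorem Gam_sup {A : Set (Tm M (NC M))} (hA : ∀ t ∈ A, ∀ r ∈ A, Tm.s t r ∈ A) :
    ∀ t ∈ Gam c A, ∀ r ∈ Gam c A, Tm.s t r ∈ Gam c A := by
  have step1 : ∀ r ∈ A, ∀ t ∈ Gam c A, Tm.s t r ∈ Gam c A := by
    intro r hr t ht
    refine ht {t | Tm.s t r ∈ Gam c A} (fun t' ht' => subset_Gam A (hA t' ht' r hr)) ⟨?_, ?_⟩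
    · intro t' t'' h h'
      exact (Gam_DL A).down _ _ (Le.sMono h (Le.refl r)) h'
    · intro X U t' p h h'
      exact (Gam_DL A).lim X U _ _ (TC.s h (TC.const r)) h'
  intro t ht r hr
  refine hr {r | Tm.s t r ∈ Gam c A} (fun r' hr' => step1 r' hr' t ht) ⟨?_, ?_⟩
  · intro t' t'' h h'
    exact (Gam_DL A).down _ _ (Le.sMono (Le.refl t) h) h'
  · intro X U t' p h h'
    exact (Gam_DL A).lim X U _ _ (TC.s (TC.const t) h) h'

namespace CI

theorem ext' {I J : CI c} (h : I.S = J.S) : I = J := by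
  cases I; cases J; cases h; rfl

instance : PartialOrder (CI c) :=
  PartialOrder.lift CI.S (fun _ _ h => ext' h)

theorem le_def {I J : CI c} : I ≤ J ↔ I.S ⊆ J.S := Iff.rfl

instance : InfSet (CI c) := ⟨fun A : Set (CI c) =>
  { S := {t | ∀ I ∈ A, t ∈ I.S}
    dl := ⟨fun t r h hr I hI => I.dl.down t r h (hr I hI),
      fun X U t p h ht I hI => I.dl.lim X U t p h (by
        filter_upwards [ht] with x hx using hx I hI)⟩
    sup := fun t r ht hr I hI => I.sup t r (ht I hI) (hr I hI)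
    bot := fun I _ => I.bot }⟩

noncomputable instance : CompleteLattice (CI c) :=
  completeLatticeOfInf _ (fun A => ⟨fun I hI _ ht => ht I hI, fun _ hJ _ ht I hI =>
    hJ hI ht⟩)

theorem mem_sInf {A : Set (CI c)} {t : Tm M (NC M)} : t ∈ (sInf A).S ↔ ∀ I ∈ A, t ∈ I.S :=
  Iff.rfl

theorem mem_inf {I J : CI c} {t : Tm M (NC M)} : t ∈ (I ⊓ J).S ↔ t ∈ I.S ∧ t ∈ J.S := by
  constructor
  · intro h
    exact ⟨(inf_le_left : I ⊓ J ≤ I) h, (inf_le_right : I ⊓ J ≤ J) h⟩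
  · rintro ⟨h, h'⟩ K hK
    rcases hK with rfl | rfl
    · exact h
    · exact h'

theorem eq_top_iff' {I : CI c} : I = ⊤ ↔ Tm.c ⊤ ∈ I.S := by
  constructor
  · rintro rfl J hJ
    exact absurd hJ (Set.notMem_empty J)
  · intro h
    rw [eq_top_iff]
    intro t _
    exact I.dl.down _ _ (Le.m le_top) h

/-- the ideal with the upper set of the union of a directed family -/
theorem mem_sSup {A : Set (CI c)} (hA : A.Nonempty) (hA' : DirectedOn (· ≤ ·) A)
    {t : Tm M (NC M)} : t ∈ (sSup A).S ↔ t ∈ Gam c {t | ∃ I ∈ A, t ∈ I.S} := by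
  have hcl : ∀ t ∈ {t | ∃ I ∈ A, t ∈ I.S}, ∀ r ∈ {t | ∃ I ∈ A, t ∈ I.S},
      Tm.s t r ∈ {t | ∃ I ∈ A, t ∈ I.S} := by
    rintro t ⟨I, hI, ht⟩ r ⟨J, hJ, hr⟩
    obtain ⟨K, hK, hIK, hJK⟩ := hA' I hI J hJ
    exact ⟨K, hK, K.sup t r (hIK ht) (hJK hr)⟩
  let K : CI c :=
    { S := Gam c {t | ∃ I ∈ A, t ∈ I.S}
      dl := Gam_DL _
      sup := fun t r ht hr => Gam_sup hcl t ht r hr
      bot := by
        obtain ⟨I, hI⟩ := hA
        exact subset_Gam _ ⟨I, hI, I.bot⟩ }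
  have hK : sSup A = K := by
    apply le_antisymm
    · apply sSup_le
      intro I hI t ht
      exact subset_Gam _ ⟨I, hI, ht⟩
    · intro t ht
      refine ht _ ?_ (sSup A).dl
      rintro t ⟨I, hI, ht⟩
      exact (le_sSup hI : I ≤ sSup A) ht
  rw [hK]

/-- The lattice of closed ideals is upper continuous. -/
theorem uc : UC (CI c) := by
  intro E A hA hA' t ht
  rw [mem_inf, mem_sSup hA hA'] at ht
  obtain ⟨htE, ht⟩ := ht
  -- the family of intersections
  let W : CI c := ⨆ d ∈ A, E ⊓ d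
  have hW : ∀ s ∈ E.S, Tm.i t s ∈ W.S := by
    intro s hs
    refine ht {t | Tm.i t s ∈ W.S} ?_ ⟨?_, ?_⟩
    · rintro r ⟨I, hI, hr⟩
      have : E ⊓ I ≤ W := le_iSup₂ (f := fun d (_ : d ∈ A) => E ⊓ d) I hI
      apply this
      rw [mem_inf]
      exact ⟨E.dl.down _ _ (Le.iL2 (Le.refl s)) hs, I.dl.down _ _ (Le.iL1 (Le.refl r)) hr⟩
    · intro t' t'' h h'
      exact W.dl.down _ _ (Le.iMono h (Le.refl s)) h'
    · intro X U t' p h h'
      exact W.dl.lim X U _ _ (TC.i h (TC.const s)) h'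
  exact W.dl.down _ _ (Le.iR (Le.refl t) (Le.refl t)) (hW t htE)

/-- inversion of membership below a join -/
theorem mem_join_inv {I J : CI c} {t i j : Tm M (NC M)} (hi : i ∈ I.S) (hj : j ∈ J.S)
    (h : Le t (.s i j)) :
    u t ≤ l (.s i j) ∨ t ∈ I.S ∨ t ∈ J.S ∨
    (∃ t₁ t₂, t = .s t₁ t₂ ∧ Le t₁ (.s i j) ∧ Le t₂ (.s i j)) ∨
    (∃ t₁ t₂, t = .i t₁ t₂ ∧ (Le t₁ (.s i j) ∨ Le t₂ (.s i j))) := by
  cases h with
  | m h => exact Or.inl h
  | sL h h' => exact Or.inr (Or.inr (Or.inr (Or.inl ⟨_, _, rfl, h, h'⟩)))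
  | iL1 h => exact Or.inr (Or.inr (Or.inr (Or.inr ⟨_, _, rfl, Or.inl h⟩)))
  | iL2 h => exact Or.inr (Or.inr (Or.inr (Or.inr ⟨_, _, rfl, Or.inr h⟩)))
  | sR1 h => exact Or.inr (Or.inl (I.dl.down _ _ h hi))
  | sR2 h => exact Or.inr (Or.inr (Or.inl (J.dl.down _ _ h hj)))

end CI

/-- The data used in the step construction. -/
structure Hyp (c : M → ℕ → Bool) : Prop where
  uc : UC M
  au : ∀ a b b' : M, IsCompl a b → IsCompl a b' → b = b'
  inj : Function.Injective c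
  tt : TT c

theorem LL_directed {D : Set M} (hD : D.Nonempty) (hD' : DirectedOn (· ≤ ·) D) :
    ∃ (U : Ultrafilter D), LL c U (fun d : D => d.1) (sSup D) := by
  have : Nonempty D := hD.to_subtype
  have : IsDirectedOrder D := hD'.isDirectedOrder
  refine ⟨Ultrafilter.of (atTop : Filter D), LL.sSup fun d hd => ?_⟩
  refine (LL.of_CC (CC.const c _ d)).mono le_rfl ?_
  exact Ultrafilter.of_le (atTop : Filter D) (eventually_ge_atTop (⟨d, hd⟩ : D))

namespace CI

/-- the set of constants in an ideal -/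
def K (I : CI c) : Set M := {z | Tm.c z ∈ I.S}

theorem K_bot (I : CI c) : ⊥ ∈ I.K := I.bot

theorem K_sup (I : CI c) {z z' : M} (h : z ∈ I.K) (h' : z' ∈ I.K) : z ⊔ z' ∈ I.K :=
  I.dl.down (.c (z ⊔ z')) (.s (.c z) (.c z')) (Le.m (l_s_ge (.c z) (.c z'))) (I.sup _ _ h h')

theorem K_sSup (I : CI c) : sSup I.K ∈ I.K := by
  have hd : DirectedOn (· ≤ ·) I.K := fun z hz z' hz' =>
    ⟨z ⊔ z', I.K_sup hz hz', le_sup_left, le_sup_right⟩
  obtain ⟨U, hU⟩ := LL_directed (c := c) ⟨⊥, I.K_bot⟩ hd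
  exact I.dl.lim _ U _ _ (TC.c hU) (Eventually.of_forall fun d => d.2)

/-- greatest constant in the ideal -/
noncomputable def lI (I : CI c) : M := sSup I.K

theorem mem_lI (I : CI c) : Tm.c I.lI ∈ I.S := I.K_sSup

theorem l_le_lI (I : CI c) {t : Tm M (NC M)} (ht : t ∈ I.S) : l t ≤ I.lI :=
  le_sSup (show Tm.c (l t) ∈ I.S from I.dl.down _ _ (Le.m le_rfl) ht)

theorem mem_of_u_le (I : CI c) {t : Tm M (NC M)} (ht : u t ≤ I.lI) : t ∈ I.S :=
  I.dl.down t (.c I.lI) (Le.m ht) I.mem_lI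

theorem c_mem_iff (I : CI c) {z : M} : Tm.c z ∈ I.S ↔ z ≤ I.lI :=
  ⟨fun h => le_sSup h, fun h => I.mem_of_u_le h⟩

theorem eq_top_iff_lI {I : CI c} : I = ⊤ ↔ I.lI = ⊤ := by
  rw [eq_top_iff', c_mem_iff, top_le_iff]

/-- The ideal generated by two ideals: no closure needed. -/
def join (H : Hyp c) (I J : CI c) : CI c where
  S := {t | ∃ i ∈ I.S, ∃ j ∈ J.S, Le t (.s i j)}
  dl := by
    refine ⟨?_, ?_⟩
    · rintro t r h ⟨i, hi, j, hj, h'⟩
      exact ⟨i, hi, j, hj, h.trans h'⟩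
    · intro X U t p h
      -- everything is in the join as soon as some `l` is top
      have main : (∀ i ∈ I.S, ∀ j ∈ J.S, l (.s i j) ≠ ⊤) → (∀ᶠ x in (U : Filter X),
          t x ∈ {t | ∃ i ∈ I.S, ∃ j ∈ J.S, Le t (.s i j)}) →
          p ∈ {t | ∃ i ∈ I.S, ∃ j ∈ J.S, Le t (.s i j)} := by
        intro hne ht
        have mcase : ∀ (t : X → Tm M (NC M)) (p : Tm M (NC M)), TC c U t p →
            (∀ᶠ x in (U : Filter X), u (t x) ≤ I.lI ⊔ J.lI) →
            p ∈ {t | ∃ i ∈ I.S, ∃ j ∈ J.S, Le t (.s i j)} := by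
          intro t p h hle
          refine ⟨_, I.mem_lI, _, J.mem_lI, Le.m ?_⟩
          refine le_trans ?_ (l_s_ge _ _)
          exact (h.lemUG H.uc H.inj H.tt).1.le_const H.tt hle
        have hlle : ∀ i ∈ I.S, ∀ j ∈ J.S, l (.s i j) ≤ I.lI ⊔ J.lI := by
          intro i hi j hj
          rcases l_s_cases i j with h1 | h1
          · rw [h1]; exact sup_le_sup (I.l_le_lI hi) (J.l_le_lI hj)
          · exact absurd h1 (hne i hi j hj)
        induction h with
        | @c z w hz =>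
          have : ∀ᶠ x in (U : Filter X), u (.c (z x) : Tm M (NC M)) ≤ I.lI ⊔ J.lI ∨
              (.c (z x) : Tm M (NC M)) ∈ I.S ∨ (.c (z x) : Tm M (NC M)) ∈ J.S := by
            filter_upwards [ht] with x ⟨i, hi, j, hj, hx⟩
            rcases mem_join_inv hi hj hx with h1 | h1 | h1 | ⟨_, _, h1, _⟩ | ⟨_, _, h1, _⟩
            · exact Or.inl (h1.trans (hlle i hi j hj))
            · exact Or.inr (Or.inl h1)
            · exact Or.inr (Or.inr h1)
            · cases h1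
            · cases h1
          rcases Ultrafilter.eventually_or.1 this with h1 | h1
          · exact mcase _ _ (TC.c hz) h1
          rcases Ultrafilter.eventually_or.1 h1 with h1 | h1
          · exact ⟨_, I.dl.lim X U _ _ (TC.c hz) h1, _, J.bot, Le.sR1 (Le.refl _)⟩
          · exact ⟨_, I.bot, _, J.dl.lim X U _ _ (TC.c hz) h1, Le.sR2 (Le.refl _)⟩
        | @g z w hz =>
          have : ∀ᶠ x in (U : Filter X), u (.g (z x) : Tm M (NC M)) ≤ I.lI ⊔ J.lI ∨
              (.g (z x) : Tm M (NC M)) ∈ I.S ∨ (.g (z x) : Tm M (NC M)) ∈ J.S := by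
            filter_upwards [ht] with x ⟨i, hi, j, hj, hx⟩
            rcases mem_join_inv hi hj hx with h1 | h1 | h1 | ⟨_, _, h1, _⟩ | ⟨_, _, h1, _⟩
            · exact Or.inl (h1.trans (hlle i hi j hj))
            · exact Or.inr (Or.inl h1)
            · exact Or.inr (Or.inr h1)
            · cases h1
            · cases h1
          rcases Ultrafilter.eventually_or.1 this with h1 | h1
          · exact mcase _ _ (TC.g hz) h1
          rcases Ultrafilter.eventually_or.1 h1 with h1 | h1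
          · exact ⟨_, I.dl.lim X U _ _ (TC.g hz) h1, _, J.bot, Le.sR1 (Le.refl _)⟩
          · exact ⟨_, I.bot, _, J.dl.lim X U _ _ (TC.g hz) h1, Le.sR2 (Le.refl _)⟩
        | @s t t' p p' h h' ih ih' =>
          have : ∀ᶠ x in (U : Filter X), u (.s (t x) (t' x) : Tm M (NC M)) ≤ I.lI ⊔ J.lI ∨
              (.s (t x) (t' x) : Tm M (NC M)) ∈ I.S ∨ (.s (t x) (t' x) : Tm M (NC M)) ∈ J.S ∨
              (t x ∈ {t | ∃ i ∈ I.S, ∃ j ∈ J.S, Le t (.s i j)} ∧
               t' x ∈ {t | ∃ i ∈ I.S, ∃ j ∈ J.S, Le t (.s i j)}) := by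
            filter_upwards [ht] with x ⟨i, hi, j, hj, hx⟩
            rcases mem_join_inv hi hj hx with h1 | h1 | h1 | ⟨_, _, h1, h2⟩ | ⟨_, _, h1, _⟩
            · exact Or.inl (h1.trans (hlle i hi j hj))
            · exact Or.inr (Or.inl h1)
            · exact Or.inr (Or.inr (Or.inl h1))
            · cases h1
              exact Or.inr (Or.inr (Or.inr ⟨⟨i, hi, j, hj, h2.1⟩, ⟨i, hi, j, hj, h2.2⟩⟩))
            · cases h1
          rcases Ultrafilter.eventually_or.1 this with h1 | h1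
          · exact mcase _ _ (TC.s h h') h1
          rcases Ultrafilter.eventually_or.1 h1 with h1 | h1
          · exact ⟨_, I.dl.lim X U _ _ (TC.s h h') h1, _, J.bot, Le.sR1 (Le.refl _)⟩
          rcases Ultrafilter.eventually_or.1 h1 with h1 | h1
          · exact ⟨_, I.bot, _, J.dl.lim X U _ _ (TC.s h h') h1, Le.sR2 (Le.refl _)⟩
          · obtain ⟨i, hi, j, hj, h3⟩ := ih (by filter_upwards [h1] with x hx using hx.1)
            obtain ⟨i', hi', j', hj', h3'⟩ := ih' (by filter_upwards [h1] with x hx using hx.2)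
            refine ⟨_, I.sup i i' hi hi', _, J.sup j j' hj hj', Le.sL ?_ ?_⟩
            · exact h3.trans (Le.sMono (Le.sR1 (Le.refl _)) (Le.sR1 (Le.refl _)))
            · exact h3'.trans (Le.sMono (Le.sR2 (Le.refl _)) (Le.sR2 (Le.refl _)))
        | @i t t' p p' h h' ih ih' =>
          have : ∀ᶠ x in (U : Filter X), u (.i (t x) (t' x) : Tm M (NC M)) ≤ I.lI ⊔ J.lI ∨
              (.i (t x) (t' x) : Tm M (NC M)) ∈ I.S ∨ (.i (t x) (t' x) : Tm M (NC M)) ∈ J.S ∨
              (t x ∈ {t | ∃ i ∈ I.S, ∃ j ∈ J.S, Le t (.s i j)} ∨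
               t' x ∈ {t | ∃ i ∈ I.S, ∃ j ∈ J.S, Le t (.s i j)}) := by
            filter_upwards [ht] with x ⟨i, hi, j, hj, hx⟩
            rcases mem_join_inv hi hj hx with h1 | h1 | h1 | ⟨_, _, h1, h2⟩ | ⟨_, _, h1, h2⟩
            · exact Or.inl (h1.trans (hlle i hi j hj))
            · exact Or.inr (Or.inl h1)
            · exact Or.inr (Or.inr (Or.inl h1))
            · cases h1
            · cases h1
              rcases h2 with h2 | h2
              · exact Or.inr (Or.inr (Or.inr (Or.inl ⟨i, hi, j, hj, h2⟩)))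
              · exact Or.inr (Or.inr (Or.inr (Or.inr ⟨i, hi, j, hj, h2⟩)))
          rcases Ultrafilter.eventually_or.1 this with h1 | h1
          · exact mcase _ _ (TC.i h h') h1
          rcases Ultrafilter.eventually_or.1 h1 with h1 | h1
          · exact ⟨_, I.dl.lim X U _ _ (TC.i h h') h1, _, J.bot, Le.sR1 (Le.refl _)⟩
          rcases Ultrafilter.eventually_or.1 h1 with h1 | h1
          · exact ⟨_, I.bot, _, J.dl.lim X U _ _ (TC.i h h') h1, Le.sR2 (Le.refl _)⟩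
          rcases Ultrafilter.eventually_or.1 h1 with h1 | h1
          · obtain ⟨i, hi, j, hj, h3⟩ := ih h1
            exact ⟨i, hi, j, hj, Le.iL1 h3⟩
          · obtain ⟨i, hi, j, hj, h3⟩ := ih' h1
            exact ⟨i, hi, j, hj, Le.iL2 h3⟩
      by_cases hne : ∀ i ∈ I.S, ∀ j ∈ J.S, l (.s i j) ≠ ⊤
      · exact main hne
      · intro _
        push Not at hne
        obtain ⟨i, hi, j, hj, h1⟩ := hne
        exact ⟨i, hi, j, hj, Le.m (by rw [h1]; exact le_top)⟩
  sup := by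
    rintro t t' ⟨i, hi, j, hj, h3⟩ ⟨i', hi', j', hj', h3'⟩
    refine ⟨_, I.sup i i' hi hi', _, J.sup j j' hj hj', Le.sL ?_ ?_⟩
    · exact h3.trans (Le.sMono (Le.sR1 (Le.refl _)) (Le.sR1 (Le.refl _)))
    · exact h3'.trans (Le.sMono (Le.sR2 (Le.refl _)) (Le.sR2 (Le.refl _)))
  bot := ⟨_, I.bot, _, J.bot, Le.m bot_le⟩

theorem mem_sup (H : Hyp c) {I J : CI c} {t : Tm M (NC M)} :
    t ∈ (I ⊔ J).S ↔ ∃ i ∈ I.S, ∃ j ∈ J.S, Le t (.s i j) := by
  have : I ⊔ J = join H I J := by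
    apply le_antisymm
    · apply sup_le
      · intro t ht
        exact ⟨t, ht, _, J.bot, Le.sR1 (Le.refl _)⟩
      · intro t ht
        exact ⟨_, I.bot, t, ht, Le.sR2 (Le.refl _)⟩
    · rintro t ⟨i, hi, j, hj, h⟩
      refine (I ⊔ J).dl.down _ _ h ((I ⊔ J).sup _ _ ?_ ?_)
      · exact (le_sup_left : I ≤ I ⊔ J) hi
      · exact (le_sup_right : J ≤ I ⊔ J) hj
  rw [this]
  rfl

end CI

end

end Pool.Agent.H6.Hunt
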