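import Pool.Agent.H6.HIdeal

/-!
# The step construction: embedding, new complements, almost unique complementation
-/

set_option autoImplicit false

namespace Pool.Agent.H6.Hunt

open Filter

section

variable {M : Type} [CompleteLattice M] {c : M → ℕ → Bool}

namespace CI

/-- the principal ideal of a constant -/
def emb (H : Hyp c) (z : M) : CI c where
  S := {t | u t ≤ z}
  dl := ⟨fun _ _ h h' => h.u_le.trans h', fun _ _ _ _ h h' =>
    (h.lemUG H.uc H.inj H.tt).1.le_const H.tt h'⟩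
  sup := fun _ _ h h' => sup_le h h'
  bot := bot_le

/-- the principal ideal of a generator -/
def gn (H : Hyp c) (b : NC M) : CI c where
  S := {t | G b t}
  dl := ⟨fun _ _ h h' => h.G_of h', fun _ U _ _ h h' =>
    (h.lemUG H.uc H.inj H.tt).2 (fun _ => b) b (CC.const c U b.1) h'⟩
  sup := fun _ _ h h' => ⟨h, h'⟩
  bot := rfl

theorem emb_le_iff (H : Hyp c) {z : M} {I : CI c} : emb H z ≤ I ↔ z ≤ I.lI := by
  constructor
  · intro h
    exact I.c_mem_iff.1 (h (show u (.c z : Tm M (NC M)) ≤ z from le_rfl))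
  · intro h t ht
    exact I.mem_of_u_le (le_trans ht h)

theorem le_emb_iff (H : Hyp c) {z : M} {I : CI c} : I ≤ emb H z ↔ ∀ t ∈ I.S, u t ≤ z := Iff.rfl

theorem emb_bot (H : Hyp c) : emb H ⊥ = ⊥ := by
  rw [eq_bot_iff, emb_le_iff]
  exact bot_le

theorem emb_top (H : Hyp c) : emb H ⊤ = ⊤ := by
  rw [eq_top_iff']
  exact (le_rfl : (⊤ : M) ≤ ⊤)

theorem eq_bot_iff' (H : Hyp c) {I : CI c} : I = ⊥ ↔ ∀ t ∈ I.S, u t = ⊥ := by
  rw [← emb_bot H, eq_iff_le_not_lt]
  constructor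
  · rintro ⟨h, -⟩ t ht
    exact le_bot_iff.1 (h ht)
  · intro h
    have h1 : I ≤ emb H ⊥ := fun t ht => (h t ht).le
    refine ⟨h1, fun h2 => h2.not_ge ?_⟩
    rw [emb_bot]
    exact bot_le

theorem emb_inj (H : Hyp c) : Function.Injective (emb H) := by
  have key : ∀ z z' : M, emb H z ≤ emb H z' → z ≤ z' := fun z z' h =>
    h (show u (.c z : Tm M (NC M)) ≤ z from le_rfl)
  intro z z' h
  exact le_antisymm (key _ _ h.le) (key _ _ h.ge)

theorem emb_mono (H : Hyp c) : Monotone (emb H) := fun _ _ h _ ht => le_trans ht h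

theorem lI_emb (H : Hyp c) (z : M) : (emb H z).lI = z := by
  apply le_antisymm
  · exact sSup_le fun w hw => hw
  · exact (emb_le_iff H).1 le_rfl

theorem lo_eq (H : Hyp c) (I : CI c) : lo (emb H) I = I.lI := by
  unfold lo
  apply le_antisymm
  · exact sSup_le fun a ha => (emb_le_iff H).1 ha
  · exact le_sSup ((emb_le_iff H).2 le_rfl)

/-- least constant above the ideal -/
noncomputable def uI (I : CI c) : M := sSup (u '' I.S)

theorem u_le_uI (I : CI c) {t : Tm M (NC M)} (ht : t ∈ I.S) : u t ≤ I.uI := le_sSup ⟨t, ht, rfl⟩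

theorem uI_nonempty (I : CI c) : (u '' I.S).Nonempty := ⟨_, _, I.bot, rfl⟩

theorem uI_directed (I : CI c) : DirectedOn (· ≤ ·) (u '' I.S) := by
  rintro _ ⟨t, ht, rfl⟩ _ ⟨s, hs, rfl⟩
  exact ⟨_, ⟨_, I.sup t s ht hs, rfl⟩, le_sup_left, le_sup_right⟩

theorem le_emb_iff' (H : Hyp c) {z : M} {I : CI c} : I ≤ emb H z ↔ I.uI ≤ z := by
  constructor
  · intro h
    apply sSup_le
    rintro _ ⟨t, ht, rfl⟩
    exact h ht
  · intro h t ht
    exact (I.u_le_uI ht).trans h

theorem up_eq (H : Hyp c) (I : CI c) : up (emb H) I = I.uI := by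
  unfold up
  apply le_antisymm
  · exact sInf_le ((le_emb_iff' H).2 le_rfl)
  · exact le_sInf fun a ha => (le_emb_iff' H).1 ha

theorem emb_sInf (H : Hyp c) (A : Set M) : emb H (sInf A) = sInf (emb H '' A) := by
  apply le_antisymm
  · apply le_sInf
    rintro _ ⟨a, ha, rfl⟩
    exact emb_mono H (sInf_le ha)
  · rw [le_emb_iff]
    intro t ht
    apply le_sInf
    intro a ha
    exact (sInf_le ⟨a, ha, rfl⟩ : sInf (emb H '' A) ≤ emb H a) ht

theorem emb_sSup (H : Hyp c) (A : Set M) : emb H (sSup A) = sSup (emb H '' A) := by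
  apply le_antisymm
  · rw [emb_le_iff]
    apply sSup_le
    intro a ha
    rw [← emb_le_iff H]
    exact le_sSup ⟨a, ha, rfl⟩
  · apply sSup_le
    rintro _ ⟨a, ha, rfl⟩
    exact emb_mono H (le_sSup ha)

theorem uI_bot_iff (H : Hyp c) {I : CI c} : I.uI = ⊥ ↔ I = ⊥ := by
  rw [eq_bot_iff' H]
  constructor
  · intro h t ht
    exact le_bot_iff.1 ((I.u_le_uI ht).trans h.le)
  · intro h
    rw [← le_bot_iff]
    apply sSup_le
    rintro _ ⟨t, ht, rfl⟩
    exact (h t ht).le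

theorem emb_F (H : Hyp c) (I J : CI c) (hI : I.lI ≠ ⊥) (hJ : J.lI ≠ ⊥) :
    (I ⊓ J).uI = I.uI ⊓ J.uI := by
  apply le_antisymm
  · apply sSup_le
    rintro _ ⟨t, ht, rfl⟩
    rw [mem_inf] at ht
    exact le_inf (I.u_le_uI ht.1) (J.u_le_uI ht.2)
  · refine H.uc.two _ _ I.uI_nonempty I.uI_directed J.uI_nonempty J.uI_directed _ ?_
    rintro _ ⟨t, ht, rfl⟩ _ ⟨s, hs, rfl⟩
    have hnc : ¬ Col (.s t (.c I.lI)) (.s s (.c J.lI)) := by
      rintro ⟨b, -, hb | hb⟩
      · exact hI hb.2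
      · exact hJ hb.2
    have hmem : Tm.i (.s t (.c I.lI)) (.s s (.c J.lI)) ∈ (I ⊓ J).S := by
      rw [mem_inf]
      exact ⟨I.dl.down _ _ (Le.iL1 (Le.refl _)) (I.sup _ _ ht I.mem_lI),
        J.dl.down _ _ (Le.iL2 (Le.refl _)) (J.sup _ _ hs J.mem_lI)⟩
    refine le_trans ?_ ((I ⊓ J).u_le_uI hmem)
    rw [u_i_of_not_col hnc]
    exact inf_le_inf le_sup_left le_sup_left

theorem emb_nice (H : Hyp c) : Nice (emb H) where
  inj := emb_inj H
  map_sSup := emb_sSup H
  map_sInf := emb_sInf H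
  F I J hI hJ := by
    rw [lo_eq] at hI hJ
    rw [up_eq, up_eq, up_eq]
    exact emb_F H I J hI hJ

theorem g_mem_gn (H : Hyp c) (b : NC M) : Tm.g b ∈ (gn H b).S := rfl

theorem gn_le_iff (H : Hyp c) {b : NC M} {I : CI c} : gn H b ≤ I ↔ Tm.g b ∈ I.S := by
  constructor
  · intro h
    exact h rfl
  · intro h t ht
    exact I.dl.down _ _ (Le.of_G ht) h

theorem isCompl_gn (H : Hyp c) (b : NC M) : IsCompl (emb H b.1) (gn H b) := by
  rw [isCompl_iff, disjoint_iff, codisjoint_iff, eq_bot_iff' H, eq_top_iff', mem_sup H]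
  constructor
  · intro t ht
    rw [mem_inf] at ht
    exact u_bot_of ht.1 ht.2
  · refine ⟨.c b.1, (le_rfl : b.1 ≤ b.1), .g b, rfl, Le.m ?_⟩
    have : Coj (.c b.1 : Tm M (NC M)) (.g b) := ⟨b, le_sup_left, Or.inr rfl⟩
    rw [l_s_of_coj this]
    exact le_top

/-- Joins equal to top. -/
theorem top_cases (H : Hyp c) {I J : CI c} (h : I ⊔ J = ⊤) :
    I.lI ⊔ J.lI = ⊤ ∨ ∃ b : NC M, b.1 ≤ I.lI ⊔ J.lI ∧ (Tm.g b ∈ I.S ∨ Tm.g b ∈ J.S) := by
  rw [eq_top_iff', mem_sup H] at h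
  obtain ⟨i, hi, j, hj, h⟩ := h
  rw [c_le_iff] at h
  by_cases hc : Coj i j
  · right
    obtain ⟨b, hb, hb'⟩ := hc
    refine ⟨b, hb.trans (sup_le_sup (I.l_le_lI hi) (J.l_le_lI hj)), ?_⟩
    rcases hb' with hb' | hb'
    · exact Or.inl (I.dl.down _ _ (Le.of_H hb') hi)
    · exact Or.inr (J.dl.down _ _ (Le.of_H hb') hj)
  · left
    rw [l_s_of_not_coj hc] at h
    rw [← top_le_iff]
    exact h.trans (sup_le_sup (I.l_le_lI hi) (J.l_le_lI hj))

/-- the generators occurring in a term -/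
def gens : Tm M (NC M) → List (NC M)
  | .c _ => []
  | .g b => [b]
  | .s t t' => gens t ++ gens t'
  | .i t t' => gens t ++ gens t'

theorem mem_gens {t : Tm M (NC M)} {b : NC M} (h : G b t) (h' : u t ≠ ⊥) : b ∈ gens t := by
  induction t with
  | c z => exact absurd h h'
  | g b' =>
    obtain rfl : b = b' := h
    simp [gens]
  | s t t' ih ih' =>
    rw [gens, List.mem_append]
    by_cases h1 : u t = ⊥
    · right
      refine ih' h.2 fun h2 => h' ?_
      rw [u_s, h1, h2, sup_bot_eq]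
    · exact Or.inl (ih h.1 h1)
  | i t t' ih ih' =>
    rw [gens, List.mem_append]
    have h3 : u t ≠ ⊥ := fun h3 => h' (le_bot_iff.1 ((u_i_le _ _).trans
        (inf_le_left.trans h3.le)))
    have h3' : u t' ≠ ⊥ := fun h3 => h' (le_bot_iff.1 ((u_i_le _ _).trans
        (inf_le_right.trans h3.le)))
    rcases (G_i _ _ _).1 h with h | h | h
    · exact Or.inl (ih h h3)
    · exact Or.inr (ih' h h3')
    · exact absurd h h'

/-- Meets equal to bottom. -/
theorem bot_cases (H : Hyp c) {I J : CI c} (h : I ⊓ J = ⊥) :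
    I.uI ⊓ J.uI = ⊥ ∨ ∃ b : NC M, I.uI ⊓ J.uI ≤ b.1 ∧ (I ≤ gn H b ∨ J ≤ gn H b) := by
  by_cases hne : I.uI ⊓ J.uI = ⊥
  · exact Or.inl hne
  right
  -- a pair of terms with nonzero meet of upper approximations
  have h0 : ∃ t ∈ I.S, ∃ s ∈ J.S, u t ⊓ u s ≠ ⊥ := by
    by_contra hcon
    push Not at hcon
    apply hne
    rw [← le_bot_iff]
    refine H.uc.two _ _ I.uI_nonempty I.uI_directed J.uI_nonempty J.uI_directed _ ?_
    rintro _ ⟨t, ht, rfl⟩ _ ⟨s, hs, rfl⟩
    exact (hcon t ht s hs).le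
  obtain ⟨t₀, ht₀, s₀, hs₀, hts⟩ := h0
  have hcol : ∀ t ∈ I.S, ∀ s ∈ J.S, Col (.s t t₀) (.s s s₀) := by
    intro t ht s hs
    by_contra hnc
    have h1 : Tm.i (.s t t₀) (.s s s₀) ∈ (I ⊓ J).S := by
      rw [mem_inf]
      exact ⟨I.dl.down _ _ (Le.iL1 (Le.refl _)) (I.sup _ _ ht ht₀),
        J.dl.down _ _ (Le.iL2 (Le.refl _)) (J.sup _ _ hs hs₀)⟩
    have h2 := (eq_bot_iff' H).1 h _ h1
    rw [u_i_of_not_col hnc] at h2
    apply hts
    rw [← le_bot_iff, ← h2]
    exact inf_le_inf le_sup_right le_sup_right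
  -- finitely many possible choices
  let L : List (NC M) := gens t₀ ++ gens s₀
  have hL : ∀ t ∈ I.S, ∀ s ∈ J.S, ∃ b ∈ L, u t ⊓ u s ≤ b.1 ∧ (G b t ∨ G b s) ∧
      (G b t ∧ G b t₀ ∨ G b s ∧ G b s₀) := by
    intro t ht s hs
    obtain ⟨b, hb, hb'⟩ := hcol t ht s hs
    have hle : u t ⊓ u s ≤ b.1 := (inf_le_inf le_sup_left le_sup_left).trans hb
    rcases hb' with hb' | hb'
    · refine ⟨b, ?_, hle, Or.inl hb'.1, Or.inl hb'⟩
      exact List.mem_append.2 (Or.inl (mem_gens hb'.2 fun h => hts (by rw [h, bot_inf_eq])))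
    · refine ⟨b, ?_, hle, Or.inr hb'.1, Or.inr hb'⟩
      exact List.mem_append.2 (Or.inr (mem_gens hb'.2 fun h => hts (by rw [h, inf_bot_eq])))
  by_contra hcon
  push Not at hcon
  -- for each `b` in the list find a failing pair
  have hfail : ∀ b : NC M, ∃ t ∈ I.S, ∃ s ∈ J.S,
      ¬ (u t ⊓ u s ≤ b.1 ∧ (G b t ∨ G b s)) := by
    intro b
    by_cases hb : I.uI ⊓ J.uI ≤ b.1
    · obtain ⟨h1, h2⟩ := hcon b hb
      have h1' : ∃ t ∈ I.S, ¬ G b t := by
        by_contra h3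
        push Not at h3
        exact h1 h3
      have h2' : ∃ t ∈ J.S, ¬ G b t := by
        by_contra h3
        push Not at h3
        exact h2 h3
      obtain ⟨t, ht, ht'⟩ := h1'
      obtain ⟨s, hs, hs'⟩ := h2'
      exact ⟨t, ht, s, hs, fun h => h.2.elim ht' hs'⟩
    · by_contra h3
      push Not at h3
      apply hb
      refine H.uc.two _ _ I.uI_nonempty I.uI_directed J.uI_nonempty J.uI_directed _ ?_
      rintro _ ⟨t, ht, rfl⟩ _ ⟨s, hs, rfl⟩
      exact (h3 t ht s hs).1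
  have hall : ∀ L : List (NC M), ∃ t ∈ I.S, ∃ s ∈ J.S, ∀ b ∈ L,
      ¬ (u t ⊓ u s ≤ b.1 ∧ (G b t ∨ G b s)) := by
    intro L
    induction L with
    | nil => exact ⟨t₀, ht₀, s₀, hs₀, by simp⟩
    | cons b L ih =>
      obtain ⟨t, ht, s, hs, h1⟩ := ih
      obtain ⟨t', ht', s', hs', h2⟩ := hfail b
      refine ⟨.s t t', I.sup _ _ ht ht', .s s s', J.sup _ _ hs hs', ?_⟩
      intro b' hb'
      rcases List.mem_cons.1 hb' with rfl | hb'
      · rintro ⟨h3, h4⟩
        refine h2 ⟨(inf_le_inf le_sup_right le_sup_right).trans h3, ?_⟩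
        rcases h4 with h4 | h4
        · exact Or.inl h4.2
        · exact Or.inr h4.2
      · rintro ⟨h3, h4⟩
        refine h1 b' hb' ⟨(inf_le_inf le_sup_left le_sup_left).trans h3, ?_⟩
        rcases h4 with h4 | h4
        · exact Or.inl h4.1
        · exact Or.inr h4.1
  obtain ⟨t, ht, s, hs, h1⟩ := hall L
  obtain ⟨b, hb, hb1, hb2, -⟩ := hL t ht s hs
  exact h1 b hb ⟨hb1, hb2⟩

theorem lI_le_uI (I : CI c) : I.lI ≤ I.uI := I.u_le_uI I.mem_lI

theorem lI_mono {I J : CI c} (h : I ≤ J) : I.lI ≤ J.lI := sSup_le_sSup fun _ hz => h hz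

/-- Classification of complementary pairs. -/
theorem compl_cases (H : Hyp c) {I J : CI c} (h : IsCompl I J) :
    (∃ z z' : M, IsCompl z z' ∧ I = emb H z ∧ J = emb H z') ∨
    (∃ b : NC M, I = emb H b.1 ∧ J = gn H b) ∨
    (∃ b : NC M, I = gn H b ∧ J = emb H b.1) := by
  rw [isCompl_iff, disjoint_iff, codisjoint_iff] at h
  obtain ⟨h1, h2⟩ := h
  -- trivial pairs
  have triv1 : I = ⊥ → J = ⊤ := fun h => by rwa [h, bot_sup_eq] at h2
  have triv2 : J = ⊥ → I = ⊤ := fun h => by rwa [h, sup_bot_eq] at h2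
  have triv3 : I = ⊤ → J = ⊥ := fun h => by rwa [h, top_inf_eq] at h1
  have triv4 : J = ⊤ → I = ⊥ := fun h => by rwa [h, inf_top_eq] at h1
  have T1 : I = ⊥ → (∃ z z' : M, IsCompl z z' ∧ I = emb H z ∧ J = emb H z') := fun h =>
    ⟨⊥, ⊤, isCompl_bot_top, by rw [h, emb_bot], by rw [triv1 h, emb_top]⟩
  have T2 : J = ⊥ → (∃ z z' : M, IsCompl z z' ∧ I = emb H z ∧ J = emb H z') := fun h =>
    ⟨⊤, ⊥, isCompl_top_bot, by rw [triv2 h, emb_top], by rw [h, emb_bot]⟩
  -- facts on ideals below or above a generator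
  have F1 : ∀ (K : CI c) (b : NC M), K ≤ gn H b → K.lI = ⊥ := by
    intro K b hK
    exact hK K.mem_lI
  have F2 : ∀ (K : CI c) (b : NC M), Tm.g b ∈ K.S → K.uI = ⊤ := by
    intro K b hK
    rw [← top_le_iff]
    exact K.u_le_uI hK
  have F3 : ∀ (K : CI c) (b : NC M), Tm.g b ∈ K.S → b.1 ≤ K.lI → K = ⊤ := by
    intro K b hK hb
    have h3 : emb H b.1 ⊔ gn H b ≤ K := sup_le ((emb_le_iff H).2 hb) ((gn_le_iff H).2 hK)
    rw [(isCompl_iff.1 (isCompl_gn H b)).2.eq_top] at h3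
    exact top_le_iff.1 h3
  have F4 : ∀ (K : CI c) (b b' : NC M), Tm.g b' ∈ K.S → K ≤ gn H b → K = gn H b := by
    intro K b b' hK hb
    obtain rfl : b = b' := hb hK
    exact le_antisymm hb ((gn_le_iff H).2 hK)
  rcases bot_cases H h1 with hA | ⟨b, hb, hb'⟩
  · rcases top_cases H h2 with hB | ⟨b', hb1, hb2⟩
    · -- both old
      have e1 : IsCompl I.uI J.uI := by
        rw [isCompl_iff, disjoint_iff, codisjoint_iff]
        refine ⟨hA, ?_⟩
        rw [← top_le_iff, ← hB]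
        exact sup_le_sup I.lI_le_uI J.lI_le_uI
      have e2 : IsCompl I.lI J.uI := by
        rw [isCompl_iff, disjoint_iff, codisjoint_iff]
        refine ⟨?_, ?_⟩
        · rw [← le_bot_iff, ← hA]
          exact inf_le_inf I.lI_le_uI le_rfl
        · rw [← top_le_iff, ← hB]
          exact sup_le_sup le_rfl J.lI_le_uI
      have e3 : IsCompl I.uI J.lI := by
        rw [isCompl_iff, disjoint_iff, codisjoint_iff]
        refine ⟨?_, ?_⟩
        · rw [← le_bot_iff, ← hA]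
          exact inf_le_inf le_rfl J.lI_le_uI
        · rw [← top_le_iff, ← hB]
          exact sup_le_sup I.lI_le_uI le_rfl
      have f1 : I.uI = I.lI := H.au _ _ _ e1.symm e2.symm
      have f2 : J.uI = J.lI := H.au _ _ _ e1 e3
      refine Or.inl ⟨I.uI, J.uI, e1, ?_, ?_⟩
      · apply le_antisymm
        · exact (le_emb_iff' H).2 le_rfl
        · rw [emb_le_iff, f1]
      · apply le_antisymm
        · exact (le_emb_iff' H).2 le_rfl
        · rw [emb_le_iff, f2]
    · -- a generator in one of the ideals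
      rcases hb2 with hb2 | hb2
      · have := F2 I b' hb2
        rw [this, top_inf_eq, uI_bot_iff H] at hA
        exact Or.inl (T2 hA)
      · have := F2 J b' hb2
        rw [this, inf_top_eq, uI_bot_iff H] at hA
        exact Or.inl (T1 hA)
  · rcases top_cases H h2 with hB | ⟨b', hb1, hb2⟩
    · rcases hb' with hb' | hb'
      · rw [F1 I b hb', bot_sup_eq, ← eq_top_iff_lI] at hB
        exact Or.inl (T1 (triv4 hB))
      · rw [F1 J b hb', sup_bot_eq, ← eq_top_iff_lI] at hB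
        exact Or.inl (T2 (triv3 hB))
    · rcases hb' with hb' | hb'
      · -- `I ≤ gn b`
        rw [F1 I b hb', bot_sup_eq] at hb1
        rcases hb2 with hb2 | hb2
        · have hI := F4 I b b' hb2 hb'
          obtain rfl : b = b' := hb' hb2
          rw [F2 I b hb2, top_inf_eq] at hb
          right; right
          refine ⟨b, hI, le_antisymm ((le_emb_iff' H).2 hb) ((emb_le_iff H).2 hb1)⟩
        · exact Or.inl (T1 (triv4 (F3 J b' hb2 hb1)))
      · rw [F1 J b hb', sup_bot_eq] at hb1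
        rcases hb2 with hb2 | hb2
        · exact Or.inl (T2 (triv3 (F3 I b' hb2 hb1)))
        · have hJ := F4 J b b' hb2 hb'
          obtain rfl : b = b' := hb' hb2
          rw [F2 J b hb2, inf_top_eq] at hb
          right; left
          refine ⟨b, le_antisymm ((le_emb_iff' H).2 hb) ((emb_le_iff H).2 hb1), hJ⟩

theorem emb_ne_gn (H : Hyp c) (z : M) (b : NC M) : emb H z ≠ gn H b := by
  intro h
  have h1 : Tm.g b ∈ (emb H z).S := by rw [h]; exact g_mem_gn H b
  have h2 : Tm.c z ∈ (gn H b).S := by rw [← h]; exact (le_rfl : z ≤ z)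
  have h3 : z = ⊤ := top_le_iff.1 h1
  have h4 : z = ⊥ := h2
  apply b.ne_bot
  rw [← le_bot_iff, ← h4, h3]
  exact le_top

theorem au (H : Hyp c) (I J J' : CI c) (h : IsCompl I J) (h' : IsCompl I J') : J = J' := by
  rcases compl_cases H h with ⟨z, z', hz, rfl, rfl⟩ | ⟨b, rfl, rfl⟩ | ⟨b, rfl, rfl⟩
  · rcases compl_cases H h' with ⟨w, w', hw, e, rfl⟩ | ⟨b, e, rfl⟩ | ⟨b, e, rfl⟩
    · obtain rfl := emb_inj H e
      rw [H.au z z' w' hz hw]
    · obtain rfl := emb_inj H e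
      exact absurd hz (b.2 z')
    · exact absurd e (emb_ne_gn H _ _)
  · rcases compl_cases H h' with ⟨w, w', hw, e, rfl⟩ | ⟨b', e, rfl⟩ | ⟨b', e, rfl⟩
    · obtain rfl := emb_inj H e
      exact absurd hw (b.2 w')
    · have := Subtype.ext (emb_inj H e)
      rw [this]
    · exact absurd e (emb_ne_gn H _ _)
  · rcases compl_cases H h' with ⟨w, w', hw, e, rfl⟩ | ⟨b', e, rfl⟩ | ⟨b', e, rfl⟩
    · exact absurd e.symm (emb_ne_gn H _ _)
    · exact absurd e.symm (emb_ne_gn H _ _)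
    · have h1 : Tm.g b ∈ (gn H b').S := by rw [← e]; exact g_mem_gn H b
      have h2 : b' = b := h1
      rw [h2]

end CI

end

end Pool.Agent.H6.Hunt
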