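import Pool.Agent.H6.HBasic

/-!
# Terms over a lattice with new complements

For a complete lattice `M`, `NC M` is the type of elements without a complement.
We study lattice terms over `M` and one new generator `g b` for each `b : NC M`
(the future complement of `b`), with a Whitman style order.
-/

set_option autoImplicit false

namespace Pool.Agent.H6.Hunt

/-- Lattice terms with two kinds of leaves. -/
inductive Tm (A B : Type) : Type
  | c : A → Tm A B
  | g : B → Tm A B
  | s : Tm A B → Tm A B → Tm A B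
  | i : Tm A B → Tm A B → Tm A B

/-- Elements without a complement. -/
abbrev NC (M : Type) [CompleteLattice M] : Type := {b : M // ∀ b', ¬ IsCompl b b'}

section

variable {M : Type} [CompleteLattice M]

theorem NC.ne_bot (b : NC M) : b.1 ≠ ⊥ := fun h => b.2 ⊤ (by rw [h]; exact isCompl_bot_top)

theorem NC.ne_top (b : NC M) : b.1 ≠ ⊤ := fun h => b.2 ⊥ (by rw [h]; exact isCompl_top_bot)

open Classical in
/-- Joint definition of the upper approximation and of the relation `· ≤ g b`. -/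
noncomputable def UG : Tm M (NC M) → M × (NC M → Prop)
  | .c z => (z, fun _ => z = ⊥)
  | .g b => (⊤, fun b' => b' = b)
  | .s t t' => ((UG t).1 ⊔ (UG t').1, fun b => (UG t).2 b ∧ (UG t').2 b)
  | .i t t' =>
      (if ∃ b : NC M, (UG t).1 ⊓ (UG t').1 ≤ b.1 ∧ ((UG t).2 b ∨ (UG t').2 b) then ⊥
        else (UG t).1 ⊓ (UG t').1,
      fun b => (UG t).2 b ∨ (UG t').2 b ∨
        (if ∃ b : NC M, (UG t).1 ⊓ (UG t').1 ≤ b.1 ∧ ((UG t).2 b ∨ (UG t').2 b) then ⊥
        else (UG t).1 ⊓ (UG t').1) = ⊥)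

open Classical in
/-- Joint definition of the lower approximation and of the relation `g b ≤ ·`. -/
noncomputable def LH : Tm M (NC M) → M × (NC M → Prop)
  | .c z => (z, fun _ => z = ⊤)
  | .g b => (⊥, fun b' => b' = b)
  | .i t t' => ((LH t).1 ⊓ (LH t').1, fun b => (LH t).2 b ∧ (LH t').2 b)
  | .s t t' =>
      (if ∃ b : NC M, b.1 ≤ (LH t).1 ⊔ (LH t').1 ∧ ((LH t).2 b ∨ (LH t').2 b) then ⊤
        else (LH t).1 ⊔ (LH t').1,
      fun b => (LH t).2 b ∨ (LH t').2 b ∨
        (if ∃ b : NC M, b.1 ≤ (LH t).1 ⊔ (LH t').1 ∧ ((LH t).2 b ∨ (LH t').2 b) then ⊤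
        else (LH t).1 ⊔ (LH t').1) = ⊤)

/-- upper approximation of a term -/
noncomputable def u (t : Tm M (NC M)) : M := (UG t).1

/-- lower approximation of a term -/
noncomputable def l (t : Tm M (NC M)) : M := (LH t).1

/-- the term is below the generator `g b` -/
def G (b : NC M) (t : Tm M (NC M)) : Prop := (UG t).2 b

/-- the generator `g b` is below the term -/
def H (b : NC M) (t : Tm M (NC M)) : Prop := (LH t).2 b

@[simp] theorem u_c (z : M) : u (.c z : Tm M (NC M)) = z := rfl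
@[simp] theorem u_g (b : NC M) : u (.g b : Tm M (NC M)) = ⊤ := rfl
@[simp] theorem u_s (t t' : Tm M (NC M)) : u (.s t t') = u t ⊔ u t' := rfl
@[simp] theorem G_c (b : NC M) (z : M) : G b (.c z) ↔ z = ⊥ := Iff.rfl
@[simp] theorem G_g (b b' : NC M) : G b (.g b') ↔ b = b' := Iff.rfl
@[simp] theorem G_s (b : NC M) (t t' : Tm M (NC M)) : G b (.s t t') ↔ G b t ∧ G b t' := Iff.rfl

/-- the collapse condition for meets -/
def Col (t t' : Tm M (NC M)) : Prop := ∃ b : NC M, u t ⊓ u t' ≤ b.1 ∧ (G b t ∨ G b t')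

theorem u_i_of_col {t t' : Tm M (NC M)} (h : Col t t') : u (.i t t') = ⊥ := if_pos h

theorem u_i_of_not_col {t t' : Tm M (NC M)} (h : ¬ Col t t') : u (.i t t') = u t ⊓ u t' :=
  if_neg h

theorem G_i (b : NC M) (t t' : Tm M (NC M)) :
    G b (.i t t') ↔ G b t ∨ G b t' ∨ u (.i t t') = ⊥ := Iff.rfl

theorem u_i_le (t t' : Tm M (NC M)) : u (.i t t') ≤ u t ⊓ u t' := by
  by_cases h : Col t t'
  · rw [u_i_of_col h]; exact bot_le
  · rw [u_i_of_not_col h]

@[simp] theorem l_c (z : M) : l (.c z : Tm M (NC M)) = z := rfl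
@[simp] theorem l_g (b : NC M) : l (.g b : Tm M (NC M)) = ⊥ := rfl
@[simp] theorem l_i (t t' : Tm M (NC M)) : l (.i t t') = l t ⊓ l t' := rfl
@[simp] theorem H_c (b : NC M) (z : M) : H b (.c z) ↔ z = ⊤ := Iff.rfl
@[simp] theorem H_g (b b' : NC M) : H b (.g b') ↔ b = b' := Iff.rfl
@[simp] theorem H_i (b : NC M) (t t' : Tm M (NC M)) : H b (.i t t') ↔ H b t ∧ H b t' := Iff.rfl

/-- the collapse condition for joins -/
def Coj (t t' : Tm M (NC M)) : Prop := ∃ b : NC M, b.1 ≤ l t ⊔ l t' ∧ (H b t ∨ H b t')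

theorem l_s_of_coj {t t' : Tm M (NC M)} (h : Coj t t') : l (.s t t') = ⊤ := if_pos h

theorem l_s_of_not_coj {t t' : Tm M (NC M)} (h : ¬ Coj t t') : l (.s t t') = l t ⊔ l t' :=
  if_neg h

theorem H_s (b : NC M) (t t' : Tm M (NC M)) :
    H b (.s t t') ↔ H b t ∨ H b t' ∨ l (.s t t') = ⊤ := Iff.rfl

theorem l_s_ge (t t' : Tm M (NC M)) : l t ⊔ l t' ≤ l (.s t t') := by
  by_cases h : Coj t t'
  · rw [l_s_of_coj h]; exact le_top
  · rw [l_s_of_not_coj h]

theorem l_s_cases (t t' : Tm M (NC M)) : l (.s t t') = l t ⊔ l t' ∨ l (.s t t') = ⊤ := by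
  by_cases h : Coj t t'
  · exact Or.inr (l_s_of_coj h)
  · exact Or.inl (l_s_of_not_coj h)

/-- (3) -/
theorem G_of_u_bot {t : Tm M (NC M)} (h : u t = ⊥) (b : NC M) : G b t := by
  induction t with
  | c z => exact h
  | g b' =>
    exfalso
    apply b.ne_bot
    rw [← le_bot_iff, ← h]
    exact le_top
  | s t t' iht iht' =>
    rw [u_s, sup_eq_bot_iff] at h
    exact ⟨iht h.1, iht' h.2⟩
  | i t t' iht iht' => exact Or.inr (Or.inr h)

/-- (3') -/
theorem H_of_l_top {t : Tm M (NC M)} (h : l t = ⊤) (b : NC M) : H b t := by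
  induction t with
  | c z => exact h
  | g b' =>
    exfalso
    apply b.ne_bot
    rw [← le_bot_iff, ← l_g b', h]
    exact le_top
  | i t t' iht iht' =>
    rw [l_i, inf_eq_top_iff] at h
    exact ⟨iht h.1, iht' h.2⟩
  | s t t' iht iht' => exact Or.inr (Or.inr h)

/-- Lemma B -/
theorem u_bot_of {t : Tm M (NC M)} {b : NC M} (h : u t ≤ b.1) (hG : G b t) : u t = ⊥ := by
  induction t with
  | c z => exact hG
  | g b' =>
    exfalso
    exact b.ne_top (top_le_iff.1 h)
  | s t t' iht iht' =>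
    rw [u_s, sup_le_iff] at h
    rw [u_s, iht h.1 hG.1, iht' h.2 hG.2, sup_bot_eq]
  | i t t' iht iht' =>
    by_cases hc : Col t t'
    · exact u_i_of_col hc
    · rcases (G_i b t t').1 hG with h1 | h1 | h1
      · exact absurd ⟨b, (u_i_of_not_col hc).symm.le.trans h, Or.inl h1⟩ hc
      · exact absurd ⟨b, (u_i_of_not_col hc).symm.le.trans h, Or.inr h1⟩ hc
      · exact h1

/-- Lemma B, dual -/
theorem l_top_of {t : Tm M (NC M)} {b : NC M} (h : b.1 ≤ l t) (hH : H b t) : l t = ⊤ := by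
  induction t with
  | c z => exact hH
  | g b' =>
    exfalso
    exact b.ne_bot (le_bot_iff.1 h)
  | i t t' iht iht' =>
    rw [l_i, le_inf_iff] at h
    rw [l_i, iht h.1 hH.1, iht' h.2 hH.2, inf_top_eq]
  | s t t' iht iht' =>
    by_cases hc : Coj t t'
    · exact l_s_of_coj hc
    · rcases (H_s b t t').1 hH with h1 | h1 | h1
      · exact absurd ⟨b, h.trans (l_s_of_not_coj hc).le, Or.inl h1⟩ hc
      · exact absurd ⟨b, h.trans (l_s_of_not_coj hc).le, Or.inr h1⟩ hc
      · exact h1

/-- `l ≤ u` together with the consequences of `G` and `H`. -/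
theorem l_le_u_aux (t : Tm M (NC M)) :
    l t ≤ u t ∧ (∀ b, G b t → l t = ⊥) ∧ (∀ b, H b t → u t = ⊤) := by
  induction t with
  | c z => exact ⟨le_rfl, fun _ h => h, fun _ h => h⟩
  | g b' => exact ⟨bot_le, fun _ _ => rfl, fun _ _ => rfl⟩
  | s t t' iht iht' =>
    obtain ⟨h1, h2, h3⟩ := iht
    obtain ⟨h1', h2', h3'⟩ := iht'
    have hle : l (.s t t') ≤ u (.s t t') := by
      by_cases hc : Coj t t'
      · obtain ⟨b, hb, hb' | hb'⟩ := hc
        · rw [u_s, h3 b hb', top_sup_eq]; exact le_top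
        · rw [u_s, h3' b hb', sup_top_eq]; exact le_top
      · rw [l_s_of_not_coj hc, u_s]
        exact sup_le_sup h1 h1'
    refine ⟨hle, ?_, ?_⟩
    · rintro b ⟨hb, hb'⟩
      by_cases hc : Coj t t'
      · obtain ⟨b', hb1, hb2⟩ := hc
        rw [h2 b hb, h2' b hb', sup_bot_eq] at hb1
        exact absurd (le_bot_iff.1 hb1) b'.ne_bot
      · rw [l_s_of_not_coj hc, h2 b hb, h2' b hb', sup_bot_eq]
    · intro b hb
      rcases (H_s b t t').1 hb with hb | hb | hb
      · rw [u_s, h3 b hb, top_sup_eq]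
      · rw [u_s, h3' b hb, sup_top_eq]
      · rw [← top_le_iff, ← hb]; exact hle
  | i t t' iht iht' =>
    obtain ⟨h1, h2, h3⟩ := iht
    obtain ⟨h1', h2', h3'⟩ := iht'
    have hle : l (.i t t') ≤ u (.i t t') := by
      by_cases hc : Col t t'
      · obtain ⟨b, hb, hb' | hb'⟩ := hc
        · rw [l_i, h2 b hb', bot_inf_eq]; exact bot_le
        · rw [l_i, h2' b hb', inf_bot_eq]; exact bot_le
      · rw [u_i_of_not_col hc, l_i]
        exact inf_le_inf h1 h1'
    refine ⟨hle, ?_, ?_⟩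
    · intro b hb
      rcases (G_i b t t').1 hb with hb | hb | hb
      · rw [l_i, h2 b hb, bot_inf_eq]
      · rw [l_i, h2' b hb, inf_bot_eq]
      · rw [← le_bot_iff, ← hb]; exact hle
    · rintro b ⟨hb, hb'⟩
      by_cases hc : Col t t'
      · obtain ⟨b', hb1, hb2⟩ := hc
        rw [h3 b hb, h3' b hb', inf_top_eq] at hb1
        exact absurd (top_le_iff.1 hb1) b'.ne_top
      · rw [u_i_of_not_col hc, h3 b hb, h3' b hb', inf_top_eq]

theorem l_le_u (t : Tm M (NC M)) : l t ≤ u t := (l_le_u_aux t).1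
theorem l_bot_of_G {t : Tm M (NC M)} {b : NC M} (h : G b t) : l t = ⊥ := (l_le_u_aux t).2.1 b h
theorem u_top_of_H {t : Tm M (NC M)} {b : NC M} (h : H b t) : u t = ⊤ := (l_le_u_aux t).2.2 b h

/-- The order on terms. -/
inductive Le : Tm M (NC M) → Tm M (NC M) → Prop
  | m {t r : Tm M (NC M)} : u t ≤ l r → Le t r
  | gen (b : NC M) : Le (.g b) (.g b)
  | sL {t t' r : Tm M (NC M)} : Le t r → Le t' r → Le (.s t t') r
  | iL1 {t t' r : Tm M (NC M)} : Le t r → Le (.i t t') r
  | iL2 {t t' r : Tm M (NC M)} : Le t' r → Le (.i t t') r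
  | iR {t r r' : Tm M (NC M)} : Le t r → Le t r' → Le t (.i r r')
  | sR1 {t r r' : Tm M (NC M)} : Le t r → Le t (.s r r')
  | sR2 {t r r' : Tm M (NC M)} : Le t r' → Le t (.s r r')

/-- Lemma A -/
theorem Le.lemA {t r : Tm M (NC M)} (h : Le t r) :
    u t ≤ u r ∧ l t ≤ l r ∧ (∀ b, G b r → G b t) ∧ (∀ b, H b t → H b r) := by
  induction h with
  | @m t r h =>
    refine ⟨h.trans (l_le_u r), (l_le_u t).trans h, ?_, ?_⟩
    · intro b hb
      apply G_of_u_bot
      rw [← le_bot_iff, ← l_bot_of_G hb]; exact h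
    · intro b hb
      apply H_of_l_top
      rw [← top_le_iff, ← u_top_of_H hb]; exact h
  | gen b => exact ⟨le_rfl, le_rfl, fun _ h => h, fun _ h => h⟩
  | @sL t t' r _ _ ih ih' =>
    obtain ⟨h1, h2, h3, h4⟩ := ih
    obtain ⟨h1', h2', h3', h4'⟩ := ih'
    have hl : l (.s t t') ≤ l r := by
      by_cases hc : Coj t t'
      · obtain ⟨b, hb, hb'⟩ := hc
        have : l r = ⊤ := by
          apply l_top_of (hb.trans (sup_le h2 h2'))
          rcases hb' with hb' | hb'
          · exact h4 b hb'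
          · exact h4' b hb'
        rw [this]; exact le_top
      · rw [l_s_of_not_coj hc]
        exact sup_le h2 h2'
    refine ⟨sup_le h1 h1', hl, fun b hb => ⟨h3 b hb, h3' b hb⟩, ?_⟩
    intro b hb
    rcases (H_s b t t').1 hb with hb | hb | hb
    · exact h4 b hb
    · exact h4' b hb
    · apply H_of_l_top
      rw [← top_le_iff, ← hb]; exact hl
  | @iL1 t t' r _ ih =>
    obtain ⟨h1, h2, h3, h4⟩ := ih
    exact ⟨(u_i_le t t').trans (inf_le_left.trans h1), inf_le_left.trans h2,
      fun b hb => Or.inl (h3 b hb), fun b hb => h4 b hb.1⟩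
  | @iL2 t t' r _ ih =>
    obtain ⟨h1, h2, h3, h4⟩ := ih
    exact ⟨(u_i_le t t').trans (inf_le_right.trans h1), inf_le_right.trans h2,
      fun b hb => Or.inr (Or.inl (h3 b hb)), fun b hb => h4 b hb.2⟩
  | @iR t r r' _ _ ih ih' =>
    obtain ⟨h1, h2, h3, h4⟩ := ih
    obtain ⟨h1', h2', h3', h4'⟩ := ih'
    have hl : u t ≤ u (.i r r') := by
      by_cases hc : Col r r'
      · obtain ⟨b, hb, hb'⟩ := hc
        have : u t = ⊥ := by
          apply u_bot_of ((le_inf h1 h1').trans hb)
          rcases hb' with hb' | hb'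
          · exact h3 b hb'
          · exact h3' b hb'
        rw [this]; exact bot_le
      · rw [u_i_of_not_col hc]
        exact le_inf h1 h1'
    refine ⟨hl, le_inf h2 h2', ?_, fun b hb => ⟨h4 b hb, h4' b hb⟩⟩
    intro b hb
    rcases (G_i b r r').1 hb with hb | hb | hb
    · exact h3 b hb
    · exact h3' b hb
    · apply G_of_u_bot
      rw [← le_bot_iff, ← hb]; exact hl
  | @sR1 t r r' _ ih =>
    obtain ⟨h1, h2, h3, h4⟩ := ih
    exact ⟨h1.trans le_sup_left, h2.trans (le_sup_left.trans (l_s_ge r r')),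
      fun b hb => h3 b hb.1, fun b hb => Or.inl (h4 b hb)⟩
  | @sR2 t r r' _ ih =>
    obtain ⟨h1, h2, h3, h4⟩ := ih
    exact ⟨h1.trans le_sup_right, h2.trans (le_sup_right.trans (l_s_ge r r')),
      fun b hb => h3 b hb.2, fun b hb => Or.inr (Or.inl (h4 b hb))⟩

theorem Le.u_le {t r : Tm M (NC M)} (h : Le t r) : u t ≤ u r := h.lemA.1
theorem Le.l_le {t r : Tm M (NC M)} (h : Le t r) : l t ≤ l r := h.lemA.2.1
theorem Le.G_of {t r : Tm M (NC M)} (h : Le t r) {b : NC M} (hb : G b r) : G b t :=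
  h.lemA.2.2.1 b hb
theorem Le.H_of {t r : Tm M (NC M)} (h : Le t r) {b : NC M} (hb : H b t) : H b r :=
  h.lemA.2.2.2 b hb

theorem Le.refl (t : Tm M (NC M)) : Le t t := by
  induction t with
  | c z => exact Le.m le_rfl
  | g b => exact Le.gen b
  | s t t' ih ih' => exact Le.sL (Le.sR1 ih) (Le.sR2 ih')
  | i t t' ih ih' => exact Le.iR (Le.iL1 ih) (Le.iL2 ih')

/-- size of a term -/
def sz : Tm M (NC M) → ℕ
  | .c _ => 1
  | .g _ => 1
  | .s t t' => sz t + sz t' + 1
  | .i t t' => sz t + sz t' + 1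

theorem Le.trans_aux (n : ℕ) : ∀ t r p : Tm M (NC M), sz t + sz r + sz p ≤ n →
    Le t r → Le r p → Le t p := by
  induction n with
  | zero =>
    intro t r p hn
    exfalso
    cases t <;> simp [sz] at hn
  | succ n IH =>
    intro t r p hn h1 h2
    cases h1 with
    | m h => exact Le.m (h.trans h2.l_le)
    | gen b => exact h2
    | @sL t t' _ h h' =>
      simp only [sz] at hn
      exact Le.sL (IH t r p (by omega) h h2) (IH t' r p (by omega) h' h2)
    | @iL1 t t' _ h =>
      simp only [sz] at hn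
      exact Le.iL1 (IH t r p (by omega) h h2)
    | @iL2 t t' _ h =>
      simp only [sz] at hn
      exact Le.iL2 (IH t' r p (by omega) h h2)
    | @iR _ r r' h h' =>
      have h1 : Le t (.i r r') := Le.iR h h'
      cases h2 with
      | m h2 => exact Le.m (h1.u_le.trans h2)
      | iL1 k =>
        simp only [sz] at hn
        exact IH t r p (by omega) h k
      | iL2 k =>
        simp only [sz] at hn
        exact IH t r' p (by omega) h' k
      | @iR _ p p' k k' =>
        simp only [sz] at hn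
        exact Le.iR (IH t (.i r r') p (by simp only [sz]; omega) h1 k)
          (IH t (.i r r') p' (by simp only [sz]; omega) h1 k')
      | @sR1 _ p p' k =>
        simp only [sz] at hn
        exact Le.sR1 (IH t (.i r r') p (by simp only [sz]; omega) h1 k)
      | @sR2 _ p p' k =>
        simp only [sz] at hn
        exact Le.sR2 (IH t (.i r r') p' (by simp only [sz]; omega) h1 k)
    | @sR1 _ r r' h =>
      have h1 : Le t (.s r r') := Le.sR1 h
      cases h2 with
      | m h2 => exact Le.m (h1.u_le.trans h2)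
      | sL k k' =>
        simp only [sz] at hn
        exact IH t r p (by omega) h k
      | @iR _ p p' k k' =>
        simp only [sz] at hn
        exact Le.iR (IH t (.s r r') p (by simp only [sz]; omega) h1 k)
          (IH t (.s r r') p' (by simp only [sz]; omega) h1 k')
      | @sR1 _ p p' k =>
        simp only [sz] at hn
        exact Le.sR1 (IH t (.s r r') p (by simp only [sz]; omega) h1 k)
      | @sR2 _ p p' k =>
        simp only [sz] at hn
        exact Le.sR2 (IH t (.s r r') p' (by simp only [sz]; omega) h1 k)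
    | @sR2 _ r r' h =>
      have h1 : Le t (.s r r') := Le.sR2 h
      cases h2 with
      | m h2 => exact Le.m (h1.u_le.trans h2)
      | sL k k' =>
        simp only [sz] at hn
        exact IH t r' p (by omega) h k'
      | @iR _ p p' k k' =>
        simp only [sz] at hn
        exact Le.iR (IH t (.s r r') p (by simp only [sz]; omega) h1 k)
          (IH t (.s r r') p' (by simp only [sz]; omega) h1 k')
      | @sR1 _ p p' k =>
        simp only [sz] at hn
        exact Le.sR1 (IH t (.s r r') p (by simp only [sz]; omega) h1 k)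
      | @sR2 _ p p' k =>
        simp only [sz] at hn
        exact Le.sR2 (IH t (.s r r') p' (by simp only [sz]; omega) h1 k)

theorem Le.trans {t r p : Tm M (NC M)} (h : Le t r) (h' : Le r p) : Le t p :=
  Le.trans_aux _ t r p le_rfl h h'

theorem Le.of_G {t : Tm M (NC M)} {b : NC M} (h : G b t) : Le t (.g b) := by
  induction t with
  | c z => exact Le.m (show z ≤ _ from (show z = ⊥ from h).le.trans bot_le)
  | g b' =>
    obtain rfl : b = b' := h
    exact Le.gen b
  | s t t' ih ih' => exact Le.sL (ih h.1) (ih' h.2)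
  | i t t' ih ih' =>
    rcases (G_i b t t').1 h with h | h | h
    · exact Le.iL1 (ih h)
    · exact Le.iL2 (ih' h)
    · exact Le.m (h.le.trans bot_le)

theorem Le.of_H {t : Tm M (NC M)} {b : NC M} (h : H b t) : Le (.g b) t := by
  induction t with
  | c z => exact Le.m (le_top.trans (show ⊤ ≤ z from (show z = ⊤ from h).ge))
  | g b' =>
    obtain rfl : b = b' := h
    exact Le.gen b
  | i t t' ih ih' => exact Le.iR (ih h.1) (ih' h.2)
  | s t t' ih ih' =>
    rcases (H_s b t t').1 h with h | h | h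
    · exact Le.sR1 (ih h)
    · exact Le.sR2 (ih' h)
    · exact Le.m (le_top.trans h.ge)

theorem le_g_iff {t : Tm M (NC M)} {b : NC M} : Le t (.g b) ↔ G b t :=
  ⟨fun h => h.G_of rfl, Le.of_G⟩

theorem g_le_iff {t : Tm M (NC M)} {b : NC M} : Le (.g b) t ↔ H b t :=
  ⟨fun h => h.H_of rfl, Le.of_H⟩

theorem c_le_iff {t : Tm M (NC M)} {z : M} : Le (.c z) t ↔ z ≤ l t :=
  ⟨fun h => h.l_le, fun h => Le.m h⟩

theorem le_c_iff {t : Tm M (NC M)} {z : M} : Le t (.c z) ↔ u t ≤ z :=
  ⟨fun h => h.u_le, fun h => Le.m h⟩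

theorem Le.sMono {t t' r r' : Tm M (NC M)} (h : Le t r) (h' : Le t' r') :
    Le (.s t t') (.s r r') := Le.sL (Le.sR1 h) (Le.sR2 h')

theorem Le.iMono {t t' r r' : Tm M (NC M)} (h : Le t r) (h' : Le t' r') :
    Le (.i t t') (.i r r') := Le.iR (Le.iL1 h) (Le.iL2 h')

end

end Pool.Agent.H6.Hunt
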