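import Mathlib

/-!
Definitions: join, disjunctive product and lexicographic product of graphs, and
semiring-homomorphic graph invariants.
-/

namespace Pool.Agent.H6.Lex

/-- The join of `G` and `H`: the edges inside each part are kept and every edge between the two
parts is added. -/
def join {V W : Type} (G : SimpleGraph V) (H : SimpleGraph W) : SimpleGraph (V ⊕ W) where
  Adj x y := (∃ v v', x = Sum.inl v ∧ y = Sum.inl v' ∧ G.Adj v v') ∨
    (∃ w w', x = Sum.inr w ∧ y = Sum.inr w' ∧ H.Adj w w') ∨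
    (∃ v w, x = Sum.inl v ∧ y = Sum.inr w) ∨ (∃ v w, x = Sum.inr w ∧ y = Sum.inl v)
  symm := ⟨by
    rintro x y (⟨v, v', rfl, rfl, h⟩ | ⟨w, w', rfl, rfl, h⟩ | ⟨v, w, rfl, rfl⟩ | ⟨v, w, rfl, rfl⟩)
    · exact Or.inl ⟨v', v, rfl, rfl, h.symm⟩
    · exact Or.inr (Or.inl ⟨w', w, rfl, rfl, h.symm⟩)
    · exact Or.inr (Or.inr (Or.inr ⟨v, w, rfl, rfl⟩))
    · exact Or.inr (Or.inr (Or.inl ⟨v, w, rfl, rfl⟩))⟩
  loopless := ⟨by
    rintro x (⟨v, v', h1, h2, h⟩ | ⟨w, w', h1, h2, h⟩ | ⟨v, w, h1, h2⟩ | ⟨v, w, h1, h2⟩)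
    · subst h1; cases h2; exact G.irrefl h
    · subst h1; cases h2; exact H.irrefl h
    · subst h1; cases h2
    · subst h1; cases h2⟩

/-- The disjunctive product: `(v, w)` and `(v', w')` are adjacent iff `v, v'` are adjacent or
`w, w'` are adjacent. -/
def disj {V W : Type} (G : SimpleGraph V) (H : SimpleGraph W) : SimpleGraph (V × W) where
  Adj x y := G.Adj x.1 y.1 ∨ H.Adj x.2 y.2
  symm := ⟨by
    rintro x y (h | h)
    · exact Or.inl h.symm
    · exact Or.inr h.symm⟩
  loopless := ⟨by
    rintro x (h | h)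
    · exact G.irrefl h
    · exact H.irrefl h⟩

/-- The lexicographic product: `(v, w)` and `(v', w')` are adjacent iff `v, v'` are adjacent, or
`v = v'` and `w, w'` are adjacent. -/
def lex {V W : Type} (G : SimpleGraph V) (H : SimpleGraph W) : SimpleGraph (V × W) where
  Adj x y := G.Adj x.1 y.1 ∨ (x.1 = y.1 ∧ H.Adj x.2 y.2)
  symm := ⟨by
    rintro x y (h | ⟨h, h'⟩)
    · exact Or.inl h.symm
    · exact Or.inr ⟨h.symm, h'.symm⟩⟩
  loopless := ⟨by
    rintro x (h | ⟨_, h⟩)
    · exact G.irrefl h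
    · exact H.irrefl h⟩

/-- A semiring-homomorphic graph invariant: a nonnegative real function of finite graphs with
value `1` on the one-vertex graph, monotone under homomorphisms (hence constant on isomorphism
classes), additive under the join and multiplicative under the disjunctive product. -/
structure IsSemiringInvariant (η : ∀ (V : Type) [Finite V], SimpleGraph V → ℝ) : Prop where
  nonneg : ∀ (V : Type) [Finite V] (G : SimpleGraph V), 0 ≤ η V G
  one : η (Fin 1) ⊤ = 1
  mono : ∀ (V W : Type) [Finite V] [Finite W] (G : SimpleGraph V) (H : SimpleGraph W),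
    Nonempty (G →g H) → η V G ≤ η W H
  join : ∀ (V W : Type) [Finite V] [Finite W] (G : SimpleGraph V) (H : SimpleGraph W),
    η (V ⊕ W) (join G H) = η V G + η W H
  disj : ∀ (V W : Type) [Finite V] [Finite W] (G : SimpleGraph V) (H : SimpleGraph W),
    η (V × W) (disj G H) = η V G * η W H

end Pool.Agent.H6.Lex
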