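import Mathlib

/-!
An abstract form of Strassen's duality for preordered commutative semirings in which every
element is `0` or at least `1` and is bounded by a natural number.
-/

namespace Pool.Agent.H6.Lex

variable {S : Type} [CommSemiring S]

/-- `Good R P`: the relation `P` extends `R`, is transitive, compatible with addition and
multiplication, and does not put `n + 1` below `n`. -/
structure Good (R P : S → S → Prop) : Prop where
  base : ∀ x y, R x y → P x y
  trans : ∀ x y z, P x y → P y z → P x z
  add : ∀ x y z, P x y → P (x + z) (y + z)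
  mul : ∀ x y z, P x y → P (x * z) (y * z)
  nat : ∀ n : ℕ, ¬ P ((n : S) + 1) (n : S)

/-- the standing assumptions on the base relation. -/
structure Base (R : S → S → Prop) : Prop where
  refl : ∀ x, R x x
  zero : ∀ x, R 0 x
  one : ∀ x, x = 0 ∨ R 1 x
  bdd : ∀ x, ∃ r : ℕ, R x (r : S)

section good

variable {R P : S → S → Prop}

theorem Good.refl (hR : Base R) (hP : Good R P) (x : S) : P x x := hP.base _ _ (hR.refl x)

theorem Good.zero (hR : Base R) (hP : Good R P) (x : S) : P 0 x := hP.base _ _ (hR.zero x)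

theorem Good.add2 (hP : Good R P) {x y z w : S} (h : P x y) (h' : P z w) :
    P (x + z) (y + w) := by
  refine hP.trans _ _ _ (hP.add x y z h) ?_
  have := hP.add z w y h'
  rwa [add_comm z, add_comm w] at this

theorem Good.mul2 (hP : Good R P) {x y z w : S} (h : P x y) (h' : P z w) :
    P (x * z) (y * w) := by
  refine hP.trans _ _ _ (hP.mul x y z h) ?_
  have := hP.mul z w y h'
  rwa [mul_comm z, mul_comm w] at this

theorem Good.le_add (hR : Base R) (hP : Good R P) (x y : S) : P x (x + y) := by
  have := hP.add2 (hP.refl hR x) (hP.zero hR y)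
  rwa [add_zero] at this

theorem Good.nat_mono (hR : Base R) (hP : Good R P) {m n : ℕ} (h : m ≤ n) :
    P (m : S) (n : S) := by
  obtain ⟨k, rfl⟩ := Nat.exists_eq_add_of_le h
  have := hP.le_add hR (m : S) (k : S)
  push_cast
  exact this

theorem Good.nat_le (hR : Base R) (hP : Good R P) {m n : ℕ} (h : P (m : S) (n : S)) :
    m ≤ n := by
  by_contra hlt
  push Not at hlt
  apply hP.nat n
  refine hP.trans _ _ _ ?_ h
  have := hP.nat_mono hR (m := n + 1) (n := m) hlt
  push_cast at this
  exact this

/-- iterating an inequality. -/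
theorem Good.iter (hR : Base R) (hP : Good R P) {m X Y : S} (h : P (m + X) (m + Y)) (k : ℕ) :
    P (m + k * X) (m + k * Y) := by
  induction k with
  | zero => simpa using hP.refl hR m
  | succ k ih =>
    have h1 : P (m + X + k * X) (m + Y + k * X) := hP.add _ _ _ h
    have h2 : P (m + k * X + Y) (m + k * Y + Y) := hP.add _ _ _ ih
    have e1 : m + ((k + 1 : ℕ) : S) * X = m + X + k * X := by push_cast; ring
    have e2 : m + Y + k * X = m + k * X + Y := by ring
    have e3 : m + ((k + 1 : ℕ) : S) * Y = m + k * Y + Y := by push_cast; ring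
    rw [e1, e3]
    rw [e2] at h1
    exact hP.trans _ _ _ h1 h2

end good

/-- chains of good relations have upper bounds. -/
theorem good_union (R : S → S → Prop) (c : Set (Set (S × S)))
    (hc : ∀ p ∈ c, Good R (fun x y => (x, y) ∈ p)) (hch : IsChain (· ⊆ ·) c)
    (hne : c.Nonempty) : Good R (fun x y => (x, y) ∈ ⋃₀ c) := by
  refine ⟨?_, ?_, ?_, ?_, ?_⟩
  · intro x y h
    obtain ⟨p, hp⟩ := hne
    exact ⟨p, hp, (hc p hp).base _ _ h⟩
  · rintro x y z ⟨p, hp, hxy⟩ ⟨q, hq, hyz⟩
    rcases hch.total hp hq with h | h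
    · exact ⟨q, hq, (hc q hq).trans _ _ _ (h hxy) hyz⟩
    · exact ⟨p, hp, (hc p hp).trans _ _ _ hxy (h hyz)⟩
  · rintro x y z ⟨p, hp, hxy⟩
    exact ⟨p, hp, (hc p hp).add _ _ _ hxy⟩
  · rintro x y z ⟨p, hp, hxy⟩
    exact ⟨p, hp, (hc p hp).mul _ _ _ hxy⟩
  · rintro n ⟨p, hp, hn⟩
    exact (hc p hp).nat n hn

/-- a maximal good relation above a given one. -/
theorem exists_maximal (R P : S → S → Prop) (hP : Good R P) :
    ∃ M : S → S → Prop, Good R M ∧ (∀ x y, P x y → M x y) ∧
      ∀ M' : S → S → Prop, Good R M' → (∀ x y, M x y → M' x y) → ∀ x y, M' x y → M x y := by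
  obtain ⟨m, hm, hmax⟩ := zorn_subset_nonempty
    {p : Set (S × S) | Good R (fun x y => (x, y) ∈ p)} (by
      intro c hc hch hne
      refine ⟨⋃₀ c, good_union R c hc hch hne, fun s hs => Set.subset_sUnion_of_mem hs⟩)
    {p : S × S | P p.1 p.2} (by simpa using hP)
  refine ⟨fun x y => (x, y) ∈ m, hmax.prop, fun x y h => hm (by simpa using h), ?_⟩
  intro M' hM' hle x y hxy
  have : m ⊆ {p : S × S | M' p.1 p.2} := by
    rintro ⟨a, b⟩ hab
    exact hle a b hab
  have h2 := hmax.le_of_ge (y := {p : S × S | M' p.1 p.2}) (by simpa using hM') this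
  exact h2 (by simpa using hxy)

/-- adding the relation `b ≤ a`. -/
def adj (P : S → S → Prop) (a b : S) : S → S → Prop :=
  fun u v => ∃ s, P (u + s * a) (v + s * b)

theorem adj_good {R P : S → S → Prop} (hP : Good R P) (a b : S)
    (h : ∀ (n : ℕ) (s : S), ¬ P ((n : S) + 1 + s * a) (n + s * b)) : Good R (adj P a b) := by
  refine ⟨?_, ?_, ?_, ?_, ?_⟩
  · intro x y hxy
    exact ⟨0, by simpa using hP.base _ _ hxy⟩
  · rintro x y z ⟨s, hs⟩ ⟨t, ht⟩
    refine ⟨s + t, ?_⟩
    have h1 := hP.add _ _ (t * a) hs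
    have h2 := hP.add _ _ (s * b) ht
    have e1 : x + (s + t) * a = x + s * a + t * a := by ring
    have e2 : y + s * b + t * a = y + t * a + s * b := by ring
    have e3 : z + (s + t) * b = z + t * b + s * b := by ring
    rw [e1, e3]
    rw [e2] at h1
    exact hP.trans _ _ _ h1 h2
  · rintro x y z ⟨s, hs⟩
    refine ⟨s, ?_⟩
    have h1 := hP.add _ _ z hs
    have e1 : x + z + s * a = x + s * a + z := by ring
    have e2 : y + z + s * b = y + s * b + z := by ring
    rw [e1, e2]
    exact h1
  · rintro x y z ⟨s, hs⟩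
    refine ⟨s * z, ?_⟩
    have h1 := hP.mul _ _ z hs
    have e1 : x * z + s * z * a = (x + s * a) * z := by ring
    have e2 : y * z + s * z * b = (y + s * b) * z := by ring
    rw [e1, e2]
    exact h1
  · rintro n ⟨s, hs⟩
    exact h n s hs

theorem adj_ba {R P : S → S → Prop} (hR : Base R) (hP : Good R P) (a b : S) : adj P a b b a := by
  refine ⟨1, ?_⟩
  have : b + 1 * a = a + 1 * b := by ring
  rw [this]
  exact hP.refl hR _

theorem adj_le {P : S → S → Prop} (a b : S) {x y : S} (h : P x y) : adj P a b x y :=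
  ⟨0, by simpa using h⟩

/-- A maximal good relation is closed under gaps, cancellative and total. -/
theorem maximal_gap {R M : S → S → Prop} (hR : Base R) (hM : Good R M)
    (hmax : ∀ M' : S → S → Prop, Good R M' → (∀ x y, M x y → M' x y) → ∀ x y, M' x y → M x y)
    {u v : S} {m : ℕ} (h : ∀ k : ℕ, M (k * u) (k * v + m)) : M u v := by
  refine hmax (fun u v => ∃ m : ℕ, ∀ k : ℕ, M (k * u) (k * v + m)) ?_ ?_ u v ⟨m, h⟩
  · refine ⟨?_, ?_, ?_, ?_, ?_⟩
    · intro x y hxy
      refine ⟨0, fun k => ?_⟩
      have := hM.mul x y k (hM.base _ _ hxy)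
      simpa [mul_comm] using this
    · rintro x y z ⟨m, hm⟩ ⟨m', hm'⟩
      refine ⟨m' + m, fun k => ?_⟩
      have h1 := hM.add _ _ (m : S) (hm' k)
      have h2 := hM.trans _ _ _ (hm k) h1
      push_cast
      rwa [add_assoc] at h2
    · rintro x y z ⟨m, hm⟩
      refine ⟨m, fun k => ?_⟩
      have h1 := hM.add _ _ (k * z : S) (hm k)
      have e1 : (k : S) * (x + z) = k * x + k * z := by ring
      have e2 : (k : S) * (y + z) + m = k * y + m + k * z := by ring
      rw [e1, e2]
      exact h1
    · rintro x y z ⟨m, hm⟩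
      obtain ⟨r, hr⟩ := hR.bdd z
      refine ⟨m * r, fun k => ?_⟩
      have h1 := hM.mul _ _ z (hm k)
      have h2 : M ((m : S) * z) (m * r) := by
        have := hM.mul _ _ (m : S) (hM.base _ _ hr)
        simpa [mul_comm] using this
      have h3 := hM.add2 (hM.refl hR (k * y * z : S)) h2
      have e1 : (k : S) * (x * z) = k * x * z := by ring
      have e2 : ((k : S) * y + m) * z = k * y * z + m * z := by ring
      have e3 : (k : S) * (y * z) + ((m * r : ℕ) : S) = k * y * z + m * r := by push_cast; ring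
      rw [e1, e3]
      rw [e2] at h1
      exact hM.trans _ _ _ h1 h3
    · rintro n ⟨m, hm⟩
      have h1 := hm (m + 1)
      have h2 : M (((m + 1) * (n + 1) : ℕ) : S) (((m + 1) * n + m : ℕ) : S) := by
        push_cast at h1 ⊢
        exact h1
      have h3 := hM.nat_le hR h2
      nlinarith
  · intro x y hxy
    refine ⟨0, fun k => ?_⟩
    have := hM.mul x y k hxy
    simpa [mul_comm] using this

theorem maximal_cancel {R M : S → S → Prop} (hR : Base R) (hM : Good R M)
    (hmax : ∀ M' : S → S → Prop, Good R M' → (∀ x y, M x y → M' x y) → ∀ x y, M' x y → M x y)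
    {u v s : S} (hs : M 1 s) (h : M (s * u) (s * v)) : M u v := by
  refine hmax (fun u v => ∃ s, M 1 s ∧ M (s * u) (s * v)) ?_ ?_ u v ⟨s, hs, h⟩
  · refine ⟨?_, ?_, ?_, ?_, ?_⟩
    · intro x y hxy
      exact ⟨1, hM.refl hR 1, by simpa using hM.base _ _ hxy⟩
    · rintro x y z ⟨s, hs, hm⟩ ⟨t, ht, hm'⟩
      refine ⟨s * t, ?_, ?_⟩
      · have := hM.mul2 hs ht
        simpa using this
      · have h1 := hM.mul _ _ t hm
        have h2 := hM.mul _ _ s hm'
        have e1 : s * t * x = s * x * t := by ring
        have e2 : s * y * t = t * y * s := by ring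
        have e3 : s * t * z = t * z * s := by ring
        rw [e1, e3]
        rw [e2] at h1
        exact hM.trans _ _ _ h1 h2
    · rintro x y z ⟨s, hs, hm⟩
      refine ⟨s, hs, ?_⟩
      have h1 := hM.add _ _ (s * z) hm
      rwa [← mul_add, ← mul_add] at h1
    · rintro x y z ⟨s, hs, hm⟩
      refine ⟨s, hs, ?_⟩
      have h1 := hM.mul _ _ z hm
      rwa [mul_assoc, mul_assoc] at h1
    · rintro n ⟨s, hs, hm⟩
      -- `s * n + s ≤ s * n`
      obtain ⟨r, hr⟩ := hR.bdd (s * n)
      have h0 : M (s * n + s) (s * n + 0) := by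
        have e : s * ((n : S) + 1) = s * n + s := by ring
        rw [e] at hm
        simpa using hm
      have h1 := hM.iter hR h0 (r + 1)
      have h2 : M (((r + 1 : ℕ) : S)) (s * n + (r + 1 : ℕ) * s) := by
        have h3 : M ((r + 1 : ℕ) * (1 : S)) ((r + 1 : ℕ) * s) := by
          have := hM.mul _ _ ((r + 1 : ℕ) : S) hs
          simpa [mul_comm] using this
        have h4 := hM.add2 (hM.zero hR (s * n)) h3
        simpa using h4
      have h5 := hM.trans _ _ _ h2 h1
      have h6 : M (((r + 1 : ℕ) : S)) (r : S) := by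
        refine hM.trans _ _ _ h5 ?_
        simpa using hM.base _ _ hr
      have := hM.nat_le hR h6
      omega
  · intro x y hxy
    exact ⟨1, hM.refl hR 1, by simpa using hxy⟩

theorem maximal_total {R M : S → S → Prop} (hR : Base R) (hM : Good R M)
    (hmax : ∀ M' : S → S → Prop, Good R M' → (∀ x y, M x y → M' x y) → ∀ x y, M' x y → M x y)
    (x y : S) : M x y ∨ M y x := by
  by_cases hg : ∀ (n : ℕ) (s : S), ¬ M ((n : S) + 1 + s * x) (n + s * y)
  · right
    exact hmax (adj M x y) (adj_good hM x y hg) (fun _ _ h => adj_le x y h) _ _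
      (adj_ba hR hM x y)
  · left
    push Not at hg
    obtain ⟨n, s, h⟩ := hg
    have h0 : M ((n : S) + (1 + s * x)) (n + s * y) := by
      rwa [← add_assoc]
    have hs : M 1 s := by
      rcases hR.one s with hs | hs
      · exfalso
        subst hs
        apply hM.nat n
        simpa using h
      · exact hM.base _ _ hs
    apply maximal_cancel hR hM hmax hs
    apply maximal_gap hR hM hmax (m := n)
    intro k
    have h1 := hM.iter hR h0 k
    have h2 : M ((k : S) * (s * x)) (n + k * (1 + s * x)) := by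
      have := hM.add2 (hM.refl hR ((k : S) * (s * x))) (hM.zero hR ((n : S) + k))
      have e : (n : S) + k * (1 + s * x) = k * (s * x) + (n + k) := by ring
      rw [e]
      simpa using this
    have h3 := hM.trans _ _ _ h2 h1
    rwa [add_comm (n : S)] at h3

/-- the real number attached to an element by a total good relation. -/
noncomputable def val (M : S → S → Prop) (x : S) : ℝ :=
  sSup {t : ℝ | ∃ p q : ℕ, 0 < q ∧ M (p : S) (q * x) ∧ t = p / q}

section value

variable {R M : S → S → Prop} (hR : Base R) (hM : Good R M)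

include hR hM

theorem val_aux {x : S} {p q p' q' : ℕ} (hq : 0 < q) (hq' : 0 < q')
    (h : M (p : S) (q * x)) (h' : M (q' * x) (p' : S)) : (p : ℝ) / q ≤ p' / q' := by
  have h1 : M ((p * q' : ℕ) : S) (q * x * q') := by
    have := hM.mul _ _ (q' : S) h
    push_cast
    exact this
  have h2 : M (q * x * q') ((q * p' : ℕ) : S) := by
    have := hM.mul _ _ (q : S) h'
    push_cast
    have e1 : (q' : S) * x * q = q * x * q' := by ring
    have e2 : (p' : S) * q = q * p' := by ring
    rwa [e1, e2] at this
  have h3 := hM.nat_le hR (hM.trans _ _ _ h1 h2)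
  have hq0 : (0 : ℝ) < q := by exact_mod_cast hq
  have hq0' : (0 : ℝ) < q' := by exact_mod_cast hq'
  rw [div_le_div_iff₀ hq0 hq0']
  have h4 : ((p * q' : ℕ) : ℝ) ≤ ((q * p' : ℕ) : ℝ) := by exact_mod_cast h3
  push_cast at h4
  linarith

theorem val_bdd (x : S) :
    BddAbove {t : ℝ | ∃ p q : ℕ, 0 < q ∧ M (p : S) (q * x) ∧ t = p / q} := by
  obtain ⟨r, hr⟩ := hR.bdd x
  refine ⟨r, ?_⟩
  rintro t ⟨p, q, hq, h, rfl⟩
  have := val_aux hR hM (p' := r) (q' := 1) hq one_pos h (by simpa using hM.base _ _ hr)
  simpa using this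

theorem le_val {x : S} {p q : ℕ} (hq : 0 < q) (h : M (p : S) (q * x)) :
    (p : ℝ) / q ≤ val M x :=
  le_csSup (val_bdd hR hM x) ⟨p, q, hq, h, rfl⟩

theorem val_nonempty (x : S) :
    {t : ℝ | ∃ p q : ℕ, 0 < q ∧ M (p : S) (q * x) ∧ t = p / q}.Nonempty :=
  ⟨0, 0, 1, one_pos, by simpa using hM.zero hR x, by simp⟩

theorem val_le {x : S} {p q : ℕ} (hq : 0 < q) (h : M (q * x) (p : S)) :
    val M x ≤ (p : ℝ) / q := by
  apply csSup_le (val_nonempty hR hM x)
  rintro t ⟨p', q', hq', h', rfl⟩
  exact val_aux hR hM hq' hq h' h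

theorem val_nonneg (x : S) : 0 ≤ val M x := by
  have := le_val hR hM (x := x) (p := 0) (q := 1) one_pos (by simpa using hM.zero hR x)
  simpa using this

theorem val_one : val M (1 : S) = 1 := by
  apply le_antisymm
  · have := val_le hR hM (x := (1 : S)) (p := 1) (q := 1) one_pos
      (by simpa using hM.refl hR (1 : S))
    simpa using this
  · have := le_val hR hM (x := (1 : S)) (p := 1) (q := 1) one_pos
      (by simpa using hM.refl hR (1 : S))
    simpa using this

theorem val_mono {x y : S} (h : M x y) : val M x ≤ val M y := by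
  apply csSup_le (val_nonempty hR hM x)
  rintro t ⟨p, q, hq, h', rfl⟩
  apply le_val hR hM hq
  refine hM.trans _ _ _ h' ?_
  have := hM.mul _ _ (q : S) h
  simpa [mul_comm] using this

theorem exists_lower (x : S) {e : ℝ} (he : 0 < e) :
    ∃ p q : ℕ, 0 < q ∧ M (p : S) (q * x) ∧ val M x - e < (p : ℝ) / q := by
  obtain ⟨t, ⟨p, q, hq, h, rfl⟩, ht⟩ := exists_lt_of_lt_csSup (val_nonempty hR hM x)
    (show val M x - e < val M x by linarith)
  exact ⟨p, q, hq, h, ht⟩

theorem exists_upper (htot : ∀ x y, M x y ∨ M y x) (x : S) {e : ℝ} (he : 0 < e) :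
    ∃ p q : ℕ, 0 < q ∧ M (q * x) (p : S) ∧ (p : ℝ) / q < val M x + e := by
  obtain ⟨t, ht1, ht2⟩ := exists_rat_btwn (show val M x < val M x + e by linarith)
  have ht0 : (0 : ℚ) ≤ t := by
    have : (0 : ℝ) ≤ t := le_trans (val_nonneg hR hM x) ht1.le
    exact_mod_cast this
  have hn : 0 ≤ t.num := Rat.num_nonneg.mpr ht0
  obtain ⟨p, hp⟩ := Int.eq_ofNat_of_zero_le hn
  have e1 : (t : ℝ) = (p : ℝ) / (t.den : ℝ) := by
    rw [Rat.cast_def t, hp]
    simp
  refine ⟨p, t.den, t.den_pos, ?_, by rw [← e1]; exact ht2⟩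
  rcases htot (t.den * x) (p : S) with h | h
  · exact h
  · exfalso
    have := le_val hR hM t.den_pos h
    rw [← e1] at this
    linarith

theorem val_add (htot : ∀ x y, M x y ∨ M y x) (x y : S) :
    val M (x + y) = val M x + val M y := by
  apply le_antisymm
  · apply le_of_forall_pos_lt_add
    intro e he
    obtain ⟨p, q, hq, h, hlt⟩ := exists_upper hR hM htot x (half_pos he)
    obtain ⟨p', q', hq', h', hlt'⟩ := exists_upper hR hM htot y (half_pos he)
    have h1 := hM.mul _ _ (q' : S) h
    have h2 := hM.mul _ _ (q : S) h'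
    have h3 := hM.add2 h1 h2
    have h4 : M (((q * q' : ℕ) : S) * (x + y)) ((p * q' + p' * q : ℕ) : S) := by
      have e1 : ((q * q' : ℕ) : S) * (x + y) = q * x * q' + q' * y * q := by push_cast; ring
      have e2 : ((p * q' + p' * q : ℕ) : S) = p * q' + p' * q := by push_cast; ring
      rw [e1, e2]
      exact h3
    have h5 := val_le hR hM (Nat.mul_pos hq hq') h4
    have hq0 : (q : ℝ) ≠ 0 := by exact_mod_cast hq.ne'
    have hq0' : (q' : ℝ) ≠ 0 := by exact_mod_cast hq'.ne'
    have e3 : ((p * q' + p' * q : ℕ) : ℝ) / ((q * q' : ℕ) : ℝ) = p / q + p' / q' := by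
      push_cast
      field_simp
    rw [e3] at h5
    linarith
  · apply le_of_forall_pos_lt_add
    intro e he
    obtain ⟨p, q, hq, h, hlt⟩ := exists_lower hR hM x (half_pos he)
    obtain ⟨p', q', hq', h', hlt'⟩ := exists_lower hR hM y (half_pos he)
    have h1 := hM.mul _ _ (q' : S) h
    have h2 := hM.mul _ _ (q : S) h'
    have h3 := hM.add2 h1 h2
    have h4 : M ((p * q' + p' * q : ℕ) : S) (((q * q' : ℕ) : S) * (x + y)) := by
      have e1 : ((q * q' : ℕ) : S) * (x + y) = q * x * q' + q' * y * q := by push_cast; ring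
      have e2 : ((p * q' + p' * q : ℕ) : S) = p * q' + p' * q := by push_cast; ring
      rw [e1, e2]
      exact h3
    have h5 := le_val hR hM (Nat.mul_pos hq hq') h4
    have hq0 : (q : ℝ) ≠ 0 := by exact_mod_cast hq.ne'
    have hq0' : (q' : ℝ) ≠ 0 := by exact_mod_cast hq'.ne'
    have e3 : ((p * q' + p' * q : ℕ) : ℝ) / ((q * q' : ℕ) : ℝ) = p / q + p' / q' := by
      push_cast
      field_simp
    rw [e3] at h5
    linarith

theorem val_mul (htot : ∀ x y, M x y ∨ M y x) (x y : S) :
    val M (x * y) = val M x * val M y := by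
  have hx := val_nonneg hR hM x
  have hy := val_nonneg hR hM y
  apply le_antisymm
  · -- upper bound
    have key : ∀ e : ℝ, 0 < e → val M (x * y) ≤ (val M x + e) * (val M y + e) := by
      intro e he
      obtain ⟨p, q, hq, h, hlt⟩ := exists_upper hR hM htot x he
      obtain ⟨p', q', hq', h', hlt'⟩ := exists_upper hR hM htot y he
      have h3 := hM.mul2 h h'
      have h4 : M (((q * q' : ℕ) : S) * (x * y)) ((p * p' : ℕ) : S) := by
        have e1 : ((q * q' : ℕ) : S) * (x * y) = q * x * (q' * y) := by push_cast; ring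
        have e2 : ((p * p' : ℕ) : S) = p * p' := by push_cast; ring
        rw [e1, e2]
        exact h3
      have h5 := val_le hR hM (Nat.mul_pos hq hq') h4
      have e3 : ((p * p' : ℕ) : ℝ) / ((q * q' : ℕ) : ℝ) = (p / q) * (p' / q') := by
        push_cast
        rw [div_mul_div_comm]
      rw [e3] at h5
      have h6 : (0 : ℝ) ≤ p' / q' := by positivity
      have h7 : (0 : ℝ) ≤ val M x + e := by positivity
      calc val M (x * y) ≤ (p / q) * (p' / q') := h5
        _ ≤ (val M x + e) * (p' / q') := by gcongr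
        _ ≤ (val M x + e) * (val M y + e) := by gcongr
    by_contra hcon
    push Not at hcon
    set D := val M (x * y) - val M x * val M y with hD
    have hDpos : 0 < D := by linarith
    set A := val M x + val M y + 1 with hA
    have hApos : 0 < A := by positivity
    have hk := key (min 1 (D / (2 * A))) (by positivity)
    set e := min 1 (D / (2 * A)) with he
    have he1 : e ≤ 1 := min_le_left _ _
    have he2 : e ≤ D / (2 * A) := min_le_right _ _
    have he0 : 0 < e := by positivity
    have he3 : e * A ≤ D / 2 := by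
      calc e * A ≤ D / (2 * A) * A := by gcongr
        _ = D / 2 := by field_simp
    nlinarith
  · have key : ∀ e : ℝ, 0 < e → e ≤ val M x → e ≤ val M y →
        (val M x - e) * (val M y - e) ≤ val M (x * y) := by
      intro e he hex hey
      obtain ⟨p, q, hq, h, hlt⟩ := exists_lower hR hM x he
      obtain ⟨p', q', hq', h', hlt'⟩ := exists_lower hR hM y he
      have h3 := hM.mul2 h h'
      have h4 : M ((p * p' : ℕ) : S) (((q * q' : ℕ) : S) * (x * y)) := by
        have e1 : ((q * q' : ℕ) : S) * (x * y) = q * x * (q' * y) := by push_cast; ring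
        have e2 : ((p * p' : ℕ) : S) = p * p' := by push_cast; ring
        rw [e1, e2]
        exact h3
      have h5 := le_val hR hM (Nat.mul_pos hq hq') h4
      have e3 : ((p * p' : ℕ) : ℝ) / ((q * q' : ℕ) : ℝ) = (p / q) * (p' / q') := by
        push_cast
        rw [div_mul_div_comm]
      rw [e3] at h5
      have h6 : (0 : ℝ) ≤ p / q := by positivity
      calc (val M x - e) * (val M y - e) ≤ (p / q) * (val M y - e) := by
            apply mul_le_mul_of_nonneg_right hlt.le; linarith
        _ ≤ (p / q) * (p' / q') := by gcongr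
        _ ≤ val M (x * y) := h5
    by_contra hcon
    push Not at hcon
    have hxy0 := val_nonneg hR hM (x * y)
    have hprod : 0 < val M x * val M y := by linarith
    have hx0 : 0 < val M x := by
      rcases hx.lt_or_eq with h | h
      · exact h
      · rw [← h] at hprod; simp at hprod
    have hy0 : 0 < val M y := by
      rcases hy.lt_or_eq with h | h
      · exact h
      · rw [← h] at hprod; simp at hprod
    set D := val M x * val M y - val M (x * y) with hD
    have hDpos : 0 < D := by linarith
    set A := val M x + val M y with hA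
    have hApos : 0 < A := by positivity
    set e := min (min (val M x) (val M y)) (D / (2 * A)) with he
    have he0 : 0 < e := by positivity
    have he1 : e ≤ val M x := le_trans (min_le_left _ _) (min_le_left _ _)
    have he1' : e ≤ val M y := le_trans (min_le_left _ _) (min_le_right _ _)
    have he2 : e ≤ D / (2 * A) := min_le_right _ _
    have he3 : e * A ≤ D / 2 := by
      calc e * A ≤ D / (2 * A) * A := by gcongr
        _ = D / 2 := by field_simp
    have hk := key e he0 he1 he1'
    nlinarith

end value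

/-- **Strassen duality, one direction**: if adding `b ≤ a` to `R` keeps the naturals apart, there is
a monotone semiring homomorphism to the nonnegative reals whose value at `b` is at most the value
at `a`. -/
theorem exists_hom {R : S → S → Prop} (hR : Base R) (hRg : Good R R) (a b : S)
    (h : ∀ (n : ℕ) (s : S), ¬ R ((n : S) + 1 + s * a) (n + s * b)) :
    ∃ φ : S → ℝ, (∀ x, 0 ≤ φ x) ∧ φ 1 = 1 ∧ (∀ x y, R x y → φ x ≤ φ y) ∧
      (∀ x y, φ (x + y) = φ x + φ y) ∧ (∀ x y, φ (x * y) = φ x * φ y) ∧ φ b ≤ φ a := by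
  obtain ⟨M, hM, hle, hmax⟩ := exists_maximal R (adj R a b) (adj_good hRg a b h)
  have htot := maximal_total hR hM hmax
  refine ⟨val M, val_nonneg hR hM, val_one hR hM, fun x y hxy => val_mono hR hM (hM.base _ _ hxy),
    val_add hR hM htot, val_mul hR hM htot, val_mono hR hM (hle _ _ (adj_ba hR hRg a b))⟩

end Pool.Agent.H6.Lex
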