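import Mathlib
import Pool.Agent.H6.LexDefs
import Pool.Agent.H6.LexStrassen

/-!
The commutative semiring of finite graphs modulo homomorphic equivalence.
-/

namespace Pool.Agent.H6.Lex

section adjLemmas

variable {V W : Type} (G : SimpleGraph V) (H : SimpleGraph W)

@[simp] theorem join_ll (v v' : V) :
    (join G H).Adj (Sum.inl v) (Sum.inl v') ↔ G.Adj v v' := by
  simp [join]

@[simp] theorem join_rr (w w' : W) :
    (join G H).Adj (Sum.inr w) (Sum.inr w') ↔ H.Adj w w' := by
  simp [join]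

@[simp] theorem join_lr (v : V) (w : W) :
    (join G H).Adj (Sum.inl v) (Sum.inr w) := by
  simp [join]

@[simp] theorem join_rl (v : V) (w : W) :
    (join G H).Adj (Sum.inr w) (Sum.inl v) := by
  simp [join]

@[simp] theorem disj_adj (x y : V × W) :
    (disj G H).Adj x y ↔ G.Adj x.1 y.1 ∨ H.Adj x.2 y.2 := Iff.rfl

@[simp] theorem lex_adj (x y : V × W) :
    (lex G H).Adj x y ↔ G.Adj x.1 y.1 ∨ (x.1 = y.1 ∧ H.Adj x.2 y.2) := Iff.rfl

end adjLemmas

/-- finite graphs with vertex set `Fin n`. -/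
abbrev FG : Type := Σ n : ℕ, SimpleGraph (Fin n)

/-- homomorphic equivalence. -/
instance homSetoid : Setoid FG where
  r G H := Nonempty (G.2 →g H.2) ∧ Nonempty (H.2 →g G.2)
  iseqv := ⟨fun G => ⟨⟨.id⟩, ⟨.id⟩⟩, fun h => ⟨h.2, h.1⟩, by
    rintro G H K ⟨⟨a⟩, ⟨b⟩⟩ ⟨⟨c⟩, ⟨d⟩⟩
    exact ⟨⟨c.comp a⟩, ⟨b.comp d⟩⟩⟩

/-- graphs modulo homomorphic equivalence. -/
def GQ : Type := Quotient homSetoid

/-- the class of a finite graph. -/
noncomputable def cls {V : Type} [Finite V] (G : SimpleGraph V) : GQ :=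
  Quotient.mk homSetoid ⟨Nat.card V, G.comap (Finite.equivFin V).symm⟩

theorem to_rep {V : Type} [Finite V] (G : SimpleGraph V) :
    Nonempty (G →g G.comap (Finite.equivFin V).symm) :=
  ⟨⟨Finite.equivFin V, by intro a b h; simpa using h⟩⟩

theorem of_rep {V : Type} [Finite V] (G : SimpleGraph V) :
    Nonempty (G.comap (Finite.equivFin V).symm →g G) :=
  ⟨⟨(Finite.equivFin V).symm, by intro a b h; simpa using h⟩⟩

theorem cls_eq {V W : Type} [Finite V] [Finite W] {G : SimpleGraph V} {H : SimpleGraph W}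
    (h1 : Nonempty (G →g H)) (h2 : Nonempty (H →g G)) : cls G = cls H := by
  apply Quotient.sound
  obtain ⟨a⟩ := h1
  obtain ⟨b⟩ := h2
  obtain ⟨c⟩ := to_rep G
  obtain ⟨d⟩ := to_rep H
  obtain ⟨e⟩ := of_rep G
  obtain ⟨f⟩ := of_rep H
  exact ⟨⟨d.comp (a.comp e)⟩, ⟨c.comp (b.comp f)⟩⟩

theorem GQ.ind {p : GQ → Prop} (h : ∀ (n : ℕ) (G : SimpleGraph (Fin n)), p (cls G)) (q : GQ) :
    p q := by
  induction q using Quotient.inductionOn with
  | h G =>
    have : (Quotient.mk homSetoid G : GQ) = cls G.2 := by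
      apply Quotient.sound
      exact ⟨to_rep G.2, of_rep G.2⟩
    rw [this]
    exact h G.1 G.2

/-- the order induced by homomorphisms. -/
def qle : GQ → GQ → Prop :=
  Quotient.lift₂ (fun G H : FG => Nonempty (G.2 →g H.2)) (by
    rintro G H G' H' ⟨⟨a⟩, ⟨b⟩⟩ ⟨⟨c⟩, ⟨d⟩⟩
    apply propext
    constructor
    · rintro ⟨f⟩
      exact ⟨c.comp (f.comp b)⟩
    · rintro ⟨f⟩
      exact ⟨d.comp (f.comp a)⟩)

theorem qle_cls {V W : Type} [Finite V] [Finite W] {G : SimpleGraph V} {H : SimpleGraph W} :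
    qle (cls G) (cls H) ↔ Nonempty (G →g H) := by
  change Nonempty (G.comap (Finite.equivFin V).symm →g H.comap (Finite.equivFin W).symm) ↔ _
  obtain ⟨c⟩ := to_rep G
  obtain ⟨d⟩ := to_rep H
  obtain ⟨e⟩ := of_rep G
  obtain ⟨f⟩ := of_rep H
  exact ⟨fun ⟨x⟩ => ⟨f.comp (x.comp c)⟩, fun ⟨x⟩ => ⟨d.comp (x.comp e)⟩⟩

section maps

variable {V W V' W' : Type}

/-- functoriality of the join. -/
def joinMap {G : SimpleGraph V} {H : SimpleGraph W} {G' : SimpleGraph V'} {H' : SimpleGraph W'}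
    (a : G →g G') (b : H →g H') : join G H →g join G' H' :=
  ⟨Sum.map a b, by
    rintro (x | x) (y | y) h
    · simpa using a.map_adj (by simpa using h)
    · simp
    · simp
    · simpa using b.map_adj (by simpa using h)⟩

/-- functoriality of the disjunctive product. -/
def disjMap {G : SimpleGraph V} {H : SimpleGraph W} {G' : SimpleGraph V'} {H' : SimpleGraph W'}
    (a : G →g G') (b : H →g H') : disj G H →g disj G' H' :=
  ⟨Prod.map a b, by
    rintro ⟨x1, x2⟩ ⟨y1, y2⟩ h
    rcases h with h | h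
    · exact Or.inl (a.map_adj h)
    · exact Or.inr (b.map_adj h)⟩

end maps

noncomputable instance : Add GQ :=
  ⟨Quotient.lift₂ (fun G H : FG => cls (join G.2 H.2)) (by
    rintro G H G' H' ⟨⟨a⟩, ⟨b⟩⟩ ⟨⟨c⟩, ⟨d⟩⟩
    exact cls_eq ⟨joinMap a c⟩ ⟨joinMap b d⟩)⟩

noncomputable instance : Mul GQ :=
  ⟨Quotient.lift₂ (fun G H : FG => cls (disj G.2 H.2)) (by
    rintro G H G' H' ⟨⟨a⟩, ⟨b⟩⟩ ⟨⟨c⟩, ⟨d⟩⟩
    exact cls_eq ⟨disjMap a c⟩ ⟨disjMap b d⟩)⟩

noncomputable instance : Zero GQ := ⟨cls (⊤ : SimpleGraph (Fin 0))⟩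

noncomputable instance : One GQ := ⟨cls (⊤ : SimpleGraph (Fin 1))⟩

theorem zero_def : (0 : GQ) = cls (⊤ : SimpleGraph (Fin 0)) := rfl

theorem one_def : (1 : GQ) = cls (⊤ : SimpleGraph (Fin 1)) := rfl

theorem add_cls {V W : Type} [Finite V] [Finite W] (G : SimpleGraph V) (H : SimpleGraph W) :
    cls G + cls H = cls (join G H) := by
  change cls (join (G.comap (Finite.equivFin V).symm) (H.comap (Finite.equivFin W).symm)) = _
  obtain ⟨c⟩ := to_rep G
  obtain ⟨d⟩ := to_rep H
  obtain ⟨e⟩ := of_rep G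
  obtain ⟨f⟩ := of_rep H
  exact cls_eq ⟨joinMap e f⟩ ⟨joinMap c d⟩

theorem mul_cls {V W : Type} [Finite V] [Finite W] (G : SimpleGraph V) (H : SimpleGraph W) :
    cls G * cls H = cls (disj G H) := by
  change cls (disj (G.comap (Finite.equivFin V).symm) (H.comap (Finite.equivFin W).symm)) = _
  obtain ⟨c⟩ := to_rep G
  obtain ⟨d⟩ := to_rep H
  obtain ⟨e⟩ := of_rep G
  obtain ⟨f⟩ := of_rep H
  exact cls_eq ⟨disjMap e f⟩ ⟨disjMap c d⟩

noncomputable instance : CommSemiring GQ where
  add_assoc := by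
    intro a b c
    induction a using GQ.ind with
    | h n G =>
    induction b using GQ.ind with
    | h m H =>
    induction c using GQ.ind with
    | h k K =>
    rw [add_cls, add_cls, add_cls, add_cls]
    refine cls_eq ⟨⟨Equiv.sumAssoc _ _ _, ?_⟩⟩ ⟨⟨(Equiv.sumAssoc _ _ _).symm, ?_⟩⟩
    · rintro ((x | x) | x) ((y | y) | y) h <;> simp_all
    · rintro (x | (x | x)) (y | (y | y)) h <;> simp_all
  zero_add := by
    intro a
    induction a using GQ.ind with
    | h n G =>
    rw [zero_def, add_cls]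
    refine cls_eq ⟨⟨Sum.elim (fun x => x.elim0) id, ?_⟩⟩ ⟨⟨Sum.inr, ?_⟩⟩
    · rintro (x | x) (y | y) h
      · exact x.elim0
      · exact x.elim0
      · exact y.elim0
      · simpa using h
    · rintro x y h
      simpa using h
  add_zero := by
    intro a
    induction a using GQ.ind with
    | h n G =>
    rw [zero_def, add_cls]
    refine cls_eq ⟨⟨Sum.elim id (fun x => x.elim0), ?_⟩⟩ ⟨⟨Sum.inl, ?_⟩⟩
    · rintro (x | x) (y | y) h
      · simpa using h
      · exact y.elim0
      · exact x.elim0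
      · exact x.elim0
    · rintro x y h
      simpa using h
  nsmul := nsmulRec
  add_comm := by
    intro a b
    induction a using GQ.ind with
    | h n G =>
    induction b using GQ.ind with
    | h m H =>
    rw [add_cls, add_cls]
    refine cls_eq ⟨⟨Sum.swap, ?_⟩⟩ ⟨⟨Sum.swap, ?_⟩⟩
    · rintro (x | x) (y | y) h <;> simp_all
    · rintro (x | x) (y | y) h <;> simp_all
  left_distrib := by
    intro a b c
    induction a using GQ.ind with
    | h n G =>
    induction b using GQ.ind with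
    | h m H =>
    induction c using GQ.ind with
    | h k K =>
    rw [add_cls, mul_cls, mul_cls, mul_cls, add_cls]
    refine cls_eq ⟨⟨fun x => Sum.elim (fun b => Sum.inl (x.1, b)) (fun b => Sum.inr (x.1, b)) x.2,
      ?_⟩⟩ ⟨⟨Sum.elim (fun x => (x.1, Sum.inl x.2)) (fun x => (x.1, Sum.inr x.2)), ?_⟩⟩
    · rintro ⟨x, (x' | x')⟩ ⟨y, (y' | y')⟩ h <;> simp_all
    · rintro (⟨x, x'⟩ | ⟨x, x'⟩) (⟨y, y'⟩ | ⟨y, y'⟩) h <;> simp_all
  right_distrib := by
    intro a b c
    induction a using GQ.ind with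
    | h n G =>
    induction b using GQ.ind with
    | h m H =>
    induction c using GQ.ind with
    | h k K =>
    rw [add_cls, mul_cls, mul_cls, mul_cls, add_cls]
    refine cls_eq ⟨⟨fun x => Sum.elim (fun b => Sum.inl (b, x.2)) (fun b => Sum.inr (b, x.2)) x.1,
      ?_⟩⟩ ⟨⟨Sum.elim (fun x => (Sum.inl x.1, x.2)) (fun x => (Sum.inr x.1, x.2)), ?_⟩⟩
    · rintro ⟨(x' | x'), x⟩ ⟨(y' | y'), y⟩ h <;> simp_all
    · rintro (⟨x, x'⟩ | ⟨x, x'⟩) (⟨y, y'⟩ | ⟨y, y'⟩) h <;> simp_all
  zero_mul := by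
    intro a
    induction a using GQ.ind with
    | h n G =>
    rw [zero_def, mul_cls]
    refine cls_eq ⟨⟨fun x => x.1, ?_⟩⟩ ⟨⟨fun x => x.elim0, ?_⟩⟩
    · rintro ⟨x, _⟩
      exact x.elim0
    · rintro x
      exact x.elim0
  mul_zero := by
    intro a
    induction a using GQ.ind with
    | h n G =>
    rw [zero_def, mul_cls]
    refine cls_eq ⟨⟨fun x => x.2, ?_⟩⟩ ⟨⟨fun x => x.elim0, ?_⟩⟩
    · rintro ⟨_, x⟩
      exact x.elim0
    · rintro x
      exact x.elim0
  mul_assoc := by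
    intro a b c
    induction a using GQ.ind with
    | h n G =>
    induction b using GQ.ind with
    | h m H =>
    induction c using GQ.ind with
    | h k K =>
    rw [mul_cls, mul_cls, mul_cls, mul_cls]
    refine cls_eq ⟨⟨Equiv.prodAssoc _ _ _, ?_⟩⟩ ⟨⟨(Equiv.prodAssoc _ _ _).symm, ?_⟩⟩
    · rintro ⟨⟨x, y⟩, z⟩ ⟨⟨x', y'⟩, z'⟩ h
      simp_all [or_assoc]
    · rintro ⟨x, ⟨y, z⟩⟩ ⟨x', ⟨y', z'⟩⟩ h
      simp_all [or_assoc]
  one_mul := by
    intro a
    induction a using GQ.ind with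
    | h n G =>
    rw [one_def, mul_cls]
    refine cls_eq ⟨⟨fun x => x.2, ?_⟩⟩ ⟨⟨fun x => (0, x), ?_⟩⟩
    · rintro ⟨x, y⟩ ⟨x', y'⟩ h
      rcases h with h | h
      · exact absurd (Subsingleton.elim x x') (by simpa using h)
      · simpa using h
    · rintro x y h
      exact Or.inr h
  mul_one := by
    intro a
    induction a using GQ.ind with
    | h n G =>
    rw [one_def, mul_cls]
    refine cls_eq ⟨⟨fun x => x.1, ?_⟩⟩ ⟨⟨fun x => (x, 0), ?_⟩⟩
    · rintro ⟨x, y⟩ ⟨x', y'⟩ h
      rcases h with h | h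
      · simpa using h
      · exact absurd (Subsingleton.elim y y') (by simpa using h)
    · rintro x y h
      exact Or.inl h
  mul_comm := by
    intro a b
    induction a using GQ.ind with
    | h n G =>
    induction b using GQ.ind with
    | h m H =>
    rw [mul_cls, mul_cls]
    refine cls_eq ⟨⟨Prod.swap, ?_⟩⟩ ⟨⟨Prod.swap, ?_⟩⟩
    · rintro ⟨x, y⟩ ⟨x', y'⟩ h
      simp_all [or_comm]
    · rintro ⟨x, y⟩ ⟨x', y'⟩ h
      simp_all [or_comm]

theorem nat_cls (n : ℕ) : (n : GQ) = cls (⊤ : SimpleGraph (Fin n)) := by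
  induction n with
  | zero => simp [zero_def]
  | succ n ih =>
    push_cast
    rw [ih, one_def, add_cls]
    refine cls_eq ⟨⟨Sum.elim Fin.castSucc (fun _ => Fin.last n), ?_⟩⟩
      ⟨⟨fun x => if h : (x : ℕ) < n then Sum.inl ⟨x, h⟩ else Sum.inr 0, ?_⟩⟩
    · rintro (x | x) (y | y) h
      · simp only [Sum.elim_inl, SimpleGraph.top_adj] at h ⊢
        intro he
        apply (by simpa using h : x ≠ y)
        exact Fin.castSucc_injective n he
      · simp only [Sum.elim_inl, Sum.elim_inr, SimpleGraph.top_adj]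
        exact (Fin.castSucc_lt_last x).ne
      · simp only [Sum.elim_inl, Sum.elim_inr, SimpleGraph.top_adj]
        exact (Fin.castSucc_lt_last y).ne'
      · exfalso
        rw [join_rr] at h
        exact (by simpa using h : x ≠ y) (Subsingleton.elim x y)
    · intro x y h
      have hne : x ≠ y := by simpa using h
      split_ifs with h1 h2 h2
      · simp only [join_ll, SimpleGraph.top_adj, ne_eq, Fin.mk.injEq]
        intro he
        exact hne (Fin.ext he)
      · simp
      · simp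
      · exfalso
        apply hne
        apply Fin.ext
        omega

theorem card_cls (V : Type) [Finite V] : cls (⊤ : SimpleGraph V) = (Nat.card V : GQ) := by
  rw [nat_cls]
  refine cls_eq ⟨⟨Finite.equivFin V, ?_⟩⟩ ⟨⟨(Finite.equivFin V).symm, ?_⟩⟩
  · intro a b h
    simpa using h
  · intro a b h
    simpa using h

/-- the `n`-fold disjunctive power. -/
def dpow {V : Type} (n : ℕ) (G : SimpleGraph V) : SimpleGraph (Fin n → V) where
  Adj x y := ∃ t, G.Adj (x t) (y t)
  symm := ⟨by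
    rintro x y ⟨t, h⟩
    exact ⟨t, h.symm⟩⟩
  loopless := ⟨by
    rintro x ⟨t, h⟩
    exact G.irrefl h⟩

@[simp] theorem dpow_adj {V : Type} (n : ℕ) (G : SimpleGraph V) (x y : Fin n → V) :
    (dpow n G).Adj x y ↔ ∃ t, G.Adj (x t) (y t) := Iff.rfl

theorem pow_cls {V : Type} [Finite V] (G : SimpleGraph V) (n : ℕ) :
    cls G ^ n = cls (dpow n G) := by
  induction n with
  | zero =>
    rw [pow_zero, one_def]
    refine cls_eq ⟨⟨fun _ => Fin.elim0, ?_⟩⟩ ⟨⟨fun _ => 0, ?_⟩⟩
    · intro x y h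
      exact absurd (Subsingleton.elim x y) (by simpa using h)
    · rintro x y ⟨t, _⟩
      exact t.elim0
  | succ n ih =>
    rw [pow_succ, ih, mul_cls]
    refine cls_eq ⟨⟨fun x => Fin.snoc x.1 x.2, ?_⟩⟩ ⟨⟨fun x => (Fin.init x, x (Fin.last n)), ?_⟩⟩
    · rintro ⟨x, x'⟩ ⟨y, y'⟩ h
      rcases h with ⟨t, h⟩ | h
      · exact ⟨t.castSucc, by simpa using h⟩
      · exact ⟨Fin.last n, by simpa using h⟩
    · rintro x y ⟨t, h⟩
      induction t using Fin.lastCases with
      | last => exact Or.inr h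
      | cast t => exact Or.inl ⟨t, h⟩

theorem qle_base : Base (S := GQ) qle := by
  refine ⟨?_, ?_, ?_, ?_⟩
  · intro x
    induction x using GQ.ind with
    | h n G => exact qle_cls.mpr ⟨.id⟩
  · intro x
    induction x using GQ.ind with
    | h n G =>
      rw [zero_def]
      exact qle_cls.mpr ⟨⟨fun x => x.elim0, by rintro x; exact x.elim0⟩⟩
  · intro x
    induction x using GQ.ind with
    | h n G =>
      rcases n with _ | n
      · left
        rw [zero_def]
        congr 1
        ext x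
        exact x.elim0
      · right
        rw [one_def]
        refine qle_cls.mpr ⟨⟨fun _ => 0, ?_⟩⟩
        intro x y h
        exact absurd (Subsingleton.elim x y) (by simpa using h)
  · intro x
    induction x using GQ.ind with
    | h n G =>
      refine ⟨n, ?_⟩
      rw [nat_cls]
      refine qle_cls.mpr ⟨⟨id, ?_⟩⟩
      intro x y h
      simpa using h.ne

theorem qle_good : Good (S := GQ) qle qle := by
  refine ⟨fun x y h => h, ?_, ?_, ?_, ?_⟩
  · intro x y z
    induction x using GQ.ind with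
    | h n G =>
    induction y using GQ.ind with
    | h m H =>
    induction z using GQ.ind with
    | h k K =>
    rw [qle_cls, qle_cls, qle_cls]
    rintro ⟨a⟩ ⟨b⟩
    exact ⟨b.comp a⟩
  · intro x y z
    induction x using GQ.ind with
    | h n G =>
    induction y using GQ.ind with
    | h m H =>
    induction z using GQ.ind with
    | h k K =>
    rw [add_cls, add_cls, qle_cls, qle_cls]
    rintro ⟨a⟩
    exact ⟨joinMap a .id⟩
  · intro x y z
    induction x using GQ.ind with
    | h n G =>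
    induction y using GQ.ind with
    | h m H =>
    induction z using GQ.ind with
    | h k K =>
    rw [mul_cls, mul_cls, qle_cls, qle_cls]
    rintro ⟨a⟩
    exact ⟨disjMap a .id⟩
  · intro n h
    have h1 : qle (((n + 1 : ℕ) : GQ)) (n : GQ) := by
      push_cast
      exact h
    rw [nat_cls, nat_cls, qle_cls] at h1
    obtain ⟨f⟩ := h1
    have hinj : Function.Injective f := by
      intro x y hxy
      by_contra hne
      have := f.map_adj (show (⊤ : SimpleGraph (Fin (n + 1))).Adj x y from hne)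
      exact this hxy
    have := Fintype.card_le_of_injective f hinj
    simp at this

/-- The invariant attached to a semiring homomorphism on classes. -/
noncomputable def invOf (φ : GQ → ℝ) : ∀ (V : Type) [Finite V], SimpleGraph V → ℝ :=
  fun _ _ G => φ (cls G)

theorem invOf_invariant (φ : GQ → ℝ) (h0 : ∀ x, 0 ≤ φ x) (h1 : φ 1 = 1)
    (hm : ∀ x y, qle x y → φ x ≤ φ y) (ha : ∀ x y, φ (x + y) = φ x + φ y)
    (hmul : ∀ x y, φ (x * y) = φ x * φ y) : IsSemiringInvariant (invOf φ) where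
  nonneg := fun V _ G => h0 _
  one := h1
  mono := fun V W _ _ G H h => hm _ _ (qle_cls.mpr h)
  join := fun V W _ _ G H => by
    change φ (cls (join G H)) = _
    rw [← add_cls, ha]
    rfl
  disj := fun V W _ _ G H => by
    change φ (cls (disj G H)) = _
    rw [← mul_cls, hmul]
    rfl

end Pool.Agent.H6.Lex
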