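import Mathlib
import Pool.Agent.H6.LexSemiring

/-!
The counting argument: there is no homomorphism from many joined copies of a power of the
5-cycle to a power of the lexicographic product of the 5-cycle with a large complete graph.
-/

open Finset

namespace Pool.Agent.H6.Lex

/-- the vector inequality behind both steps. -/
theorem vec_ineq {Y I : Type} [Fintype Y] [Fintype I] (u : Y → I → ℝ) (h : I → ℝ) (τ : ℝ)
    (hτ : ∀ y, ∑ i, h i * u y i = τ) (n : ℕ) (g : (Fin n → Y) → ℝ) :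
    (∑ y, g y) ^ 2 * (τ ^ n) ^ 2 ≤ (∑ i, h i ^ 2) ^ n *
      ∑ y, ∑ y', g y * g y' * ∏ t, (∑ i, u (y t) i * u (y' t) i) := by
  classical
  have key : ∀ F : Fin n → I → ℝ, ∑ j : Fin n → I, ∏ t, F t (j t) = ∏ t, ∑ i, F t i := by
    intro F
    rw [Finset.prod_univ_sum, Fintype.piFinset_univ]
  have h1 : ∀ y : Fin n → Y, ∑ j : Fin n → I, (∏ t, h (j t)) * ∏ t, u (y t) (j t) = τ ^ n := by
    intro y
    have := key (fun t i => h i * u (y t) i)
    simp only [Finset.prod_mul_distrib] at this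
    rw [this]
    simp [hτ]
  have h2 : ∑ j : Fin n → I, (∏ t, h (j t)) ^ 2 = (∑ i, h i ^ 2) ^ n := by
    have := key (fun _ i => h i ^ 2)
    simp only [Finset.prod_pow] at this
    rw [this]
    simp
  have h3 : ∑ j : Fin n → I, (∑ y, g y * ∏ t, u (y t) (j t)) ^ 2 =
      ∑ y, ∑ y', g y * g y' * ∏ t, (∑ i, u (y t) i * u (y' t) i) := by
    have e1 : ∀ j : Fin n → I, (∑ y, g y * ∏ t, u (y t) (j t)) ^ 2 =
        ∑ y, ∑ y', g y * g y' * ∏ t, (u (y t) (j t) * u (y' t) (j t)) := by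
      intro j
      rw [sq, Finset.sum_mul_sum]
      refine Finset.sum_congr rfl fun y _ => Finset.sum_congr rfl fun y' _ => ?_
      rw [Finset.prod_mul_distrib]
      ring
    simp only [e1]
    rw [Finset.sum_comm]
    refine Finset.sum_congr rfl fun y _ => ?_
    rw [Finset.sum_comm]
    refine Finset.sum_congr rfl fun y' _ => ?_
    rw [← Finset.mul_sum]
    congr 1
    exact key (fun t i => u (y t) i * u (y' t) i)
  have h4 : ∑ j : Fin n → I, (∏ t, h (j t)) * (∑ y, g y * ∏ t, u (y t) (j t)) =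
      (∑ y, g y) * τ ^ n := by
    simp only [Finset.mul_sum]
    rw [Finset.sum_comm, Finset.sum_mul]
    refine Finset.sum_congr rfl fun y _ => ?_
    rw [← h1 y, Finset.mul_sum]
    refine Finset.sum_congr rfl fun j _ => ?_
    ring
  have h5 := Finset.sum_mul_sq_le_sq_mul_sq (Finset.univ : Finset (Fin n → I))
    (fun j => ∏ t, h (j t)) (fun j => ∑ y, g y * ∏ t, u (y t) (j t))
  rw [h4, h2, h3] at h5
  rw [← mul_pow]
  exact h5

/-- the 5-cycle. -/
abbrev C5 : SimpleGraph (Fin 5) := SimpleGraph.cycleGraph 5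

theorem c5_adj (a b : Fin 5) : C5.Adj a b ↔ (b = a + 1 ∨ a = b + 1) := by
  rw [SimpleGraph.cycleGraph_adj]
  revert a b
  decide

theorem cross_small' : ∀ A B : Finset (Fin 5), A.Nonempty → B.Nonempty →
    (∀ a ∈ A, ∀ b ∈ B, ¬ (b = a + 1 ∨ a = b + 1)) → A.card * B.card ≤ 4 := by
  decide +kernel

theorem cross_small (A B : Finset (Fin 5)) (hA : A.Nonempty) (hB : B.Nonempty)
    (h : ∀ a ∈ A, ∀ b ∈ B, ¬ C5.Adj a b) : A.card * B.card ≤ 4 := by
  refine cross_small' A B hA hB ?_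
  intro a ha b hb
  rw [← c5_adj]
  exact h a ha b hb

/-- cross-independent sets in powers of the 5-cycle. -/
theorem cross_card {L : Type} {n : ℕ} (F N : Finset (L × (Fin n → Fin 5)))
    (h : ∀ x ∈ F, ∀ x' ∈ N, ¬ (disj (⊤ : SimpleGraph L) (dpow n C5)).Adj x x') :
    F.card * N.card ≤ 4 ^ n := by
  classical
  rcases F.eq_empty_or_nonempty with rfl | hF
  · simp
  rcases N.eq_empty_or_nonempty with rfl | hN
  · simp
  have h' : ∀ x ∈ F, ∀ x' ∈ N, x.1 = x'.1 ∧ ∀ t, ¬ C5.Adj (x.2 t) (x'.2 t) := by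
    intro x hx x' hx'
    have := h x hx x' hx'
    rw [disj_adj, dpow_adj] at this
    push Not at this
    exact ⟨by simpa using this.1, this.2⟩
  obtain ⟨x0, hx0⟩ := hF
  obtain ⟨y0, hy0⟩ := hN
  have hFl : ∀ x ∈ F, x.1 = y0.1 := fun x hx => (h' x hx y0 hy0).1
  have hNl : ∀ x ∈ N, x.1 = x0.1 := fun x hx => (h' x0 hx0 x hx).1.symm
  have hF1 : F.card ≤ ∏ t, (F.image (fun x => x.2 t)).card := by
    rw [← Fintype.card_piFinset]
    apply Finset.card_le_card_of_injOn (fun x => x.2)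
    · intro x hx
      rw [Finset.mem_coe, Fintype.mem_piFinset]
      intro t
      exact Finset.mem_image.mpr ⟨x, hx, rfl⟩
    · intro x hx y hy hxy
      exact Prod.ext ((hFl x hx).trans (hFl y hy).symm) hxy
  have hN1 : N.card ≤ ∏ t, (N.image (fun x => x.2 t)).card := by
    rw [← Fintype.card_piFinset]
    apply Finset.card_le_card_of_injOn (fun x => x.2)
    · intro x hx
      rw [Finset.mem_coe, Fintype.mem_piFinset]
      intro t
      exact Finset.mem_image.mpr ⟨x, hx, rfl⟩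
    · intro x hx y hy hxy
      exact Prod.ext ((hNl x hx).trans (hNl y hy).symm) hxy
  calc F.card * N.card ≤ (∏ t, (F.image (fun x => x.2 t)).card) *
        ∏ t, (N.image (fun x => x.2 t)).card := Nat.mul_le_mul hF1 hN1
    _ = ∏ t : Fin n, ((F.image (fun x => x.2 t)).card * (N.image (fun x => x.2 t)).card) := by
        rw [Finset.prod_mul_distrib]
    _ ≤ ∏ _t : Fin n, 4 := by
        apply Finset.prod_le_prod'
        intro t _
        apply cross_small
        · exact ⟨x0.2 t, Finset.mem_image.mpr ⟨x0, hx0, rfl⟩⟩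
        · exact ⟨y0.2 t, Finset.mem_image.mpr ⟨y0, hy0, rfl⟩⟩
        · intro a ha b hb
          obtain ⟨x, hx, rfl⟩ := Finset.mem_image.mp ha
          obtain ⟨y, hy, rfl⟩ := Finset.mem_image.mp hb
          exact (h' x hx y hy).2 t
    _ = 4 ^ n := by simp

/-- lexicographic product of the 5-cycle with a complete graph. -/
abbrev LX (d : ℕ) : SimpleGraph (Fin 5 × Fin d) := lex C5 ⊤

theorem lx_adj {d : ℕ} (y y' : Fin 5 × Fin d) :
    (LX d).Adj y y' ↔ C5.Adj y.1 y'.1 ∨ (y.1 = y'.1 ∧ y.2 ≠ y'.2) := by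
  rw [lex_adj, SimpleGraph.top_adj]

/-! ### first family of vectors -/

/-- indicator vectors of pairs of nonadjacent vertices. -/
noncomputable def u1 (d : ℕ) (y : Fin 5 × Fin d) (c : Fin 5 × Fin d × Fin d) : ℝ :=
  (if c.1 = y.1 then (if c.2.1 = y.2 then 1 else 0) else 0) +
    (if c.1 = y.1 + 3 then (if c.2.2 = y.2 then 1 else 0) else 0)

theorem sum_c {d : ℕ} (F : Fin 5 × Fin d × Fin d → ℝ) :
    ∑ c, F c = ∑ v, ∑ i, ∑ j, F (v, i, j) := by
  rw [Fintype.sum_prod_type]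
  refine Finset.sum_congr rfl fun v _ => ?_
  rw [Fintype.sum_prod_type]

theorem sum_pick1 {d : ℕ} (a : Fin 5) (b : Fin d) (F : Fin 5 × Fin d × Fin d → ℝ) :
    ∑ c, (if c.1 = a then (if c.2.1 = b then F c else 0) else 0) = ∑ j, F (a, b, j) := by
  rw [sum_c, Finset.sum_eq_single a, Finset.sum_eq_single b]
  · simp
  · intro i _ hi
    simp [hi]
  · simp
  · intro v _ hv
    simp [hv]
  · simp

theorem sum_pick2 {d : ℕ} (a : Fin 5) (b : Fin d) (F : Fin 5 × Fin d × Fin d → ℝ) :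
    ∑ c, (if c.1 = a then (if c.2.2 = b then F c else 0) else 0) = ∑ i, F (a, i, b) := by
  rw [sum_c, Finset.sum_eq_single a]
  · refine Finset.sum_congr rfl fun i _ => ?_
    rw [Finset.sum_eq_single b]
    · simp
    · intro j _ hj
      simp [hj]
    · simp
  · intro v _ hv
    simp [hv]
  · simp

theorem u1_sum (d : ℕ) (y : Fin 5 × Fin d) : ∑ c, (1 : ℝ) * u1 d y c = 2 * d := by
  obtain ⟨a, b⟩ := y
  simp only [one_mul, u1, Finset.sum_add_distrib]
  rw [sum_pick1 a b (fun _ => 1), sum_pick2 (a + 3) b (fun _ => 1)]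
  simp
  ring

theorem fin5_a (a a' : Fin 5) : a + 3 = a' → ¬ (a = a' + 3) := by
  revert a a'; decide

theorem fin5_b (a : Fin 5) : ¬ (a = a + 3) := by
  revert a; decide

theorem u1_kernel (d : ℕ) (y y' : Fin 5 × Fin d) : ∑ c, u1 d y c * u1 d y' c =
    (if y.1 = y'.1 then (if y.2 = y'.2 then 2 * (d : ℝ) else 0) else 0) +
      (if y.1 = y'.1 + 3 then 1 else 0) + (if y.1 + 3 = y'.1 then 1 else 0) := by
  obtain ⟨a, b⟩ := y
  obtain ⟨a', b'⟩ := y'
  have e : ∀ c : Fin 5 × Fin d × Fin d, u1 d (a, b) c * u1 d (a', b') c =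
      (if c.1 = a then (if c.2.1 = b then u1 d (a', b') c else 0) else 0) +
      (if c.1 = a + 3 then (if c.2.2 = b then u1 d (a', b') c else 0) else 0) := by
    intro c
    conv_lhs => rw [u1]
    rw [add_mul]
    simp only [ite_mul, one_mul, zero_mul]
  rw [Finset.sum_congr rfl fun c _ => e c, Finset.sum_add_distrib, sum_pick1, sum_pick2]
  simp only [u1, Finset.sum_add_distrib]
  have n1 : a + 3 = a' + 3 ↔ a = a' := add_left_inj 3
  have n2 : (a + 3 = a') → ¬ (a = a' + 3) := fin5_a a a'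
  by_cases h1 : a = a'
  · subst h1
    have n3 : ¬ (a = a + 3) := fin5_b a
    have n4 : ¬ (a + 3 = a) := fun h => n3 h.symm
    by_cases h2 : b = b'
    · subst h2
      simp [n3, n4]
      ring
    · simp [n3, n4, h2]
  · by_cases h3 : a = a' + 3
    · have n5 : ¬ (a + 3 = a') := fun h => n2 h h3
      simp [h1, n1, n5, ← h3]
    · by_cases h4 : a + 3 = a'
      · simp [h1, n1, h3, h4]
      · simp [h1, n1, h3, h4]

open scoped Classical in
/-- weights. -/
noncomputable def wt (d : ℕ) (z : ℝ) (y y' : Fin 5 × Fin d) : ℝ :=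
  if y = y' then 2 * d else (if (LX d).Adj y y' then 0 else z)

theorem wt_nonneg (d : ℕ) {z : ℝ} (hz : 0 ≤ z) (y y' : Fin 5 × Fin d) : 0 ≤ wt d z y y' := by
  unfold wt
  split_ifs <;> positivity

theorem wt_symm (d : ℕ) (z : ℝ) (y y' : Fin 5 × Fin d) : wt d z y y' = wt d z y' y := by
  unfold wt
  by_cases h : y = y'
  · simp [h]
  · have h' : ¬ y' = y := fun e => h e.symm
    by_cases h2 : (LX d).Adj y y'
    · rw [if_neg h, if_neg h', if_pos h2, if_pos h2.symm]
    · have h3 : ¬ (LX d).Adj y' y := fun e => h2 e.symm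
      rw [if_neg h, if_neg h', if_neg h2, if_neg h3]

theorem c5_cases (a b : Fin 5) :
    a = b ∨ C5.Adj a b ∨ (b = a + 3 ∧ ¬ C5.Adj a b) ∨ (b = a + 2 ∧ ¬ C5.Adj a b) := by
  simp only [c5_adj]
  revert a b; decide

theorem u1_le_wt (d : ℕ) (y y' : Fin 5 × Fin d) :
    0 ≤ ∑ c, u1 d y c * u1 d y' c ∧ ∑ c, u1 d y c * u1 d y' c ≤ wt d 1 y y' := by
  rw [u1_kernel]
  constructor
  · positivity
  · obtain ⟨a, b⟩ := y
    obtain ⟨a', b'⟩ := y'
    have h3 : ¬ (a = a + 3) := fin5_b a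
    have h3' : ¬ (a + 3 = a) := fun h => h3 h.symm
    rcases c5_cases a a' with h | h | ⟨h, h'⟩ | ⟨h, h'⟩
    · subst h
      by_cases hb : b = b'
      · subst hb
        simp [wt, h3, h3']
      · simp [wt, h3, h3', hb]
    · have h1 : ¬ (a = a') := h.ne
      have h2 : ¬ (a = a' + 3) ∧ ¬ (a + 3 = a') := by
        rw [c5_adj] at h
        clear h3 h3' h1
        revert a a'; decide
      simp [wt, h1, h2.1, h2.2, h]
    · have h1 : ¬ (a = a') := by rw [h]; exact h3
      have h2 : ¬ (a = a' + 3) := fin5_a a a' h.symm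
      have h4 : ¬ (LX d).Adj (a, b) (a', b') := by
        rw [lx_adj]
        simp [h', h1]
      simp [wt, h1, h2, h', h.symm]
    · have h1 : ¬ (a = a') := by
        rw [h]; clear h h' h3 h3'; revert a; decide
      have h2 : a = a' + 3 := by
        rw [h]; clear h h' h3 h3' h1; revert a; decide
      have h5 : ¬ (a + 3 = a') := fun h => fin5_a a a' h h2
      have h4 : ¬ (LX d).Adj (a, b) (a', b') := by
        rw [lx_adj]
        simp [h', h1]
      simp only [wt, h1, h5, h4]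
      simp [← h2, h1]

theorem wt_sum (d : ℕ) {z : ℝ} (hz : 0 ≤ z) (y : Fin 5 × Fin d) :
    ∑ y', wt d z y y' ≤ 2 * d * (1 + z) := by
  have hle : ∀ y' : Fin 5 × Fin d, wt d z y y' ≤ (if y = y' then 2 * (d : ℝ) else 0) +
      (if y'.1 = y.1 + 3 then z else 0) + (if y'.1 = y.1 + 2 then z else 0) := by
    intro y'
    by_cases h : y = y'
    · subst h
      simp only [wt, if_true]
      have : (0 : ℝ) ≤ (if y.1 = y.1 + 3 then z else 0) := by positivity
      have : (0 : ℝ) ≤ (if y.1 = y.1 + 2 then z else 0) := by positivity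
      linarith
    · by_cases h' : (LX d).Adj y y'
      · simp only [wt, h, h', if_false, if_true]
        positivity
      · simp only [wt, h, h', if_false]
        rw [lx_adj] at h'
        push Not at h'
        have h1 : ¬ (y.1 = y'.1) := fun e => h (Prod.ext e (h'.2 e))
        rcases c5_cases y.1 y'.1 with h2 | h2 | ⟨h2, _⟩ | ⟨h2, _⟩
        · exact absurd h2 h1
        · exact absurd h2 h'.1
        · have : (0 : ℝ) ≤ (if y'.1 = y.1 + 2 then z else 0) := by positivity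
          rw [if_pos h2]
          linarith
        · have : (0 : ℝ) ≤ (if y'.1 = y.1 + 3 then z else 0) := by positivity
          rw [if_pos h2]
          linarith
  refine (Finset.sum_le_sum fun y' _ => hle y').trans ?_
  rw [Finset.sum_add_distrib, Finset.sum_add_distrib]
  have e1 : ∑ y' : Fin 5 × Fin d, (if y = y' then 2 * (d : ℝ) else 0) = 2 * d := by simp
  have e2 : ∀ c : Fin 5, ∑ y' : Fin 5 × Fin d, (if y'.1 = c then z else 0) = d * z := by
    intro c
    rw [Fintype.sum_prod_type]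
    have : ∀ x : Fin 5, ∑ _x1 : Fin d, (if x = c then z else 0) =
        if x = c then (d : ℝ) * z else 0 := by
      intro x
      split_ifs <;> simp
    simp only [this]
    simp
  rw [e1, e2, e2]
  linarith

/-! ### second family of vectors -/

/-- the integer weights `(12, -1, 6, 6, -1)`. -/
def fz : Fin 5 → ℤ := ![12, -1, 6, 6, -1]

theorem fz_sum (v : Fin 5) : ∑ j, fz (j - v) = 22 := by
  revert v; decide

theorem fz_kernel (v v' : Fin 5) : 0 ≤ ∑ j, fz (j - v) * fz (j - v') ∧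
    ∑ j, fz (j - v) * fz (j - v') ≤ 218 := by
  revert v v'; decide

theorem fz_adj' : ∀ v v' : Fin 5, (v' = v + 1 ∨ v = v' + 1) →
    ∑ j, fz (j - v) * fz (j - v') = 0 := by
  decide

/-- the second family. -/
noncomputable def u2 (d : ℕ) (y : Fin 5 × Fin d) (c : Fin 5 × Fin d) : ℝ :=
  if c.2 = y.2 then (fz (c.1 - y.1) : ℝ) else 0

theorem u2_sum (d : ℕ) (y : Fin 5 × Fin d) : ∑ c, (1 : ℝ) * u2 d y c = 22 := by
  rw [Fintype.sum_prod_type]
  simp only [one_mul, u2, Finset.sum_ite_eq', Finset.mem_univ, if_true]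
  have := fz_sum y.1
  exact_mod_cast this

theorem u2_kernel (d : ℕ) (y y' : Fin 5 × Fin d) : ∑ c, u2 d y c * u2 d y' c =
    if y.2 = y'.2 then ((∑ j, fz (j - y.1) * fz (j - y'.1) : ℤ) : ℝ) else 0 := by
  rw [Fintype.sum_prod_type]
  simp only [u2, ite_mul, zero_mul, Finset.sum_ite_eq', Finset.mem_univ, if_true]
  split_ifs with h
  · push_cast
    rfl
  · simp

theorem u2_le (d : ℕ) (y y' : Fin 5 × Fin d) :
    0 ≤ ∑ c, u2 d y c * u2 d y' c ∧ ∑ c, u2 d y c * u2 d y' c ≤ 218 := by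
  rw [u2_kernel]
  obtain ⟨h1, h2⟩ := fz_kernel y.1 y'.1
  split_ifs
  · constructor
    · exact_mod_cast h1
    · exact_mod_cast h2
  · norm_num

theorem u2_adj (d : ℕ) (y y' : Fin 5 × Fin d) (h : (LX d).Adj y y') :
    ∑ c, u2 d y c * u2 d y' c = 0 := by
  rw [u2_kernel]
  rw [lx_adj] at h
  rcases h with h | ⟨_, h⟩
  · rw [c5_adj] at h
    rw [fz_adj' _ _ h]
    simp
  · simp [h]

/-! ### the two inequalities for one colour -/

section steps

variable {n d : ℕ}

/-- being nonadjacent (or equal) in the power. -/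
def conf (y y' : Fin n → Fin 5 × Fin d) : Prop := ∀ t, ¬ (LX d).Adj (y t) (y' t)

open scoped Classical in
theorem prod_wt_split (hd : 1 ≤ d) {z : ℝ} (hz : 0 < z) (hz1 : z ≤ 1) (K : ℕ)
    (y y' : Fin n → Fin 5 × Fin d) :
    ∏ t, wt d 1 (y t) (y' t) ≤ (if conf y y' then (2 * (d : ℝ)) ^ n / (2 * d) ^ K else 0) +
      (z ^ K)⁻¹ * ∏ t, wt d z (y t) (y' t) := by
  have hD : (1 : ℝ) ≤ 2 * d := by
    have : (1 : ℝ) ≤ d := by exact_mod_cast hd
    linarith
  by_cases hc : conf y y'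
  · have e : ∀ w : ℝ, ∏ t, wt d w (y t) (y' t) =
        (2 * (d : ℝ)) ^ (Finset.univ.filter (fun t => y t = y' t)).card *
          w ^ (Finset.univ.filter (fun t => ¬ y t = y' t)).card := by
      intro w
      have : ∀ t, wt d w (y t) (y' t) = if y t = y' t then 2 * (d : ℝ) else w := by
        intro t
        unfold wt
        rw [if_neg (hc t)]
      simp only [this]
      rw [Finset.prod_ite, Finset.prod_const, Finset.prod_const]
    have hcard := Finset.card_filter_add_card_filter_not (s := (Finset.univ : Finset (Fin n)))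
      (fun t => y t = y' t)
    rw [Finset.card_univ, Fintype.card_fin] at hcard
    rw [e, e, if_pos hc]
    set A := (Finset.univ.filter (fun t => y t = y' t)).card
    set B := (Finset.univ.filter (fun t => ¬ y t = y' t)).card
    rw [one_pow, mul_one]
    rcases le_total K B with hK | hK
    · have h1 : (2 * (d : ℝ)) ^ A ≤ (2 * (d : ℝ)) ^ n / (2 * d) ^ K := by
        rw [le_div_iff₀ (by positivity), ← pow_add]
        exact pow_le_pow_right₀ hD (by omega)
      have h2 : 0 ≤ (z ^ K)⁻¹ * ((2 * (d : ℝ)) ^ A * z ^ B) := by positivity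
      linarith
    · have h1 : (2 * (d : ℝ)) ^ A ≤ (z ^ K)⁻¹ * ((2 * (d : ℝ)) ^ A * z ^ B) := by
        have h3 : z ^ K ≤ z ^ B := pow_le_pow_of_le_one hz.le hz1 hK
        have h4 : 0 < z ^ K := by positivity
        rw [inv_mul_eq_div, le_div_iff₀ h4]
        gcongr
      have h2 : 0 ≤ (2 * (d : ℝ)) ^ n / (2 * d) ^ K := by positivity
      linarith
  · rw [if_neg hc, zero_add]
    have hc' : ∃ t, (LX d).Adj (y t) (y' t) := by
      unfold conf at hc
      push Not at hc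
      exact hc
    obtain ⟨t, ht⟩ := hc'
    have : ∏ t, wt d 1 (y t) (y' t) = 0 := by
      apply Finset.prod_eq_zero (Finset.mem_univ t)
      unfold wt
      rw [if_neg ht.ne, if_pos ht]
    rw [this]
    have h4 : 0 ≤ ∏ t, wt d z (y t) (y' t) :=
      Finset.prod_nonneg fun t _ => wt_nonneg d hz.le _ _
    positivity

theorem quad_wt {z : ℝ} (hz : 0 ≤ z) (g : (Fin n → Fin 5 × Fin d) → ℝ) (hg : ∀ y, 0 ≤ g y) :
    ∑ y, ∑ y', g y * g y' * ∏ t, wt d z (y t) (y' t) ≤
      (2 * d * (1 + z)) ^ n * ∑ y, g y ^ 2 := by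
  have hW : ∀ y y' : Fin n → Fin 5 × Fin d, 0 ≤ ∏ t, wt d z (y t) (y' t) := fun y y' =>
    Finset.prod_nonneg fun t _ => wt_nonneg d hz _ _
  have hsum : ∀ y : Fin n → Fin 5 × Fin d, ∑ y' : Fin n → Fin 5 × Fin d,
      ∏ t, wt d z (y t) (y' t) ≤ (2 * d * (1 + z)) ^ n := by
    intro y
    have e : ∑ y' : Fin n → Fin 5 × Fin d, ∏ t, wt d z (y t) (y' t) =
        ∏ t, ∑ c, wt d z (y t) c := by
      rw [Finset.prod_univ_sum, Fintype.piFinset_univ]
    rw [e]
    calc ∏ t, ∑ c, wt d z (y t) c ≤ ∏ _t : Fin n, (2 * d * (1 + z)) := by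
          apply Finset.prod_le_prod
          · intro t _
            exact Finset.sum_nonneg fun c _ => wt_nonneg d hz _ _
          · intro t _
            exact wt_sum d hz _
      _ = (2 * d * (1 + z)) ^ n := by simp
  have h1 : ∑ y, ∑ y', g y * g y' * ∏ t, wt d z (y t) (y' t) ≤
      ∑ y, ∑ y', ((g y ^ 2) / 2 * (∏ t, wt d z (y t) (y' t)) +
        (g y' ^ 2) / 2 * (∏ t, wt d z (y' t) (y t))) := by
    refine Finset.sum_le_sum fun y _ => Finset.sum_le_sum fun y' _ => ?_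
    have e : ∏ t, wt d z (y' t) (y t) = ∏ t, wt d z (y t) (y' t) :=
      Finset.prod_congr rfl fun t _ => wt_symm d z _ _
    rw [e, ← add_mul]
    apply mul_le_mul_of_nonneg_right _ (hW y y')
    nlinarith [sq_nonneg (g y - g y')]
  refine h1.trans ?_
  simp only [Finset.sum_add_distrib]
  have h2 : ∑ y : Fin n → Fin 5 × Fin d, ∑ y' : Fin n → Fin 5 × Fin d,
      (g y' ^ 2) / 2 * (∏ t, wt d z (y' t) (y t)) =
      ∑ y : Fin n → Fin 5 × Fin d, ∑ y' : Fin n → Fin 5 × Fin d,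
        (g y ^ 2) / 2 * (∏ t, wt d z (y t) (y' t)) := Finset.sum_comm
  rw [h2, ← two_mul, Finset.mul_sum, Finset.mul_sum]
  refine Finset.sum_le_sum fun y _ => ?_
  rw [← Finset.mul_sum]
  have := hsum y
  have h2 : 0 ≤ g y ^ 2 := sq_nonneg _
  nlinarith

open scoped Classical in
theorem step1 (hd : 1 ≤ d) {z : ℝ} (hz : 0 < z) (hz1 : z ≤ 1) (K : ℕ)
    (μ : (Fin n → Fin 5 × Fin d) → ℝ) (h0 : ∀ y, μ y = 0 ∨ 1 ≤ μ y)
    (hP : ∀ y, μ y * ∑ y', (if conf y y' then μ y' else 0) ≤ 4 ^ n) :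
    (∑ y, μ y) ^ 2 * ((2 * (d : ℝ)) ^ n) ^ 2 ≤ (5 * (d : ℝ) ^ 2) ^ n *
      ((2 * (d : ℝ)) ^ n / (2 * d) ^ K * 4 ^ n * ∑ y, μ y +
        (z ^ K)⁻¹ * ((2 * d * (1 + z)) ^ n * ∑ y, μ y ^ 2)) := by
  have hμ : ∀ y, 0 ≤ μ y := fun y => by rcases h0 y with h | h <;> linarith
  have h1 := vec_ineq (u1 d) (fun _ => 1) (2 * d) (u1_sum d) n μ
  have e1 : (∑ _c : Fin 5 × Fin d × Fin d, (1 : ℝ) ^ 2) = 5 * (d : ℝ) ^ 2 := by
    simp
    ring
  rw [e1] at h1
  refine h1.trans ?_
  apply mul_le_mul_of_nonneg_left _ (by positivity)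
  have h2 : ∀ y y' : Fin n → Fin 5 × Fin d,
      ∏ t, (∑ c, u1 d (y t) c * u1 d (y' t) c) ≤ ∏ t, wt d 1 (y t) (y' t) := by
    intro y y'
    apply Finset.prod_le_prod
    · intro t _
      exact (u1_le_wt d _ _).1
    · intro t _
      exact (u1_le_wt d _ _).2
  have h3 : ∑ y, ∑ y', μ y * μ y' * ∏ t, (∑ c, u1 d (y t) c * u1 d (y' t) c) ≤
      ∑ y, ∑ y', (μ y * (if conf y y' then μ y' else 0) * ((2 * (d : ℝ)) ^ n / (2 * d) ^ K) +
        (z ^ K)⁻¹ * (μ y * μ y' * ∏ t, wt d z (y t) (y' t))) := by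
    refine Finset.sum_le_sum fun y _ => Finset.sum_le_sum fun y' _ => ?_
    have h4 := (h2 y y').trans (prod_wt_split hd hz hz1 K y y')
    have h5 : 0 ≤ μ y * μ y' := mul_nonneg (hμ y) (hμ y')
    calc μ y * μ y' * ∏ t, (∑ c, u1 d (y t) c * u1 d (y' t) c) ≤
          μ y * μ y' * ((if conf y y' then (2 * (d : ℝ)) ^ n / (2 * d) ^ K else 0) +
            (z ^ K)⁻¹ * ∏ t, wt d z (y t) (y' t)) := mul_le_mul_of_nonneg_left h4 h5
      _ = _ := by
          split_ifs <;> ring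
  refine h3.trans ?_
  simp only [Finset.sum_add_distrib, ← Finset.mul_sum, ← Finset.sum_mul]
  have h6 : ∑ y, μ y * ∑ y', (if conf y y' then μ y' else 0) ≤ 4 ^ n * ∑ y, μ y := by
    rw [Finset.mul_sum]
    refine Finset.sum_le_sum fun y _ => ?_
    rcases h0 y with h | h
    · rw [h]; simp
    · have := hP y
      have h7 : (0 : ℝ) ≤ 4 ^ n := by positivity
      nlinarith
  have h7 := quad_wt (d := d) hz.le μ hμ
  have h8 : (0 : ℝ) ≤ (2 * (d : ℝ)) ^ n / (2 * d) ^ K := by positivity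
  have h9 : (0 : ℝ) ≤ (z ^ K)⁻¹ := by positivity
  have h10 := mul_le_mul_of_nonneg_right h6 h8
  have h11 := mul_le_mul_of_nonneg_left h7 h9
  calc _ ≤ 4 ^ n * (∑ y, μ y) * ((2 * (d : ℝ)) ^ n / (2 * d) ^ K) +
        (z ^ K)⁻¹ * ((2 * d * (1 + z)) ^ n * ∑ y, μ y ^ 2) := add_le_add h10 h11
    _ = _ := by ring

open scoped Classical in
theorem step2 (μ : (Fin n → Fin 5 × Fin d) → ℝ) (h0 : ∀ y, 0 ≤ μ y)
    (hP : ∀ y, μ y * ∑ y', (if conf y y' then μ y' else 0) ≤ 4 ^ n) :
    (∑ y, μ y ^ 2) ^ 2 * ((22 : ℝ) ^ n) ^ 2 ≤ (5 * (d : ℝ)) ^ n *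
      (218 ^ n * (8 ^ n * ∑ y, μ y)) := by
  have h1 := vec_ineq (u2 d) (fun _ => 1) 22 (u2_sum d) n (fun y => μ y ^ 2)
  have e1 : (∑ _c : Fin 5 × Fin d, (1 : ℝ) ^ 2) = 5 * (d : ℝ) := by
    simp
  rw [e1] at h1
  refine h1.trans ?_
  apply mul_le_mul_of_nonneg_left _ (by positivity)
  have hle2 : ∀ y, μ y ≤ 2 ^ n := by
    intro y
    have hc : conf y y := fun t => (LX d).irrefl
    have h2 : μ y * μ y ≤ 4 ^ n := by
      refine le_trans ?_ (hP y)
      apply mul_le_mul_of_nonneg_left _ (h0 y)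
      have := Finset.single_le_sum (f := fun y' => if conf y y' then μ y' else 0)
        (fun y' _ => by
          split_ifs
          · exact h0 y'
          · exact le_rfl) (Finset.mem_univ y)
      simpa [hc] using this
    have e : (4 : ℝ) ^ n = 2 ^ n * 2 ^ n := by
      rw [← mul_pow]; norm_num
    rw [e] at h2
    nlinarith [h0 y, show (0 : ℝ) < 2 ^ n by positivity]
  have h2 : ∀ y y' : Fin n → Fin 5 × Fin d,
      ∏ t, (∑ c, u2 d (y t) c * u2 d (y' t) c) ≤ if conf y y' then 218 ^ n else 0 := by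
    intro y y'
    split_ifs with hc
    · calc ∏ t, (∑ c, u2 d (y t) c * u2 d (y' t) c) ≤ ∏ _t : Fin n, (218 : ℝ) := by
            apply Finset.prod_le_prod
            · intro t _
              exact (u2_le d _ _).1
            · intro t _
              exact (u2_le d _ _).2
        _ = 218 ^ n := by simp
    · unfold conf at hc
      push Not at hc
      obtain ⟨t, ht⟩ := hc
      apply le_of_eq
      apply Finset.prod_eq_zero (Finset.mem_univ t)
      exact u2_adj d _ _ ht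
  rw [Finset.mul_sum, Finset.mul_sum]
  refine Finset.sum_le_sum fun y _ => ?_
  have h3 : ∀ y', μ y ^ 2 * μ y' ^ 2 * ∏ t, (∑ c, u2 d (y t) c * u2 d (y' t) c) ≤
      218 ^ n * (μ y * 2 ^ n) * (μ y * (if conf y y' then μ y' else 0)) := by
    intro y'
    have h4 : 0 ≤ μ y ^ 2 * μ y' ^ 2 := by positivity
    refine (mul_le_mul_of_nonneg_left (h2 y y') h4).trans ?_
    split_ifs
    · have h5 := hle2 y'
      have h6 : 0 ≤ (218 : ℝ) ^ n * (μ y ^ 2 * μ y') := by
        have := h0 y'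
        positivity
      calc μ y ^ 2 * μ y' ^ 2 * 218 ^ n = 218 ^ n * (μ y ^ 2 * μ y') * μ y' := by ring
        _ ≤ 218 ^ n * (μ y ^ 2 * μ y') * 2 ^ n := mul_le_mul_of_nonneg_left h5 h6
        _ = _ := by ring
    · simp
  refine (Finset.sum_le_sum fun y' _ => h3 y').trans ?_
  rw [← Finset.mul_sum, ← Finset.mul_sum]
  have h4 : 0 ≤ 218 ^ n * (μ y * 2 ^ n) := by
    have := h0 y
    positivity
  refine (mul_le_mul_of_nonneg_left (hP y) h4).trans (le_of_eq ?_)
  have e : (8 : ℝ) ^ n = 2 ^ n * 4 ^ n := by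
    rw [← mul_pow]; norm_num
  rw [e]
  ring

end steps

end Pool.Agent.H6.Lex
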