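import Mathlib
import Pool.Agent.H6.LexCount

/-!
Assembly of the counting argument and of the duality theorem.
-/

open Finset

namespace Pool.Agent.H6.Lex

section count

variable {L Q : Type} [Fintype L] [Fintype Q] {n d : ℕ}

open scoped Classical in
/-- fibre sizes. -/
noncomputable def fib (f : L × (Fin n → Fin 5) → Q × (Fin n → Fin 5 × Fin d)) (k : Q)
    (y : Fin n → Fin 5 × Fin d) : ℝ :=
  ((Finset.univ.filter (fun x => f x = (k, y))).card : ℝ)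

open scoped Classical in
theorem fib_sum (f : L × (Fin n → Fin 5) → Q × (Fin n → Fin 5 × Fin d)) :
    ∑ k, ∑ y, fib f k y = Fintype.card L * 5 ^ n := by
  have h := Finset.card_eq_sum_card_fiberwise (f := f) (s := Finset.univ) (t := Finset.univ)
    (fun x _ => Finset.mem_coe.mpr (Finset.mem_univ _))
  have h2 : (Finset.univ : Finset (L × (Fin n → Fin 5))).card = Fintype.card L * 5 ^ n := by
    rw [Finset.card_univ, Fintype.card_prod, Fintype.card_fun, Fintype.card_fin, Fintype.card_fin]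
  rw [h2, Fintype.sum_prod_type] at h
  have h3 : ((Fintype.card L * 5 ^ n : ℕ) : ℝ) =
      ((∑ k : Q, ∑ y : Fin n → Fin 5 × Fin d,
        (Finset.univ.filter (fun x => f x = (k, y))).card : ℕ) : ℝ) := by
    rw [h]
  push_cast at h3
  rw [h3]
  rfl

open scoped Classical in
theorem fib_prod (f : disj (⊤ : SimpleGraph L) (dpow n C5) →g
      disj (⊤ : SimpleGraph Q) (dpow n (LX d))) (k : Q) (y : Fin n → Fin 5 × Fin d) :
    fib f k y * ∑ y', (if conf y y' then fib f k y' else 0) ≤ 4 ^ n := by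
  set N : Finset (L × (Fin n → Fin 5)) :=
    Finset.univ.filter (fun x => (f x).1 = k ∧ conf y (f x).2) with hN
  have h1 : ∑ y', (if conf y y' then fib f k y' else 0) = (N.card : ℝ) := by
    have h := Finset.card_eq_sum_card_fiberwise (f := fun x => (f x).2) (s := N)
      (t := Finset.univ) (fun x _ => Finset.mem_coe.mpr (Finset.mem_univ _))
    rw [h]
    push_cast
    refine Finset.sum_congr rfl fun y' _ => ?_
    split_ifs with hc
    · unfold fib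
      congr 2
      ext x
      simp only [hN, Finset.mem_filter, Finset.mem_univ, true_and]
      constructor
      · intro hx
        rw [hx]
        exact ⟨⟨rfl, hc⟩, rfl⟩
      · rintro ⟨⟨h1, h2⟩, h3⟩
        exact Prod.ext h1 h3
    · symm
      rw [Nat.cast_eq_zero, Finset.card_eq_zero]
      ext x
      simp only [hN, Finset.mem_filter, Finset.mem_univ, true_and, Finset.notMem_empty, iff_false]
      rintro ⟨⟨h1, h2⟩, h3⟩
      rw [h3] at h2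
      exact hc h2
  rw [h1]
  have h2 := cross_card (Finset.univ.filter (fun x => f x = (k, y))) N (by
    intro x hx x' hx' hadj
    simp only [Finset.mem_filter, Finset.mem_univ, true_and, hN] at hx hx'
    have h3 := f.map_adj hadj
    rw [disj_adj, dpow_adj, SimpleGraph.top_adj] at h3
    rcases h3 with h3 | ⟨t, h3⟩
    · apply h3
      rw [hx, hx'.1]
    · rw [hx] at h3
      exact hx'.2 t h3)
  unfold fib
  exact_mod_cast h2

open scoped Classical in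
theorem fib_zero_or (f : L × (Fin n → Fin 5) → Q × (Fin n → Fin 5 × Fin d)) (k : Q)
    (y : Fin n → Fin 5 × Fin d) : fib f k y = 0 ∨ 1 ≤ fib f k y := by
  unfold fib
  rcases Nat.eq_zero_or_pos (Finset.univ.filter (fun x => f x = (k, y))).card with h | h
  · left
    rw [h]
    simp
  · right
    exact_mod_cast h

/-- the final counting inequality. -/
theorem count_final {p K : ℕ} (hd : 1 ≤ d) (hp : 1 ≤ p) (hL : Fintype.card L = p * d ^ n)
    {z : ℝ} (hz : 0 < z) (hz1 : z ≤ 1)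
    (f : disj (⊤ : SimpleGraph L) (dpow n C5) →g disj (⊤ : SimpleGraph Q) (dpow n (LX d)))
    (hα : 2 * (Fintype.card Q : ℝ) * 2 ^ n ≤ p * (2 * d) ^ K) :
    (p : ℝ) ^ 3 * 1936 ^ n ≤
      4 * (Fintype.card Q : ℝ) ^ 3 * ((z ^ K)⁻¹ * (1 + z) ^ n) ^ 2 * 1744 ^ n := by
  classical
  set q : ℝ := (Fintype.card Q : ℝ) with hq
  have hd0 : (0 : ℝ) < d := by
    have : (1 : ℝ) ≤ d := by exact_mod_cast hd
    linarith
  have hp0 : (0 : ℝ) < p := by
    have : (1 : ℝ) ≤ p := by exact_mod_cast hp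
    linarith
  have hq0 : 0 ≤ q := by positivity
  set μ := fib (f : L × (Fin n → Fin 5) → Q × (Fin n → Fin 5 × Fin d)) with hμ
  set X : ℝ := ∑ k, ∑ y, μ k y with hX
  set S2 : ℝ := ∑ k, ∑ y, μ k y ^ 2 with hS2
  have hXval : X = p * d ^ n * 5 ^ n := by
    rw [hX, hμ, fib_sum, hL]
    push_cast
    ring
  have hXpos : 0 < X := by rw [hXval]; positivity
  have hμ0 : ∀ k y, 0 ≤ μ k y := fun k y => by
    rcases fib_zero_or (f : L × (Fin n → Fin 5) → Q × (Fin n → Fin 5 × Fin d)) k y with h | h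
    · exact h.ge
    · exact le_trans zero_le_one h
  have hS20 : 0 ≤ S2 := Finset.sum_nonneg fun k _ => Finset.sum_nonneg fun y _ => sq_nonneg _
  -- step 1
  have hI : X ^ 2 * ((2 * (d : ℝ)) ^ n) ^ 2 ≤ q * ((5 * (d : ℝ) ^ 2) ^ n *
      ((2 * (d : ℝ)) ^ n / (2 * d) ^ K * 4 ^ n * X +
        (z ^ K)⁻¹ * ((2 * d * (1 + z)) ^ n * S2))) := by
    have h1 := fun k => step1 (n := n) hd hz hz1 K (μ k) (fib_zero_or _ k) (fib_prod f k)
    have h2 : X ^ 2 ≤ q * ∑ k, (∑ y, μ k y) ^ 2 := by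
      have := sq_sum_le_card_mul_sum_sq (s := (Finset.univ : Finset Q))
        (f := fun k => ∑ y, μ k y)
      simpa [hq] using this
    calc X ^ 2 * ((2 * (d : ℝ)) ^ n) ^ 2 ≤
          (q * ∑ k, (∑ y, μ k y) ^ 2) * ((2 * (d : ℝ)) ^ n) ^ 2 := by gcongr
      _ = q * ∑ k, (∑ y, μ k y) ^ 2 * ((2 * (d : ℝ)) ^ n) ^ 2 := by
          rw [mul_assoc, Finset.sum_mul]
      _ ≤ q * ∑ k, (5 * (d : ℝ) ^ 2) ^ n *
            ((2 * (d : ℝ)) ^ n / (2 * d) ^ K * 4 ^ n * ∑ y, μ k y +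
            (z ^ K)⁻¹ * ((2 * d * (1 + z)) ^ n * ∑ y, μ k y ^ 2)) := by
          apply mul_le_mul_of_nonneg_left _ hq0
          exact Finset.sum_le_sum fun k _ => h1 k
      _ = _ := by
          rw [← Finset.mul_sum, Finset.sum_add_distrib, ← Finset.mul_sum, ← Finset.mul_sum,
            ← Finset.mul_sum]
  -- step 2
  have hII : S2 ^ 2 * ((22 : ℝ) ^ n) ^ 2 ≤ q * ((5 * (d : ℝ)) ^ n *
      (218 ^ n * (8 ^ n * X))) := by
    have h1 := fun k => step2 (n := n) (d := d) (μ k) (hμ0 k) (fib_prod f k)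
    have h2 : S2 ^ 2 ≤ q * ∑ k, (∑ y, μ k y ^ 2) ^ 2 := by
      have := sq_sum_le_card_mul_sum_sq (s := (Finset.univ : Finset Q))
        (f := fun k => ∑ y, μ k y ^ 2)
      simpa [hq] using this
    calc S2 ^ 2 * ((22 : ℝ) ^ n) ^ 2 ≤
          (q * ∑ k, (∑ y, μ k y ^ 2) ^ 2) * ((22 : ℝ) ^ n) ^ 2 := by gcongr
      _ = q * ∑ k, (∑ y, μ k y ^ 2) ^ 2 * ((22 : ℝ) ^ n) ^ 2 := by
          rw [mul_assoc, Finset.sum_mul]
      _ ≤ q * ∑ k, (5 * (d : ℝ)) ^ n * (218 ^ n * (8 ^ n * ∑ y, μ k y)) := by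
          apply mul_le_mul_of_nonneg_left _ hq0
          exact Finset.sum_le_sum fun k _ => h1 k
      _ = _ := by
          rw [← Finset.mul_sum, ← Finset.mul_sum, ← Finset.mul_sum]
  clear_value X S2
  clear hμ0 hμ hX hS2
  clear μ
  -- algebra
  set B : ℝ := (z ^ K)⁻¹ * (1 + z) ^ n with hB
  set D : ℝ := (d : ℝ) ^ n with hD
  have hDpos : 0 < D := by positivity
  set T : ℝ := (2 * (d : ℝ)) ^ K with hT
  have hTpos : 0 < T := by positivity
  have e1 : (2 * (d : ℝ)) ^ n = 2 ^ n * D := by rw [mul_pow]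
  have e2 : (5 * (d : ℝ) ^ 2) ^ n = 5 ^ n * D ^ 2 := by
    rw [mul_pow, hD, ← pow_mul, ← pow_mul, mul_comm 2 n]
  have e3 : (2 * (d : ℝ) * (1 + z)) ^ n = 2 ^ n * D * (1 + z) ^ n := by
    rw [mul_pow, mul_pow]
  have e4 : (5 * (d : ℝ)) ^ n = 5 ^ n * D := by rw [mul_pow]
  have e5 : (4 : ℝ) ^ n = 2 ^ n * 2 ^ n := by rw [← mul_pow]; norm_num
  rw [e1, e2, e3, e5] at hI
  rw [e4] at hII
  have h5 : (0 : ℝ) < 5 ^ n := by positivity
  have h2 : (0 : ℝ) < 2 ^ n := by positivity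
  set s5 : ℝ := 5 ^ n with hs5
  set s2 : ℝ := 2 ^ n with hs2
  -- the far term is at most half of the left side
  have hfar : q * (s5 * D ^ 2 * (s2 * D / T * (s2 * s2) * X)) ≤ (X ^ 2 * (s2 * D) ^ 2) / 2 := by
    have h6 : q * (s5 * D ^ 2 * (s2 * D / T * (s2 * s2) * X)) =
        (2 * q * s2) * (s5 * D ^ 3 * s2 ^ 2 * X / (2 * T)) := by
      field_simp
    rw [h6]
    calc (2 * q * s2) * (s5 * D ^ 3 * s2 ^ 2 * X / (2 * T)) ≤
          (p * T) * (s5 * D ^ 3 * s2 ^ 2 * X / (2 * T)) := by gcongr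
      _ = (X * (p * D * s5)) * (s2 * D) ^ 2 / 2 := by
          field_simp
      _ = (X ^ 2 * (s2 * D) ^ 2) / 2 := by
          rw [← hXval]; ring
  have hA : X ^ 2 * (s2 * D) ≤ 2 * q * s5 * D ^ 2 * B * S2 := by
    have h6 : X ^ 2 * (s2 * D) ^ 2 ≤ 2 * (q * (s5 * D ^ 2 * ((z ^ K)⁻¹ *
        (s2 * D * (1 + z) ^ n * S2)))) := by
      rw [mul_add, mul_add] at hI
      linarith
    have h7 : 0 < s2 * D := by positivity
    have h8 : (X ^ 2 * (s2 * D)) * (s2 * D) ≤ (2 * q * s5 * D ^ 2 * B * S2) * (s2 * D) := by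
      calc (X ^ 2 * (s2 * D)) * (s2 * D) = X ^ 2 * (s2 * D) ^ 2 := by ring
        _ ≤ _ := h6
        _ = _ := by rw [hB]; ring
    exact le_of_mul_le_mul_right h8 h7
  have hB0 : 0 ≤ B := by positivity
  have hsq : (X ^ 2 * (s2 * D)) ^ 2 * ((22 : ℝ) ^ n) ^ 2 ≤
      (2 * q * s5 * D ^ 2 * B) ^ 2 * (q * (s5 * D * (218 ^ n * (8 ^ n * X)))) := by
    calc (X ^ 2 * (s2 * D)) ^ 2 * ((22 : ℝ) ^ n) ^ 2 ≤
          (2 * q * s5 * D ^ 2 * B * S2) ^ 2 * ((22 : ℝ) ^ n) ^ 2 := by gcongr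
      _ = (2 * q * s5 * D ^ 2 * B) ^ 2 * (S2 ^ 2 * ((22 : ℝ) ^ n) ^ 2) := by ring
      _ ≤ _ := by gcongr
  -- cancel
  have h484 : ((22 : ℝ) ^ n) ^ 2 = 484 ^ n := by
    rw [← pow_mul, mul_comm n 2, pow_mul]; norm_num
  have h1936 : (1936 : ℝ) ^ n = s2 ^ 2 * 484 ^ n := by
    rw [hs2, sq, ← mul_pow, ← mul_pow]; norm_num
  have h1744 : (1744 : ℝ) ^ n = 218 ^ n * 8 ^ n := by
    rw [← mul_pow]; norm_num
  rw [h1936, h1744]
  rw [h484] at hsq
  have hcoef : 0 < X * (s5 ^ 3 * D ^ 5) := by positivity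
  refine le_of_mul_le_mul_left ?_ hcoef
  calc X * (s5 ^ 3 * D ^ 5) * (p ^ 3 * (s2 ^ 2 * 484 ^ n)) =
        (X * (p * D * s5) ^ 3) * (s2 * D) ^ 2 * 484 ^ n := by ring
    _ = (X ^ 2 * (s2 * D)) ^ 2 * 484 ^ n := by rw [← hXval]; ring
    _ ≤ _ := hsq
    _ = _ := by ring

end count

/-- The key failure of an asymptotic inequality. -/
theorem no_asymp (n0 m d : ℕ) (hn0 : n0 = 100) (hm : m = 1000) (hd : d = 4 ^ m) (r : ℕ) :
    ∃ N : ℕ, ¬ qle ((n0 : GQ) ^ N * ((d : GQ) * cls C5) ^ N)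
      ((r : GQ) * ((n0 + 2 : ℕ) : GQ) ^ N * (cls (LX d)) ^ N) := by
  obtain ⟨K, hK⟩ : ∃ K : ℕ, 4 * r ^ 3 + 2 * r < 2 ^ K := ⟨_, Nat.lt_two_pow_self⟩
  obtain ⟨N, hN⟩ : ∃ N : ℕ, N = m * K := ⟨_, rfl⟩
  refine ⟨N, ?_⟩
  intro h
  have e1 : (n0 : GQ) ^ N * ((d : GQ) * cls C5) ^ N =
      cls (disj (⊤ : SimpleGraph (Fin (n0 ^ N * d ^ N))) (dpow N C5)) := by
    rw [← mul_cls, ← nat_cls, ← pow_cls, mul_pow]
    push_cast
    ring
  have e2 : (r : GQ) * ((n0 + 2 : ℕ) : GQ) ^ N * (cls (LX d)) ^ N =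
      cls (disj (⊤ : SimpleGraph (Fin (r * (n0 + 2) ^ N))) (dpow N (LX d))) := by
    rw [← mul_cls, ← nat_cls, ← pow_cls]
    push_cast
    ring
  rw [e1, e2, qle_cls] at h
  obtain ⟨f⟩ := h
  have hd1 : 1 ≤ d := by rw [hd]; exact Nat.one_le_pow _ _ (by norm_num)
  have hKr : (4 : ℝ) * r ^ 3 + 2 * r < 2 ^ K := by exact_mod_cast hK
  have hr0 : (0 : ℝ) ≤ r := by positivity
  have hdr : (d : ℝ) = 4 ^ m := by rw [hd]; push_cast; rfl
  subst hn0
  have hfin := count_final (n := N) (d := d) (p := 100 ^ N) (K := K) hd1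
    (Nat.one_le_pow _ _ (by norm_num)) (by rw [Fintype.card_fin]) (z := 1 / 1000) (by norm_num)
    (by norm_num) f (by
      rw [Fintype.card_fin]
      push_cast
      have h1 : (2 * (d : ℝ)) ^ K = 2 ^ K * 4 ^ N := by
        rw [mul_pow, hdr, ← pow_mul, ← hN]
      rw [h1]
      have h2 : (2 : ℝ) * r ≤ 2 ^ K := by
        have : (0 : ℝ) ≤ 4 * r ^ 3 := by positivity
        linarith
      calc 2 * ((r : ℝ) * 102 ^ N) * 2 ^ N = (2 * r) * (102 * 2) ^ N := by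
            rw [mul_pow]; ring
        _ ≤ 2 ^ K * (100 * 4) ^ N := by
            apply mul_le_mul h2 _ (by positivity) (by positivity)
            exact pow_le_pow_left₀ (by norm_num) (by norm_num) N
        _ = 100 ^ N * (2 ^ K * 4 ^ N) := by rw [mul_pow]; ring)
  rw [Fintype.card_fin] at hfin
  push_cast at hfin
  -- rewrite as `1 ≤ 4 r ^ 3 * (…) ^ K`
  set ρ : ℝ := (102 / 100) ^ 3 * (1001 / 1000) ^ 2 * (1744 / 1936) with hρ
  have hρ0 : 0 ≤ ρ := by positivity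
  have hρ1 : ρ ≤ 479 / 500 := by rw [hρ]; norm_num
  have hρ2 : ρ ^ m * 1000000 ≤ 1 / 2 := by
    have h1 : ρ ^ 50 ≤ 1 / 8 := by
      calc ρ ^ 50 ≤ (479 / 500) ^ 50 := by gcongr
        _ ≤ 1 / 8 := by norm_num
    have h2 : ρ ^ m ≤ (1 / 8) ^ 20 := by
      calc ρ ^ m = (ρ ^ 50) ^ 20 := by rw [← pow_mul, hm]
        _ ≤ (1 / 8) ^ 20 := by gcongr
    calc ρ ^ m * 1000000 ≤ (1 / 8) ^ 20 * 1000000 := by gcongr
      _ ≤ 1 / 2 := by norm_num
  have hmain : (1 : ℝ) ≤ 4 * r ^ 3 * (ρ ^ m * 1000000) ^ K := by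
    have hpos : (0 : ℝ) < ((100 : ℝ) ^ N) ^ 3 * 1936 ^ N := by positivity
    have h1 : 4 * ((r : ℝ) * 102 ^ N) ^ 3 * (((1 / 1000 : ℝ) ^ K)⁻¹ * (1 + 1 / 1000) ^ N) ^ 2 *
        1744 ^ N = (4 * r ^ 3 * (ρ ^ m * 1000000) ^ K) *
          (((100 : ℝ) ^ N) ^ 3 * 1936 ^ N) := by
      have h2 : (ρ ^ m * 1000000) ^ K = ρ ^ N * (1000 ^ K) ^ 2 := by
        have h21 : ((1000 : ℝ) ^ K) ^ 2 = 1000000 ^ K := by
          rw [← pow_mul, mul_comm K 2, pow_mul]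
          norm_num
        rw [mul_pow, ← pow_mul, ← hN, h21]
      have h3 : ((1 / 1000 : ℝ) ^ K)⁻¹ = 1000 ^ K := by
        rw [← inv_pow]; norm_num
      have h4 : (1 + 1 / 1000 : ℝ) = 1001 / 1000 := by norm_num
      have h5 : ρ ^ N * (((100 : ℝ) ^ N) ^ 3 * 1936 ^ N) =
          (102 ^ N) ^ 3 * ((1001 / 1000 : ℝ) ^ N) ^ 2 * 1744 ^ N := by
        have h51 : ρ ^ N = ((102 / 100 : ℝ) ^ N) ^ 3 * ((1001 / 1000 : ℝ) ^ N) ^ 2 *
            (1744 / 1936 : ℝ) ^ N := by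
          rw [hρ, mul_pow, mul_pow, ← pow_mul, ← pow_mul, ← pow_mul, ← pow_mul, mul_comm 3 N,
            mul_comm 2 N]
        rw [h51, div_pow (102 : ℝ), div_pow (1744 : ℝ)]
        have h52 : (0 : ℝ) < 100 ^ N := by positivity
        have h53 : (0 : ℝ) < 1936 ^ N := by positivity
        field_simp
      rw [h2, h3, h4]
      calc 4 * ((r : ℝ) * 102 ^ N) ^ 3 * (1000 ^ K * (1001 / 1000 : ℝ) ^ N) ^ 2 * 1744 ^ N =
            4 * r ^ 3 * (1000 ^ K) ^ 2 *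
              ((102 ^ N) ^ 3 * ((1001 / 1000 : ℝ) ^ N) ^ 2 * 1744 ^ N) := by ring
        _ = 4 * r ^ 3 * (1000 ^ K) ^ 2 * (ρ ^ N * (((100 : ℝ) ^ N) ^ 3 * 1936 ^ N)) := by
            rw [h5]
        _ = _ := by ring
    rw [h1] at hfin
    by_contra hcon
    push Not at hcon
    have := mul_lt_mul_of_pos_right hcon hpos
    rw [one_mul] at this
    linarith
  have h1 : (ρ ^ m * 1000000) ^ K ≤ (1 / 2) ^ K := by
    apply pow_le_pow_left₀ _ hρ2
    positivity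
  have h2 : (1 : ℝ) ≤ 4 * r ^ 3 * (1 / 2) ^ K := by
    calc (1 : ℝ) ≤ 4 * r ^ 3 * (ρ ^ m * 1000000) ^ K := hmain
      _ ≤ 4 * r ^ 3 * (1 / 2) ^ K := by gcongr
  have h3 : (2 : ℝ) ^ K ≤ 4 * r ^ 3 := by
    have h4 : (1 / 2 : ℝ) ^ K * 2 ^ K = 1 := by
      rw [← mul_pow]; norm_num
    have h5 : (0 : ℝ) < 2 ^ K := by positivity
    calc (2 : ℝ) ^ K = 1 * 2 ^ K := by ring
      _ ≤ 4 * r ^ 3 * (1 / 2) ^ K * 2 ^ K := by gcongr
      _ = 4 * r ^ 3 * ((1 / 2) ^ K * 2 ^ K) := by ring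
      _ = 4 * r ^ 3 := by rw [h4, mul_one]
  have : (0 : ℝ) ≤ 2 * r := by positivity
  linarith

/-- amplification of a single inequality. -/
theorem amplify {S : Type} [CommSemiring S] {R : S → S → Prop} (hR : Base R) (hRg : Good R R)
    (a b : S) (hb : R 1 b) (n0 n : ℕ) (s : S)
    (h : R ((n : S) + 1 + s * (n0 * a)) (n + s * ((n0 + 1 : ℕ) * b))) :
    ∃ r : ℕ, ∀ N : ℕ, R ((n0 : S) ^ N * a ^ N) (r * ((n0 + 2 : ℕ) : S) ^ N * b ^ N) := by
  have hs : R 1 s := by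
    rcases hR.one s with hs | hs
    · exfalso
      subst hs
      apply hRg.nat n
      simpa using h
    · exact hs
  have h0 : R ((n : S) + (1 + s * (n0 * a))) (n + s * ((n0 + 1 : ℕ) * b)) := by
    rwa [← add_assoc]
  have h1 := hRg.iter hR h0 (n + 1)
  obtain ⟨s', hs'⟩ : ∃ s' : S, s' = ((n + 1 : ℕ) : S) * s := ⟨_, rfl⟩
  have h2 : R ((n0 : S) * (s' * a)) ((n : S) + (n + 1 : ℕ) * (1 + s * (n0 * a))) := by
    have h3 := hRg.le_add hR ((n0 : S) * (s' * a)) ((n : S) + (n + 1 : ℕ))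
    have e : (n : S) + (n + 1 : ℕ) * (1 + s * (n0 * a)) =
        (n0 : S) * (s' * a) + ((n : S) + (n + 1 : ℕ)) := by
      rw [hs']; ring
    rw [e]
    exact h3
  have h3 : R ((n : S) + (n + 1 : ℕ) * (s * ((n0 + 1 : ℕ) * b)))
      (((n0 + 2 : ℕ) : S) * (s' * b)) := by
    have h4 : R ((n : ℕ) : S) (s' * b) := by
      have h5 : R ((n : ℕ) : S) ((n + 1 : ℕ) : S) := hRg.nat_mono hR (Nat.le_succ n)
      have h6 : R (((n + 1 : ℕ) : S) * (1 * 1)) (((n + 1 : ℕ) : S) * (s * b)) :=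
        hRg.mul2 (hRg.refl hR _) (hRg.mul2 hs hb)
      rw [mul_one, mul_one, ← mul_assoc, ← hs'] at h6
      exact hRg.trans _ _ _ h5 h6
    have h7 := hRg.add2 h4 (hRg.refl hR (((n + 1 : ℕ) : S) * (s * ((n0 + 1 : ℕ) * b))))
    have e : ((n0 + 2 : ℕ) : S) * (s' * b) =
        s' * b + ((n + 1 : ℕ) : S) * (s * ((n0 + 1 : ℕ) * b)) := by
      rw [hs']; push_cast; ring
    rw [e]
    exact h7
  have h4 : R ((n0 : S) * (s' * a)) (((n0 + 2 : ℕ) : S) * (s' * b)) :=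
    hRg.trans _ _ _ (hRg.trans _ _ _ h2 h1) h3
  have h5 : ∀ N : ℕ, R ((n0 : S) ^ N * s' * a ^ N) (((n0 + 2 : ℕ) : S) ^ N * s' * b ^ N) := by
    intro N
    induction N with
    | zero => simpa using hRg.refl hR s'
    | succ N ih =>
      have i1 := hRg.mul _ _ ((n0 : S) * a) ih
      have i2 := hRg.mul _ _ (((n0 + 2 : ℕ) : S) ^ N * b ^ N) h4
      have e1 : (n0 : S) ^ (N + 1) * s' * a ^ (N + 1) = (n0 : S) ^ N * s' * a ^ N * (n0 * a) := by
        ring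
      have e2 : ((n0 + 2 : ℕ) : S) ^ N * s' * b ^ N * (n0 * a) =
          (n0 : S) * (s' * a) * (((n0 + 2 : ℕ) : S) ^ N * b ^ N) := by ring
      have e3 : ((n0 + 2 : ℕ) : S) ^ (N + 1) * s' * b ^ (N + 1) =
          ((n0 + 2 : ℕ) : S) * (s' * b) * (((n0 + 2 : ℕ) : S) ^ N * b ^ N) := by ring
      rw [e1, e3]
      rw [e2] at i1
      exact hRg.trans _ _ _ i1 i2
  obtain ⟨r, hr⟩ := hR.bdd s'
  refine ⟨r, fun N => ?_⟩
  have h1s : R 1 s' := by
    have h6 : R ((1 : ℕ) : S) ((n + 1 : ℕ) : S) := hRg.nat_mono hR (by omega)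
    have h7 := hRg.mul2 h6 hs
    rw [Nat.cast_one, one_mul, ← hs'] at h7
    exact h7
  have j1 : R ((n0 : S) ^ N * a ^ N) ((n0 : S) ^ N * s' * a ^ N) := by
    have := hRg.mul _ _ ((n0 : S) ^ N * a ^ N) h1s
    have e : (n0 : S) ^ N * s' * a ^ N = s' * ((n0 : S) ^ N * a ^ N) := by ring
    rw [e]
    simpa using this
  have j2 : R (((n0 + 2 : ℕ) : S) ^ N * s' * b ^ N) (r * ((n0 + 2 : ℕ) : S) ^ N * b ^ N) := by
    have := hRg.mul _ _ (((n0 + 2 : ℕ) : S) ^ N * b ^ N) hr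
    have e1 : ((n0 + 2 : ℕ) : S) ^ N * s' * b ^ N = s' * (((n0 + 2 : ℕ) : S) ^ N * b ^ N) := by
      ring
    have e2 : (r : S) * ((n0 + 2 : ℕ) : S) ^ N * b ^ N =
        r * (((n0 + 2 : ℕ) : S) ^ N * b ^ N) := by ring
    rw [e1, e2]
    exact this
  exact hRg.trans _ _ _ (hRg.trans _ _ _ j1 (h5 N)) j2

theorem main : ∃ (d : ℕ) (η : ∀ (V : Type) [Finite V], SimpleGraph V → ℝ),
    IsSemiringInvariant η ∧
      η (Fin 5 × Fin d) (lex (SimpleGraph.cycleGraph 5) ⊤) <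
        η (Fin 5) (SimpleGraph.cycleGraph 5) * η (Fin d) ⊤ := by
  obtain ⟨n0, hn0⟩ : ∃ n0 : ℕ, n0 = 100 := ⟨_, rfl⟩
  obtain ⟨m, hm⟩ : ∃ m : ℕ, m = 1000 := ⟨_, rfl⟩
  obtain ⟨d, hd⟩ : ∃ d : ℕ, d = 4 ^ m := ⟨_, rfl⟩
  have hd1 : 1 ≤ d := by rw [hd]; exact Nat.one_le_pow _ _ (by norm_num)
  have hb : qle 1 (cls (LX d)) := by
    rw [one_def, qle_cls]
    refine ⟨⟨fun _ => (0, ⟨0, hd1⟩), ?_⟩⟩
    intro x y h
    exact absurd (Subsingleton.elim x y) (by simpa using h)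
  obtain ⟨φ, h0, h1, hm, ha, hmul, hle⟩ := exists_hom qle_base qle_good
    ((n0 : GQ) * ((d : GQ) * cls C5)) (((n0 + 1 : ℕ) : GQ) * cls (LX d)) (by
      intro n s h
      obtain ⟨r, hr⟩ := amplify qle_base qle_good ((d : GQ) * cls C5) (cls (LX d)) hb n0 n s h
      obtain ⟨N, hN⟩ := no_asymp n0 m d hn0 hm hd r
      exact hN (hr N))
  refine ⟨d, invOf φ, invOf_invariant φ h0 h1 hm ha hmul, ?_⟩
  have hφ0 : φ 0 = 0 := by
    have := ha 0 0
    rw [add_zero] at this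
    linarith
  have hnat : ∀ n : ℕ, φ (n : GQ) = n := by
    intro n
    induction n with
    | zero => simpa using hφ0
    | succ n ih =>
      push_cast
      rw [ha, ih, h1]
  rw [hmul, hmul, hmul, hnat, hnat, hnat] at hle
  have hbpos : 1 ≤ φ (cls (LX d)) := by
    have := hm _ _ hb
    rwa [h1] at this
  change φ (cls (LX d)) < φ (cls C5) * φ (cls (⊤ : SimpleGraph (Fin d)))
  rw [← nat_cls, hnat]
  push_cast at hle
  subst hn0
  push_cast at hle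
  nlinarith

end Pool.Agent.H6.Lex
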